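import Pool.Agent.H38.EndQ.Defs

/-!
Intrinsic description of the commutative semigroups whose endomorphism semigroup under the
pointwise product is the additive semigroup of positive (nonnegative) rationals.
-/

namespace Pool.Agent.H38.EndQ

universe u

section

variable {S : Type u} [CommSemigroup S]

theorem map_ppow {S T : Type*} [Mul S] [Mul T] (f : S →ₙ* T) (a : S) (n : ℕ) :
    f (ppow a n) = ppow (f a) n := by
  induction n with
  | zero => rfl
  | succ n ih => rw [ppow, ppow, map_mul, ih]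

theorem coe_ppow (a : S) (n : ℕ) : ((ppow a n : S) : WithOne S) = (a : WithOne S) ^ (n + 1) := by
  induction n with
  | zero => simp [ppow]
  | succ n ih => rw [ppow, WithOne.coe_mul, ih, pow_succ _ (n + 1)]

theorem ppow_mul (a b : S) (n : ℕ) : ppow (a * b) n = ppow a n * ppow b n := by
  apply WithOne.coe_injective
  rw [WithOne.coe_mul, coe_ppow, coe_ppow, coe_ppow, WithOne.coe_mul, mul_pow]

theorem ppow_add (a : S) (n m k : ℕ) (h : n + m + 1 = k) : ppow a n * ppow a m = ppow a k := by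
  subst h
  apply WithOne.coe_injective
  rw [WithOne.coe_mul, coe_ppow, coe_ppow, coe_ppow, ← pow_add]
  congr 1
  omega

theorem ppow_ppow (a : S) (n m k : ℕ) (h : (n + 1) * (m + 1) = k + 1) :
    ppow (ppow a n) m = ppow a k := by
  apply WithOne.coe_injective
  rw [coe_ppow, coe_ppow, coe_ppow, ← pow_mul, h]

/-- Power map as an endomorphism. -/
def pw (S : Type u) [CommSemigroup S] (n : ℕ) : S →ₙ* S where
  toFun a := ppow a n
  map_mul' a b := ppow_mul a b n

/-- If two powers with distinct exponents coincide then some power is idempotent. -/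
theorem exists_idem (a : S) (m k : ℕ) (h : ppow a m = ppow a k) (hne : m ≠ k) :
    ∃ n, ppow a n * ppow a n = ppow a n := by
  wlog hlt : m < k generalizing m k with H
  · exact H k m h.symm (Ne.symm hne) (by omega)
  -- `a^(m+1) = a^(k+1)`, `d = k - m`
  have h1 : (a : WithOne S) ^ (m + 1) = (a : WithOne S) ^ (k + 1) := by
    rw [← coe_ppow, ← coe_ppow, h]
  obtain ⟨d, hd, hk⟩ : ∃ d, 0 < d ∧ k + 1 = (m + 1) + d := ⟨k - m, by omega, by omega⟩
  rw [hk, pow_add _ (m + 1) d] at h1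
  have h2 : ∀ j : ℕ, (a : WithOne S) ^ (m + 1) = (a : WithOne S) ^ (m + 1) * (a : WithOne S) ^ (d * j) := by
    intro j
    induction j with
    | zero => simp
    | succ j ih =>
      rw [Nat.mul_succ, pow_add _ (d * j) d, ← mul_assoc, ← ih, ← h1]
  have h3 : (a : WithOne S) ^ (d * (m + 1)) * (a : WithOne S) ^ (d * (m + 1)) =
      (a : WithOne S) ^ (d * (m + 1)) := by
    obtain ⟨r, hr⟩ : ∃ r, d * (m + 1) = r + (m + 1) := ⟨(d - 1) * (m + 1), by
      obtain ⟨d', rfl⟩ : ∃ d', d = d' + 1 := ⟨d - 1, by omega⟩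
      simp
      ring⟩
    calc (a : WithOne S) ^ (d * (m + 1)) * (a : WithOne S) ^ (d * (m + 1))
        = (a : WithOne S) ^ r * ((a : WithOne S) ^ (m + 1) * (a : WithOne S) ^ (d * (m + 1))) := by
          rw [← mul_assoc, ← pow_add _ r (m + 1), ← hr]
      _ = (a : WithOne S) ^ r * (a : WithOne S) ^ (m + 1) := by rw [← h2]
      _ = (a : WithOne S) ^ (d * (m + 1)) := by rw [← pow_add, ← hr]
  obtain ⟨n, hn⟩ : ∃ n, d * (m + 1) = n + 1 := ⟨d * (m + 1) - 1, by
    have : 0 < d * (m + 1) := by positivity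
    omega⟩
  rw [hn, ← coe_ppow, ← WithOne.coe_mul] at h3
  exact ⟨n, WithOne.coe_injective h3⟩

/-- In an idempotent-free commutative semigroup powers with distinct exponents are distinct. -/
theorem exponent_unique (hid : ∀ a : S, a * a ≠ a) (a : S) (m k : ℕ)
    (h : ppow a m = ppow a k) : m = k := by
  by_contra hne
  obtain ⟨n, hn⟩ := exists_idem a m k h hne
  exact hid _ hn

theorem ppow_rat (x : Multiplicative {q : ℚ // 0 < q}) (n : ℕ) :
    ((Multiplicative.toAdd (ppow x n) : {q : ℚ // 0 < q}) : ℚ) =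
      (n + 1) * ((Multiplicative.toAdd x : {q : ℚ // 0 < q}) : ℚ) := by
  induction n with
  | zero => simp [ppow]
  | succ n ih =>
    rw [ppow, toAdd_mul, Positive.coe_add, ih]
    push_cast
    ring

theorem ppow_apply {S T : Type*} [Mul S] [CommSemigroup T] (f : S →ₙ* T) (a : S) (n : ℕ) :
    (ppow f n) a = ppow (f a) n := by
  induction n with
  | zero => rfl
  | succ n ih => rw [ppow, ppow, MulHom.mul_apply, ih]

/-- Intrinsic description for the positive rationals, first direction. -/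
theorem char_pos_forward (h : EndIsPosRat S) :
    (∀ n, Function.Bijective fun a : S => ppow a n) ∧ (∀ a : S, a * a ≠ a) ∧
      ∀ φ : S →ₙ* S, ∃ m n : ℕ, ∀ a, ppow (φ a) n = ppow a m := by
  obtain ⟨e⟩ := h
  set c : ℚ := ((Multiplicative.toAdd (e (MulHom.id S)) : {q : ℚ // 0 < q}) : ℚ) with hc
  have hcpos : 0 < c := (Multiplicative.toAdd (e (MulHom.id S))).2
  have hinj : ∀ f g : S →ₙ* S, ((Multiplicative.toAdd (e f) : {q : ℚ // 0 < q}) : ℚ) =
      ((Multiplicative.toAdd (e g) : {q : ℚ // 0 < q}) : ℚ) → f = g := by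
    intro f g hfg
    apply e.injective
    apply Multiplicative.toAdd.injective
    exact Subtype.ext hfg
  have hpow : ∀ (f : S →ₙ* S) (n : ℕ),
      ((Multiplicative.toAdd (e (ppow f n)) : {q : ℚ // 0 < q}) : ℚ) =
        (n + 1) * ((Multiplicative.toAdd (e f) : {q : ℚ // 0 < q}) : ℚ) := by
    intro f n
    have : e (ppow f n) = ppow (e f) n := map_ppow e.toMulHom f n
    rw [this, ppow_rat]
  refine ⟨fun n => ?_, ?_, ?_⟩
  · -- root
    have hn : (0 : ℚ) < n + 1 := by positivity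
    set r : S →ₙ* S := e.symm (Multiplicative.ofAdd ⟨c / (n + 1), div_pos hcpos hn⟩) with hr
    have hr2 : ppow r n = MulHom.id S := by
      apply hinj
      rw [hpow, hr, MulEquiv.apply_symm_apply]
      change ((n : ℚ) + 1) * (c / (n + 1)) = c
      field_simp
    have hra : ∀ a, ppow (r a) n = a := by
      intro a
      have := DFunLike.congr_fun hr2 a
      rwa [ppow_apply] at this
    constructor
    · intro a b hab
      have h1 : r (ppow a n) = r (ppow b n) := congrArg r hab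
      rw [map_ppow, map_ppow, hra, hra] at h1
      exact h1
    · intro a
      exact ⟨r a, hra a⟩
  · intro a ha
    let f : S →ₙ* S := ⟨fun _ => a, fun _ _ => ha.symm⟩
    have hf : f * f = f := by
      ext x
      exact ha
    have h1 : e f * e f = e f := by rw [← map_mul, hf]
    have h2 : ((Multiplicative.toAdd (e f) : {q : ℚ // 0 < q}) : ℚ) +
        ((Multiplicative.toAdd (e f) : {q : ℚ // 0 < q}) : ℚ) =
        ((Multiplicative.toAdd (e f) : {q : ℚ // 0 < q}) : ℚ) := by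
      rw [← Positive.coe_add, ← toAdd_mul, h1]
    have h3 := (Multiplicative.toAdd (e f)).2
    linarith
  · intro φ
    set p : ℚ := ((Multiplicative.toAdd (e φ) : {q : ℚ // 0 < q}) : ℚ) with hp
    have hppos : 0 < p := (Multiplicative.toAdd (e φ)).2
    set t : ℚ := p / c with ht
    have htpos : 0 < t := div_pos hppos hcpos
    have hnum : 0 < t.num := Rat.num_pos.2 htpos
    obtain ⟨m, hm⟩ : ∃ m : ℕ, t.num = m + 1 := ⟨(t.num - 1).toNat, by omega⟩
    obtain ⟨n, hn⟩ : ∃ n : ℕ, t.den = n + 1 := ⟨t.den - 1, by have := t.den_pos; omega⟩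
    have hteq : t = ((m : ℚ) + 1) / (n + 1) := by
      rw [← Rat.num_div_den t, hm, hn]
      push_cast
      rfl
    have hkey : ppow φ n = ppow (MulHom.id S) m := by
      apply hinj
      rw [hpow, hpow]
      change ((n : ℚ) + 1) * p = (m + 1) * c
      have h1 : p = t * c := by rw [ht]; field_simp
      rw [h1, hteq]
      field_simp
    refine ⟨m, n, fun a => ?_⟩
    have := DFunLike.congr_fun hkey a
    rwa [ppow_apply, ppow_apply] at this

/-- Intrinsic description for the positive rationals, second direction. -/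
theorem char_pos_backward [Nonempty S] (h1 : ∀ n, Function.Bijective fun a : S => ppow a n)
    (h2 : ∀ a : S, a * a ≠ a)
    (h3 : ∀ φ : S →ₙ* S, ∃ m n : ℕ, ∀ a, ppow (φ a) n = ppow a m) : EndIsPosRat S := by
  choose M N hMN using h3
  have huniq : ∀ (φ : S →ₙ* S) (m n m' n' : ℕ), (∀ a, ppow (φ a) n = ppow a m) →
      (∀ a, ppow (φ a) n' = ppow a m') → (m + 1) * (n' + 1) = (m' + 1) * (n + 1) := by
    intro φ m n m' n' ha hb
    obtain ⟨a⟩ := ‹Nonempty S›
    obtain ⟨k, hk⟩ : ∃ k, (m + 1) * (n' + 1) = k + 1 := ⟨(m + 1) * (n' + 1) - 1, by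
      have : 0 < (m + 1) * (n' + 1) := by positivity
      omega⟩
    obtain ⟨k', hk'⟩ : ∃ k', (m' + 1) * (n + 1) = k' + 1 := ⟨(m' + 1) * (n + 1) - 1, by
      have : 0 < (m' + 1) * (n + 1) := by positivity
      omega⟩
    obtain ⟨l, hl⟩ : ∃ l, (n + 1) * (n' + 1) = l + 1 := ⟨(n + 1) * (n' + 1) - 1, by
      have : 0 < (n + 1) * (n' + 1) := by positivity
      omega⟩
    have e1 : ppow a k = ppow (φ a) l := by
      rw [← ppow_ppow a m n' k hk, ← ha a, ppow_ppow _ n n' l hl]
    have e2 : ppow a k' = ppow (φ a) l := by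
      rw [← ppow_ppow a m' n k' hk', ← hb a, ppow_ppow _ n' n l (by rw [mul_comm]; exact hl)]
    have := exponent_unique h2 a k k' (e1.trans e2.symm)
    rw [hk, hk', this]
  let Φ : (S →ₙ* S) → Multiplicative {q : ℚ // 0 < q} := fun φ =>
    Multiplicative.ofAdd ⟨((M φ : ℚ) + 1) / (N φ + 1), by positivity⟩
  have hΦ : ∀ (φ : S →ₙ* S) (m n : ℕ), (∀ a, ppow (φ a) n = ppow a m) →
      Φ φ = Multiplicative.ofAdd ⟨((m : ℚ) + 1) / (n + 1), by positivity⟩ := by
    intro φ m n hmn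
    have := huniq φ (M φ) (N φ) m n (hMN φ) hmn
    simp only [Φ]
    congr 2
    rw [div_eq_div_iff (by positivity) (by positivity)]
    exact_mod_cast this
  have hmul : ∀ φ ψ, Φ (φ * ψ) = Φ φ * Φ ψ := by
    intro φ ψ
    obtain ⟨k, hk⟩ : ∃ k, (N φ + 1) * (N ψ + 1) = k + 1 := ⟨(N φ + 1) * (N ψ + 1) - 1, by
      have : 0 < (N φ + 1) * (N ψ + 1) := by positivity
      omega⟩
    obtain ⟨i, hi⟩ : ∃ i, (M φ + 1) * (N ψ + 1) = i + 1 := ⟨(M φ + 1) * (N ψ + 1) - 1, by
      have : 0 < (M φ + 1) * (N ψ + 1) := by positivity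
      omega⟩
    obtain ⟨j, hj⟩ : ∃ j, (M ψ + 1) * (N φ + 1) = j + 1 := ⟨(M ψ + 1) * (N φ + 1) - 1, by
      have : 0 < (M ψ + 1) * (N φ + 1) := by positivity
      omega⟩
    have h4 : ∀ a, ppow ((φ * ψ) a) k = ppow a (i + j + 1) := by
      intro a
      rw [MulHom.mul_apply, ppow_mul, ← ppow_ppow (φ a) (N φ) (N ψ) k hk, hMN φ a,
        ← ppow_ppow (ψ a) (N ψ) (N φ) k (by rw [mul_comm]; exact hk), hMN ψ a,
        ppow_ppow a (M φ) (N ψ) i hi, ppow_ppow a (M ψ) (N φ) j hj, ppow_add _ _ _ _ rfl]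
    rw [hΦ _ _ _ h4]
    simp only [Φ]
    rw [← ofAdd_add]
    congr 1
    apply Subtype.ext
    rw [Positive.coe_add]
    change (((i + j + 1 : ℕ) : ℚ) + 1) / (k + 1) = ((M φ : ℚ) + 1) / (N φ + 1) +
      ((M ψ : ℚ) + 1) / (N ψ + 1)
    have hk' : ((N φ : ℚ) + 1) * (N ψ + 1) = k + 1 := by exact_mod_cast hk
    have hi' : ((M φ : ℚ) + 1) * (N ψ + 1) = i + 1 := by exact_mod_cast hi
    have hj' : ((M ψ : ℚ) + 1) * (N φ + 1) = j + 1 := by exact_mod_cast hj
    rw [div_add_div _ _ (by positivity) (by positivity), ← hk', hi']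
    congr 1
    push_cast
    linarith
  have hinj : Function.Injective Φ := by
    intro φ ψ h
    have h5 : ((M φ : ℚ) + 1) / (N φ + 1) = ((M ψ : ℚ) + 1) / (N ψ + 1) := by
      have := congrArg (fun x => ((Multiplicative.toAdd x : {q : ℚ // 0 < q}) : ℚ)) h
      exact this
    rw [div_eq_div_iff (by positivity) (by positivity)] at h5
    have h6 : (M φ + 1) * (N ψ + 1) = (M ψ + 1) * (N φ + 1) := by exact_mod_cast h5
    ext a
    obtain ⟨k, hk⟩ : ∃ k, (N φ + 1) * (N ψ + 1) = k + 1 := ⟨(N φ + 1) * (N ψ + 1) - 1, by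
      have : 0 < (N φ + 1) * (N ψ + 1) := by positivity
      omega⟩
    obtain ⟨i, hi⟩ : ∃ i, (M φ + 1) * (N ψ + 1) = i + 1 := ⟨(M φ + 1) * (N ψ + 1) - 1, by
      have : 0 < (M φ + 1) * (N ψ + 1) := by positivity
      omega⟩
    apply (h1 k).1
    change ppow (φ a) k = ppow (ψ a) k
    rw [← ppow_ppow (φ a) (N φ) (N ψ) k hk, hMN φ a,
        ← ppow_ppow (ψ a) (N ψ) (N φ) k (by rw [mul_comm]; exact hk), hMN ψ a,
        ppow_ppow a (M φ) (N ψ) i hi, ppow_ppow a (M ψ) (N φ) i (by rw [← hi, h6])]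
  have hsurj : Function.Surjective Φ := by
    intro x
    obtain ⟨⟨q, hq⟩, rfl⟩ := Multiplicative.ofAdd.surjective x
    have hnum : 0 < q.num := Rat.num_pos.2 hq
    obtain ⟨m, hm⟩ : ∃ m : ℕ, q.num = m + 1 := ⟨(q.num - 1).toNat, by omega⟩
    obtain ⟨n, hn⟩ : ∃ n : ℕ, q.den = n + 1 := ⟨q.den - 1, by have := q.den_pos; omega⟩
    have hqeq : q = ((m : ℚ) + 1) / (n + 1) := by
      rw [← Rat.num_div_den q, hm, hn]
      push_cast
      rfl
    let E : S ≃* S := MulEquiv.ofBijective (pw S n) (h1 n)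
    have hE : ∀ a, ppow (E.symm a) n = a := fun a => E.apply_symm_apply a
    let φ : S →ₙ* S := (pw S m).comp (E.symm : S →ₙ* S)
    refine ⟨φ, ?_⟩
    rw [hΦ φ m n]
    · congr 2
      exact hqeq.symm
    · intro a
      change ppow (ppow (E.symm a) m) n = ppow a m
      obtain ⟨k, hk⟩ : ∃ k, (m + 1) * (n + 1) = k + 1 := ⟨(m + 1) * (n + 1) - 1, by
        have : 0 < (m + 1) * (n + 1) := by positivity
        omega⟩
      rw [ppow_ppow _ m n k hk, ← ppow_ppow _ n m k (by rw [mul_comm]; exact hk), hE]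
  exact ⟨MulEquiv.ofBijective (MulHom.mk Φ hmul) ⟨hinj, hsurj⟩⟩

theorem ppow_rat' (x : Multiplicative {q : ℚ // 0 ≤ q}) (n : ℕ) :
    ((Multiplicative.toAdd (ppow x n) : {q : ℚ // 0 ≤ q}) : ℚ) =
      (n + 1) * ((Multiplicative.toAdd x : {q : ℚ // 0 ≤ q}) : ℚ) := by
  induction n with
  | zero => simp [ppow]
  | succ n ih =>
    rw [ppow, toAdd_mul, Nonneg.coe_add, ih]
    push_cast
    ring

/-- Intrinsic description for the nonnegative rationals, first direction. -/
theorem char_nonneg_forward (h : EndIsNonnegRat S) :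
    (∀ n, Function.Bijective fun a : S => ppow a n) ∧ ∃ e : S, (∀ a, a * e = a) ∧
      (∀ a, a * a = a → a = e) ∧ (∃ a, a ≠ e) ∧
      ∀ φ : S →ₙ* S, (∀ a, φ a = e) ∨ ∃ m n : ℕ, ∀ a, ppow (φ a) n = ppow a m := by
  obtain ⟨E⟩ := h
  set c : ℚ := ((Multiplicative.toAdd (E (MulHom.id S)) : {q : ℚ // 0 ≤ q}) : ℚ) with hc
  have hinj : ∀ f g : S →ₙ* S, ((Multiplicative.toAdd (E f) : {q : ℚ // 0 ≤ q}) : ℚ) =
      ((Multiplicative.toAdd (E g) : {q : ℚ // 0 ≤ q}) : ℚ) → f = g := by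
    intro f g hfg
    apply E.injective
    apply Multiplicative.toAdd.injective
    exact Subtype.ext hfg
  have hadd : ∀ f g : S →ₙ* S, ((Multiplicative.toAdd (E (f * g)) : {q : ℚ // 0 ≤ q}) : ℚ) =
      ((Multiplicative.toAdd (E f) : {q : ℚ // 0 ≤ q}) : ℚ) +
      ((Multiplicative.toAdd (E g) : {q : ℚ // 0 ≤ q}) : ℚ) := by
    intro f g
    rw [map_mul, toAdd_mul, Nonneg.coe_add]
  have hpow : ∀ (f : S →ₙ* S) (n : ℕ),
      ((Multiplicative.toAdd (E (ppow f n)) : {q : ℚ // 0 ≤ q}) : ℚ) =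
        (n + 1) * ((Multiplicative.toAdd (E f) : {q : ℚ // 0 ≤ q}) : ℚ) := by
    intro f n
    have : E (ppow f n) = ppow (E f) n := map_ppow E.toMulHom f n
    rw [this, ppow_rat']
  -- the zero endomorphism
  set z : S →ₙ* S := E.symm (Multiplicative.ofAdd 0) with hz
  have hz0 : ((Multiplicative.toAdd (E z) : {q : ℚ // 0 ≤ q}) : ℚ) = 0 := by
    rw [hz, MulEquiv.apply_symm_apply]
    rfl
  have hconst : ∀ (a : S) (ha : a * a = a), ∀ x, z x = a := by
    intro a ha
    let f : S →ₙ* S := ⟨fun _ => a, fun _ _ => ha.symm⟩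
    have hf : f * f = f := by
      ext x
      exact ha
    have h1 := hadd f f
    rw [hf] at h1
    have : z = f := hinj _ _ (by rw [hz0]; linarith)
    intro x
    rw [this]
    rfl
  have hzid : z * z = z := hinj _ _ (by rw [hadd, hz0, add_zero])
  have hSne : Nonempty S := by
    by_contra hemp
    rw [not_nonempty_iff] at hemp
    have h1 : E.symm (Multiplicative.ofAdd 0) = E.symm (Multiplicative.ofAdd ⟨1, zero_le_one⟩) := by
      ext x
      exact hemp.elim x
    have h2 := E.symm.injective h1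
    have h3 := congrArg (fun x => ((Multiplicative.toAdd x : {q : ℚ // 0 ≤ q}) : ℚ)) h2
    change (0 : ℚ) = 1 at h3
    norm_num at h3
  obtain ⟨x0⟩ := hSne
  set e : S := z x0 with he
  have hee : e * e = e := by
    have := DFunLike.congr_fun hzid x0
    rwa [MulHom.mul_apply] at this
  have hze : ∀ x, z x = e := hconst e hee
  have hne : ∃ a, a ≠ e := by
    by_contra hcon
    push Not at hcon
    have h1 : E.symm (Multiplicative.ofAdd 0) = E.symm (Multiplicative.ofAdd ⟨1, zero_le_one⟩) := by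
      ext x
      rw [hcon (E.symm (Multiplicative.ofAdd 0) x),
        hcon (E.symm (Multiplicative.ofAdd ⟨1, zero_le_one⟩) x)]
    have h2 := E.symm.injective h1
    have h3 := congrArg (fun x => ((Multiplicative.toAdd x : {q : ℚ // 0 ≤ q}) : ℚ)) h2
    change (0 : ℚ) = 1 at h3
    norm_num at h3
  have hcpos : 0 < c := by
    have h0 : 0 ≤ c := (Multiplicative.toAdd (E (MulHom.id S))).2
    refine lt_of_le_of_ne h0 ?_
    intro h00
    have : z = MulHom.id S := hinj _ _ (by rw [hz0, ← hc, h00])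
    obtain ⟨a, ha⟩ := hne
    apply ha
    rw [← hze a, this]
    rfl
  refine ⟨fun n => ?_, e, ?_, ?_, hne, ?_⟩
  · -- root
    have hn : (0 : ℚ) < n + 1 := by positivity
    set r : S →ₙ* S := E.symm (Multiplicative.ofAdd ⟨c / (n + 1), (div_pos hcpos hn).le⟩) with hr
    have hr2 : ppow r n = MulHom.id S := by
      apply hinj
      rw [hpow, hr, MulEquiv.apply_symm_apply]
      change ((n : ℚ) + 1) * (c / (n + 1)) = c
      field_simp
    have hra : ∀ a, ppow (r a) n = a := by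
      intro a
      have := DFunLike.congr_fun hr2 a
      rwa [ppow_apply] at this
    constructor
    · intro a b hab
      have h1 : r (ppow a n) = r (ppow b n) := congrArg r hab
      rw [map_ppow, map_ppow, hra, hra] at h1
      exact h1
    · intro a
      exact ⟨r a, hra a⟩
  · intro a
    have : MulHom.id S * z = MulHom.id S := hinj _ _ (by rw [hadd, hz0, add_zero])
    have := DFunLike.congr_fun this a
    rw [MulHom.mul_apply, hze] at this
    exact this
  · intro a ha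
    rw [← hconst a ha a, hze]
  · intro φ
    set p : ℚ := ((Multiplicative.toAdd (E φ) : {q : ℚ // 0 ≤ q}) : ℚ) with hp
    have hp0 : 0 ≤ p := (Multiplicative.toAdd (E φ)).2
    rcases hp0.eq_or_lt with hpz | hppos
    · left
      have : φ = z := hinj _ _ (by rw [hz0, ← hp, ← hpz])
      intro a
      rw [this, hze]
    right
    set t : ℚ := p / c with ht
    have htpos : 0 < t := div_pos hppos hcpos
    have hnum : 0 < t.num := Rat.num_pos.2 htpos
    obtain ⟨m, hm⟩ : ∃ m : ℕ, t.num = m + 1 := ⟨(t.num - 1).toNat, by omega⟩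
    obtain ⟨n, hn⟩ : ∃ n : ℕ, t.den = n + 1 := ⟨t.den - 1, by have := t.den_pos; omega⟩
    have hteq : t = ((m : ℚ) + 1) / (n + 1) := by
      rw [← Rat.num_div_den t, hm, hn]
      push_cast
      rfl
    have hkey : ppow φ n = ppow (MulHom.id S) m := by
      apply hinj
      rw [hpow, hpow]
      change ((n : ℚ) + 1) * p = (m + 1) * c
      have h1 : p = t * c := by rw [ht]; field_simp
      rw [h1, hteq]
      field_simp
    refine ⟨m, n, fun a => ?_⟩
    have := DFunLike.congr_fun hkey a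
    rwa [ppow_apply, ppow_apply] at this

theorem ppow_idem {e : S} (he : e * e = e) (n : ℕ) : ppow e n = e := by
  induction n with
  | zero => rfl
  | succ n ih => rw [ppow, ih, he]

/-- Intrinsic description for the nonnegative rationals, second direction. -/
theorem char_nonneg_backward (h1 : ∀ n, Function.Bijective fun a : S => ppow a n) (e : S)
    (he1 : ∀ a, a * e = a) (he2 : ∀ a, a * a = a → a = e) (he3 : ∃ a, a ≠ e)
    (h3 : ∀ φ : S →ₙ* S, (∀ a, φ a = e) ∨ ∃ m n : ℕ, ∀ a, ppow (φ a) n = ppow a m) :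
    EndIsNonnegRat S := by
  classical
  have hee : e * e = e := he1 e
  obtain ⟨a0, ha0⟩ := he3
  have hexp : ∀ m k, ppow a0 m = ppow a0 k → m = k := by
    intro m k h
    by_contra hne
    obtain ⟨n, hn⟩ := exists_idem a0 m k h hne
    have h5 := he2 _ hn
    apply ha0
    apply (h1 n).1
    change ppow a0 n = ppow e n
    rw [h5, ppow_idem hee]
  have hnote : ∀ m, ppow a0 m ≠ e := by
    intro m hm
    apply ha0
    apply (h1 m).1
    change ppow a0 m = ppow e m
    rw [hm, ppow_idem hee]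
  have huniq : ∀ (φ : S →ₙ* S) (m n m' n' : ℕ), (∀ a, ppow (φ a) n = ppow a m) →
      (∀ a, ppow (φ a) n' = ppow a m') → (m + 1) * (n' + 1) = (m' + 1) * (n + 1) := by
    intro φ m n m' n' ha hb
    obtain ⟨k, hk⟩ : ∃ k, (m + 1) * (n' + 1) = k + 1 := ⟨(m + 1) * (n' + 1) - 1, by
      have : 0 < (m + 1) * (n' + 1) := by positivity
      omega⟩
    obtain ⟨k', hk'⟩ : ∃ k', (m' + 1) * (n + 1) = k' + 1 := ⟨(m' + 1) * (n + 1) - 1, by
      have : 0 < (m' + 1) * (n + 1) := by positivity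
      omega⟩
    obtain ⟨l, hl⟩ : ∃ l, (n + 1) * (n' + 1) = l + 1 := ⟨(n + 1) * (n' + 1) - 1, by
      have : 0 < (n + 1) * (n' + 1) := by positivity
      omega⟩
    have e1 : ppow a0 k = ppow (φ a0) l := by
      rw [← ppow_ppow a0 m n' k hk, ← ha a0, ppow_ppow _ n n' l hl]
    have e2 : ppow a0 k' = ppow (φ a0) l := by
      rw [← ppow_ppow a0 m' n k' hk', ← hb a0, ppow_ppow _ n' n l (by rw [mul_comm]; exact hl)]
    have := hexp k k' (e1.trans e2.symm)
    rw [hk, hk', this]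
  -- value of an endomorphism
  have hval : ∀ φ : S →ₙ* S, ∃ q : ℚ, 0 ≤ q ∧ ((q = 0 ∧ ∀ a, φ a = e) ∨
      (0 < q ∧ ∃ m n : ℕ, q = ((m : ℚ) + 1) / (n + 1) ∧ ∀ a, ppow (φ a) n = ppow a m)) := by
    intro φ
    rcases h3 φ with h | ⟨m, n, h⟩
    · exact ⟨0, le_rfl, Or.inl ⟨rfl, h⟩⟩
    · exact ⟨((m : ℚ) + 1) / (n + 1), by positivity, Or.inr ⟨by positivity, m, n, rfl, h⟩⟩
  choose Q hQ0 hQ using hval
  let Φ : (S →ₙ* S) → Multiplicative {q : ℚ // 0 ≤ q} := fun φ =>
    Multiplicative.ofAdd ⟨Q φ, hQ0 φ⟩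
  have hQconst : ∀ φ : S →ₙ* S, (∀ a, φ a = e) → Q φ = 0 := by
    intro φ h
    rcases hQ φ with ⟨h0, _⟩ | ⟨_, m, n, _, h4⟩
    · exact h0
    · exfalso
      have := h4 a0
      rw [h, ppow_idem hee] at this
      exact hnote m this.symm
  have hQpow : ∀ (φ : S →ₙ* S) (m n : ℕ), (∀ a, ppow (φ a) n = ppow a m) →
      Q φ = ((m : ℚ) + 1) / (n + 1) := by
    intro φ m n hmn
    rcases hQ φ with ⟨_, h0⟩ | ⟨_, m', n', hq, h4⟩
    · exfalso
      have := hmn a0
      rw [h0, ppow_idem hee] at this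
      exact hnote m this.symm
    · have := huniq φ m' n' m n h4 hmn
      rw [hq, div_eq_div_iff (by positivity) (by positivity)]
      exact_mod_cast this
  have hmul : ∀ φ ψ, Q (φ * ψ) = Q φ + Q ψ := by
    intro φ ψ
    rcases hQ φ with ⟨hq, h0⟩ | ⟨_, m, n, hq, h4⟩
    · have : φ * ψ = ψ := by
        ext a
        rw [MulHom.mul_apply, h0, mul_comm, he1]
      rw [this, hq, zero_add]
    rcases hQ ψ with ⟨hq', h0'⟩ | ⟨_, m', n', hq', h4'⟩
    · have : φ * ψ = φ := by
        ext a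
        rw [MulHom.mul_apply, h0', he1]
      rw [this, hq', add_zero]
    obtain ⟨k, hk⟩ : ∃ k, (n + 1) * (n' + 1) = k + 1 := ⟨(n + 1) * (n' + 1) - 1, by
      have : 0 < (n + 1) * (n' + 1) := by positivity
      omega⟩
    obtain ⟨i, hi⟩ : ∃ i, (m + 1) * (n' + 1) = i + 1 := ⟨(m + 1) * (n' + 1) - 1, by
      have : 0 < (m + 1) * (n' + 1) := by positivity
      omega⟩
    obtain ⟨j, hj⟩ : ∃ j, (m' + 1) * (n + 1) = j + 1 := ⟨(m' + 1) * (n + 1) - 1, by
      have : 0 < (m' + 1) * (n + 1) := by positivity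
      omega⟩
    have h5 : ∀ a, ppow ((φ * ψ) a) k = ppow a (i + j + 1) := by
      intro a
      rw [MulHom.mul_apply, ppow_mul, ← ppow_ppow (φ a) n n' k hk, h4 a,
        ← ppow_ppow (ψ a) n' n k (by rw [mul_comm]; exact hk), h4' a,
        ppow_ppow a m n' i hi, ppow_ppow a m' n j hj, ppow_add _ _ _ _ rfl]
    rw [hQpow _ _ _ h5, hq, hq']
    have hk' : ((n : ℚ) + 1) * (n' + 1) = k + 1 := by exact_mod_cast hk
    have hi' : ((m : ℚ) + 1) * (n' + 1) = i + 1 := by exact_mod_cast hi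
    have hj' : ((m' : ℚ) + 1) * (n + 1) = j + 1 := by exact_mod_cast hj
    rw [div_add_div _ _ (by positivity) (by positivity), ← hk', hi']
    congr 1
    push_cast
    linarith
  have hinj : ∀ φ ψ, Q φ = Q ψ → φ = ψ := by
    intro φ ψ h
    rcases hQ φ with ⟨hq, h0⟩ | ⟨hpos, m, n, hq, h4⟩
    · rcases hQ ψ with ⟨hq', h0'⟩ | ⟨hpos', _⟩
      · ext a
        rw [h0, h0']
      · rw [← h, hq] at hpos'
        exact absurd hpos' (lt_irrefl _)
    rcases hQ ψ with ⟨hq', h0'⟩ | ⟨_, m', n', hq', h4'⟩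
    · rw [h, hq'] at hpos
      exact absurd hpos (lt_irrefl _)
    rw [hq, hq', div_eq_div_iff (by positivity) (by positivity)] at h
    have h6 : (m + 1) * (n' + 1) = (m' + 1) * (n + 1) := by exact_mod_cast h
    ext a
    obtain ⟨k, hk⟩ : ∃ k, (n + 1) * (n' + 1) = k + 1 := ⟨(n + 1) * (n' + 1) - 1, by
      have : 0 < (n + 1) * (n' + 1) := by positivity
      omega⟩
    obtain ⟨i, hi⟩ : ∃ i, (m + 1) * (n' + 1) = i + 1 := ⟨(m + 1) * (n' + 1) - 1, by
      have : 0 < (m + 1) * (n' + 1) := by positivity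
      omega⟩
    apply (h1 k).1
    change ppow (φ a) k = ppow (ψ a) k
    rw [← ppow_ppow (φ a) n n' k hk, h4 a,
        ← ppow_ppow (ψ a) n' n k (by rw [mul_comm]; exact hk), h4' a,
        ppow_ppow a m n' i hi, ppow_ppow a m' n i (by rw [← hi, h6])]
  have hsurj : ∀ q : ℚ, 0 ≤ q → ∃ φ, Q φ = q := by
    intro q hq
    rcases hq.eq_or_lt with rfl | hq
    · exact ⟨⟨fun _ => e, fun _ _ => hee.symm⟩, hQconst _ fun _ => rfl⟩
    have hnum : 0 < q.num := Rat.num_pos.2 hq
    obtain ⟨m, hm⟩ : ∃ m : ℕ, q.num = m + 1 := ⟨(q.num - 1).toNat, by omega⟩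
    obtain ⟨n, hn⟩ : ∃ n : ℕ, q.den = n + 1 := ⟨q.den - 1, by have := q.den_pos; omega⟩
    have hqeq : q = ((m : ℚ) + 1) / (n + 1) := by
      rw [← Rat.num_div_den q, hm, hn]
      push_cast
      rfl
    let E : S ≃* S := MulEquiv.ofBijective (pw S n) (h1 n)
    have hE : ∀ a, ppow (E.symm a) n = a := fun a => E.apply_symm_apply a
    let φ : S →ₙ* S := (pw S m).comp (E.symm : S →ₙ* S)
    refine ⟨φ, ?_⟩
    rw [hQpow φ m n]
    · exact hqeq.symm
    · intro a
      change ppow (ppow (E.symm a) m) n = ppow a m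
      obtain ⟨k, hk⟩ : ∃ k, (m + 1) * (n + 1) = k + 1 := ⟨(m + 1) * (n + 1) - 1, by
        have : 0 < (m + 1) * (n + 1) := by positivity
        omega⟩
      rw [ppow_ppow _ m n k hk, ← ppow_ppow _ n m k (by rw [mul_comm]; exact hk), hE]
  refine ⟨MulEquiv.ofBijective (MulHom.mk Φ ?_) ⟨?_, ?_⟩⟩
  · intro φ ψ
    apply Multiplicative.toAdd.injective
    apply Subtype.ext
    rw [toAdd_mul, Nonneg.coe_add]
    exact hmul φ ψ
  · intro φ ψ h
    apply hinj
    exact congrArg (fun x => ((Multiplicative.toAdd x : {q : ℚ // 0 ≤ q}) : ℚ)) h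
  · intro x
    obtain ⟨φ, hφ⟩ := hsurj _ (Multiplicative.toAdd x).2
    refine ⟨φ, ?_⟩
    apply Multiplicative.toAdd.injective
    exact Subtype.ext hφ

end

end Pool.Agent.H38.EndQ
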