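import Pool.Agent.H38.EndQ.Count

/-!
Multiplication tables on the natural numbers of semigroups depending continuously or measurably
on a parameter; the positive and nonnegative cones of arbitrary countable systems of operations.
-/

open Polynomial

namespace Pool.Agent.H38.EndQ

noncomputable section

section table

open Classical in
/-- A class of sets closed under complements and intersections. -/
structure Alg {X : Type*} (𝒞 : Set X → Prop) : Prop where
  empty : 𝒞 ∅
  compl : ∀ A, 𝒞 A → 𝒞 Aᶜ
  inter : ∀ A B, 𝒞 A → 𝒞 B → 𝒞 (A ∩ B)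

theorem Alg.union {X : Type*} {𝒞 : Set X → Prop} (h : Alg 𝒞) {A B : Set X} (hA : 𝒞 A)
    (hB : 𝒞 B) : 𝒞 (A ∪ B) := by
  have := h.compl _ (h.inter _ _ (h.compl _ hA) (h.compl _ hB))
  rwa [Set.compl_inter, compl_compl, compl_compl] at this

open Classical in
theorem Alg.count {X : Type*} {𝒞 : Set X → Prop} (h : Alg 𝒞) (S : X → Set ℕ)
    (hS : ∀ k, 𝒞 {x | k ∈ S x}) (k : ℕ) : ∀ c, 𝒞 {x | Nat.count (· ∈ S x) k = c} := by
  induction k with
  | zero =>
    intro c
    rcases Nat.eq_zero_or_pos c with rfl | hc
    · have : {x | Nat.count (· ∈ S x) 0 = 0} = (∅ : Set X)ᶜ := by ext; simp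
      rw [this]
      exact h.compl _ h.empty
    · have : {x | Nat.count (· ∈ S x) 0 = c} = (∅ : Set X) := by
        ext; simp; omega
      rw [this]
      exact h.empty
  | succ k ih =>
    intro c
    cases c with
    | zero =>
      have : {x | Nat.count (· ∈ S x) (k + 1) = 0} =
          {x | Nat.count (· ∈ S x) k = 0} ∩ {x | k ∈ S x}ᶜ := by
        ext x
        simp only [Set.mem_setOf_eq, Nat.count_succ, Set.mem_inter_iff, Set.mem_compl_iff]
        split_ifs with hk
        · simp [hk]
        · simp [hk]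
      rw [this]
      exact h.inter _ _ (ih 0) (h.compl _ (hS k))
    | succ c =>
      have : {x | Nat.count (· ∈ S x) (k + 1) = c + 1} =
          ({x | Nat.count (· ∈ S x) k = c} ∩ {x | k ∈ S x}) ∪
            ({x | Nat.count (· ∈ S x) k = c + 1} ∩ {x | k ∈ S x}ᶜ) := by
        ext x
        simp only [Set.mem_setOf_eq, Nat.count_succ, Set.mem_inter_iff, Set.mem_compl_iff,
          Set.mem_union]
        split_ifs with hk
        · simp [hk]
        · simp [hk]
      rw [this]
      exact h.union (h.inter _ _ (ih c) (hS k)) (h.inter _ _ (ih (c + 1)) (h.compl _ (hS k)))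

open Classical in
/-- Infinite subsemigroups of a countable commutative semigroup, depending on a parameter, have
multiplication tables on the natural numbers depending continuously or measurably on the
parameter if membership does. -/
theorem exists_table {G : Type*} [Add G] [Countable G] {X : Type*}
    (A : X → AddSubsemigroup G) (hinf : ∀ x, (A x : Set G).Infinite) :
    ∃ tab : X → ℕ → ℕ → ℕ, (∀ x, ∃ e : ℕ ≃ A x, ∀ a b, e (tab x a b) = e a + e b) ∧
      (∀ [TopologicalSpace X], (∀ v, IsClopen {x | v ∈ A x}) → Continuous tab) ∧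
      (∀ [MeasurableSpace X], (∀ v, MeasurableSet {x | v ∈ A x}) → Measurable tab) := by
  obtain ⟨enc, henc⟩ := exists_injective_nat G
  let S : X → Set ℕ := fun x => enc '' (A x : Set G)
  have hSinf : ∀ x, (S x).Infinite := fun x => (hinf x).image henc.injOn
  let g : ∀ x, G → ℕ := fun x v => Nat.count (· ∈ S x) (enc v)
  have hbij : ∀ x, Function.Bijective fun v : A x => g x v := by
    intro x
    constructor
    · intro u v h
      apply Subtype.ext
      apply henc
      exact Nat.count_injective (p := (· ∈ S x)) (Set.mem_image_of_mem _ u.2)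
        (Set.mem_image_of_mem _ v.2) h
    · intro n
      have h1 := Nat.nth_mem_of_infinite (p := (· ∈ S x)) (hSinf x) n
      obtain ⟨v, hv, hvn⟩ := h1
      refine ⟨⟨v, hv⟩, ?_⟩
      change Nat.count (· ∈ S x) (enc v) = n
      rw [hvn]
      exact Nat.count_nth_of_infinite (hSinf x) n
  let e : ∀ x, A x ≃ ℕ := fun x => Equiv.ofBijective _ (hbij x)
  have he : ∀ x (v : A x), e x v = g x v := fun _ _ => rfl
  let tab : X → ℕ → ℕ → ℕ := fun x a b => g x ((e x).symm a + (e x).symm b : A x)
  have htab : ∀ x a b, tab x a b = e x ((e x).symm a + (e x).symm b) := fun _ _ _ => rfl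
  have hmem : ∀ a b c, {x | tab x a b = c} = ⋃ p : G × G, (({x | p.1 ∈ A x} ∩ {x | p.2 ∈ A x}) ∩
      ({x | g x p.1 = a} ∩ {x | g x p.2 = b})) ∩ {x | g x (p.1 + p.2) = c} := by
    intro a b c
    ext x
    simp only [Set.mem_setOf_eq, Set.mem_iUnion, Set.mem_inter_iff]
    constructor
    · intro h
      refine ⟨((e x).symm a, (e x).symm b), ⟨⟨((e x).symm a).2, ((e x).symm b).2⟩, ?_, ?_⟩, h⟩
      · rw [← he, Equiv.apply_symm_apply]
      · rw [← he, Equiv.apply_symm_apply]
    · rintro ⟨⟨u, v⟩, ⟨⟨hu, hv⟩, h1, h2⟩, h3⟩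
      have h4 : (e x).symm a = ⟨u, hu⟩ := by
        rw [Equiv.symm_apply_eq]
        exact h1.symm
      have h5 : (e x).symm b = ⟨v, hv⟩ := by
        rw [Equiv.symm_apply_eq]
        exact h2.symm
      change g x (((e x).symm a + (e x).symm b : A x) : G) = c
      rw [h4, h5]
      exact h3
  have halg : ∀ 𝒞 : Set X → Prop, Alg 𝒞 → (∀ v, 𝒞 {x | v ∈ A x}) → ∀ a b c, ∀ p : G × G,
      𝒞 ((({x | p.1 ∈ A x} ∩ {x | p.2 ∈ A x}) ∩ ({x | g x p.1 = a} ∩ {x | g x p.2 = b})) ∩
        {x | g x (p.1 + p.2) = c}) := by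
    intro 𝒞 h𝒞 hA a b c p
    have hS : ∀ k, 𝒞 {x | k ∈ S x} := by
      intro k
      by_cases hk : ∃ v, enc v = k
      · obtain ⟨v, rfl⟩ := hk
        have : {x | enc v ∈ S x} = {x | v ∈ A x} := by
          ext x
          simp only [Set.mem_setOf_eq, S]
          constructor
          · rintro ⟨w, hw, hwv⟩
            rw [← henc hwv]
            exact hw
          · intro h
            exact ⟨v, h, rfl⟩
        rw [this]
        exact hA v
      · have : {x | k ∈ S x} = ∅ := by
          ext x
          simp only [Set.mem_setOf_eq, S, Set.mem_empty_iff_false, iff_false]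
          rintro ⟨w, _, hw⟩
          exact hk ⟨w, hw⟩
        rw [this]
        exact h𝒞.empty
    have hg : ∀ v c, 𝒞 {x | g x v = c} := fun v c => h𝒞.count S hS (enc v) c
    exact h𝒞.inter _ _ (h𝒞.inter _ _ (h𝒞.inter _ _ (hA _) (hA _)) (h𝒞.inter _ _ (hg _ _) (hg _ _)))
      (hg _ _)
  refine ⟨tab, fun x => ⟨(e x).symm, fun a b => ?_⟩, ?_, ?_⟩
  · rw [htab, Equiv.symm_apply_apply]
  · intro _ hA
    refine continuous_pi fun a => continuous_pi fun b => ?_
    rw [continuous_discrete_rng]
    intro c
    change IsOpen {x | tab x a b = c}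
    rw [hmem]
    refine isOpen_iUnion fun p => IsClopen.isOpen ?_
    exact halg IsClopen ⟨isClopen_empty, fun _ h => h.compl, fun _ _ h1 h2 => h1.inter h2⟩ hA a b c p
  · intro _ hA
    refine measurable_pi_iff.2 fun a => measurable_pi_iff.2 fun b => ?_
    refine measurable_to_countable' fun c => ?_
    change MeasurableSet {x | tab x a b = c}
    rw [hmem]
    refine MeasurableSet.iUnion fun p => ?_
    exact halg MeasurableSet ⟨MeasurableSet.empty, fun _ h => h.compl, fun _ _ h1 h2 => h1.inter h2⟩
      hA a b c p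

end table

end

end Pool.Agent.H38.EndQ
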