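import Pool.Agent.H38.EndQ.Count

/-!
Number of isomorphism types of solutions of every cardinality.
-/

open Cardinal

namespace Pool.Agent.H38.EndQ

universe u

noncomputable section

/-- Transport of endomorphism semigroups along isomorphisms. -/
def endCongr {S T : Type u} [CommSemigroup S] [CommSemigroup T] (e : S ≃* T) :
    (S →ₙ* S) ≃* (T →ₙ* T) where
  toFun f := (e.toMulHom.comp f).comp e.symm.toMulHom
  invFun f := (e.symm.toMulHom.comp f).comp e.toMulHom
  left_inv f := by
    ext x
    change e.symm (e (f (e.symm (e x)))) = f x
    simp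
  right_inv f := by
    ext x
    change e (e.symm (f (e (e.symm x)))) = f x
    simp
  map_mul' f g := by
    ext x
    change e (f (e.symm x) * g (e.symm x)) = e (f (e.symm x)) * e (g (e.symm x))
    rw [map_mul]

theorem upper_bound (K : Type u) [Infinite K] : #(CommSemigroup K) ≤ 2 ^ #K := by
  have h1 : Function.Injective (fun m : CommSemigroup K => (m.toSemigroup.toMul.mul : K → K → K)) := by
    intro m n h
    exact CommSemigroup.ext h
  refine (mk_le_of_injective h1).trans ?_
  have h2 : #(K → K → K) = (#K ^ #K) ^ #K := by simp
  rw [h2, ← power_mul, mul_eq_self (aleph0_le_mk K), power_self_eq (aleph0_le_mk K)]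

/-- The number of isomorphism types of solutions on an infinite set, positive case. -/
theorem count_pos (K : Type u) [Infinite K] : #(Quotient (isoPos K)) = 2 ^ #K := by
  apply le_antisymm
  · refine (mk_quotient_le).trans ?_
    exact (mk_subtype_le _).trans (upper_bound K)
  · obtain ⟨lo, hwf⟩ := exists_wellFoundedLT K
    have hWK : #(WithTop K) = #K := by
      change #(Option K) = #K
      rw [mk_option, add_one_eq (aleph0_le_mk K)]
    have hinf : Infinite (WithTop K) := inferInstanceAs (Infinite (Option K))
    have hcard : ∀ A : Set (WithTop K), Nonempty (K ≃ Multiplicative (posCone A)) := by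
      intro A
      rw [← Cardinal.eq, card_posCone, hWK]
    let e : ∀ A : Set (WithTop K), K ≃ Multiplicative (posCone A) := fun A => (hcard A).some
    let F : Set (WithTop K) → SolPos K := fun A =>
      ⟨(e A).commSemigroup, by
        let _ : CommSemigroup K := (e A).commSemigroup
        let E : K ≃* Multiplicative (posCone A) := (e A).mulEquiv
        obtain ⟨g⟩ := posCone_sol A
        exact ⟨(endCongr E).trans g⟩⟩
    have hF : Function.Injective (fun A => Quotient.mk (isoPos K) (F A)) := by
      intro A B h
      have h1 : (isoPos K).r (F A) (F B) := Quotient.exact h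
      obtain ⟨f⟩ := h1
      have key : ∀ (A B : Set (WithTop K)),
          @MulEquiv K K (F A).1.toSemigroup.toMul (F B).1.toSemigroup.toMul → A ⊆ B := by
        intro A B f
        let EA : @MulEquiv K (Multiplicative (posCone A)) (F A).1.toSemigroup.toMul _ :=
          (e A).mulEquiv
        let EB : @MulEquiv K (Multiplicative (posCone B)) (F B).1.toSemigroup.toMul _ :=
          (e B).mulEquiv
        let g : Multiplicative (posCone A) ≃* Multiplicative (posCone B) :=
          @MulEquiv.trans _ _ _ _ (F B).1.toSemigroup.toMul _
            (@MulEquiv.trans _ _ _ _ (F A).1.toSemigroup.toMul (F B).1.toSemigroup.toMul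
              (@MulEquiv.symm _ _ (F A).1.toSemigroup.toMul _ EA) f) EB
        exact (hom_pos A B g.toMulHom).1
      exact Set.Subset.antisymm (key A B f)
        (key B A (@MulEquiv.symm K K (F A).1.toSemigroup.toMul (F B).1.toSemigroup.toMul f))
    have := mk_le_of_injective hF
    rwa [mk_set, hWK] at this

/-- The number of isomorphism types of solutions on an infinite set, nonnegative case. -/
theorem count_nonneg (K : Type u) [Infinite K] : #(Quotient (isoNonneg K)) = 2 ^ #K := by
  apply le_antisymm
  · refine (mk_quotient_le).trans ?_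
    exact (mk_subtype_le _).trans (upper_bound K)
  · obtain ⟨lo, hwf⟩ := exists_wellFoundedLT K
    have hWK : #(WithTop K) = #K := by
      change #(Option K) = #K
      rw [mk_option, add_one_eq (aleph0_le_mk K)]
    have hinf : Infinite (WithTop K) := inferInstanceAs (Infinite (Option K))
    have hcard : ∀ A : Set (WithTop K), Nonempty (K ≃ Multiplicative (ops A).Cn) := by
      intro A
      rw [← Cardinal.eq, card_cone, hWK]
    let e : ∀ A : Set (WithTop K), K ≃ Multiplicative (ops A).Cn := fun A => (hcard A).some
    let F : Set (WithTop K) → SolNonneg K := fun A =>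
      ⟨(e A).commSemigroup, by
        let _ : CommSemigroup K := (e A).commSemigroup
        let E : K ≃* Multiplicative (ops A).Cn := (e A).mulEquiv
        obtain ⟨g⟩ := cone_sol A
        exact ⟨(endCongr E).trans g⟩⟩
    have hF : Function.Injective (fun A => Quotient.mk (isoNonneg K) (F A)) := by
      intro A B h
      have h1 : (isoNonneg K).r (F A) (F B) := Quotient.exact h
      obtain ⟨f⟩ := h1
      have key : ∀ (A B : Set (WithTop K)),
          @MulEquiv K K (F A).1.toSemigroup.toMul (F B).1.toSemigroup.toMul → A ⊆ B := by
        intro A B f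
        let EA : @MulEquiv K (Multiplicative (ops A).Cn) (F A).1.toSemigroup.toMul _ :=
          (e A).mulEquiv
        let EB : @MulEquiv K (Multiplicative (ops B).Cn) (F B).1.toSemigroup.toMul _ :=
          (e B).mulEquiv
        let g : Multiplicative (ops A).Cn ≃* Multiplicative (ops B).Cn :=
          @MulEquiv.trans _ _ _ _ (F B).1.toSemigroup.toMul _
            (@MulEquiv.trans _ _ _ _ (F A).1.toSemigroup.toMul (F B).1.toSemigroup.toMul
              (@MulEquiv.symm _ _ (F A).1.toSemigroup.toMul _ EA) f) EB
        obtain ⟨q, hq, hAB, hg⟩ := hom_nonneg A B g.toMulHom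
        apply hAB
        rintro rfl
        -- the map would be constant
        have h1 : g (Multiplicative.ofAdd ((ops A).e (Sum.inl ⊤))) =
            g (Multiplicative.ofAdd 0) := by
          apply Multiplicative.toAdd.injective
          apply Subtype.ext
          have h2 := hg (Multiplicative.ofAdd ((ops A).e (Sum.inl ⊤)))
          have h3 := hg (Multiplicative.ofAdd 0)
          rw [zero_smul] at h2 h3
          exact h2.trans h3.symm
        have h4 := g.injective h1
        have h5 := congrArg (fun x : Multiplicative (ops A).Cn => (x.toAdd : Pt (WithTop K) →₀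
          Polynomial ℚ)) h4
        exact (posE A (Sum.inl ⊤)).2.2 h5
      exact Set.Subset.antisymm (key A B f)
        (key B A (@MulEquiv.symm K K (F A).1.toSemigroup.toMul (F B).1.toSemigroup.toMul f))
    have := mk_le_of_injective hF
    rwa [mk_set, hWK] at this

theorem finite_end (K : Type u) [Finite K] [CommSemigroup K] : Finite (K →ₙ* K) :=
  Finite.of_injective (fun f : K →ₙ* K => (f : K → K)) DFunLike.coe_injective

theorem finite_pos (K : Type u) [Finite K] : IsEmpty (SolPos K) := by
  refine ⟨fun m => ?_⟩
  obtain ⟨m, ⟨e⟩⟩ := m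
  have h1 : Finite (K →ₙ* K) := finite_end K
  have h2 : Finite (Multiplicative {q : ℚ // 0 < q}) := Finite.of_equiv _ e.toEquiv
  have h3 : Function.Injective (fun n : ℕ =>
      (Multiplicative.ofAdd (⟨(n : ℚ) + 1, by positivity⟩ : {q : ℚ // 0 < q}))) := by
    intro a b h
    have h4 := congrArg (fun x => ((Multiplicative.toAdd x : {q : ℚ // 0 < q}) : ℚ)) h
    change (a : ℚ) + 1 = b + 1 at h4
    exact_mod_cast add_right_cancel h4
  exact not_injective_infinite_finite _ h3

theorem finite_nonneg (K : Type u) [Finite K] : IsEmpty (SolNonneg K) := by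
  refine ⟨fun m => ?_⟩
  obtain ⟨m, ⟨e⟩⟩ := m
  have h1 : Finite (K →ₙ* K) := finite_end K
  have h2 : Finite (Multiplicative {q : ℚ // 0 ≤ q}) := Finite.of_equiv _ e.toEquiv
  have h3 : Function.Injective (fun n : ℕ =>
      (Multiplicative.ofAdd (⟨(n : ℚ) + 1, by positivity⟩ : {q : ℚ // 0 ≤ q}))) := by
    intro a b h
    have h4 := congrArg (fun x => ((Multiplicative.toAdd x : {q : ℚ // 0 ≤ q}) : ℚ)) h
    change (a : ℚ) + 1 = b + 1 at h4
    exact_mod_cast add_right_cancel h4
  exact not_injective_infinite_finite _ h3

end

end Pool.Agent.H38.EndQ
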