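import Pool.Agent.H38.EndQ.Solve
import Pool.Agent.H8.BCI.Tree

/-!
The system of operations attached to a tree: its cones are solutions exactly when the tree has no
infinite branch.
-/

open Polynomial Pool.Agent.H8.BCI

namespace Pool.Agent.H38.EndQ

noncomputable section

/-- Points: a base point, the vertices and edges of a ray, the sequences and the edges of the full
tree of sequences. -/
inductive Vx : Type
  | b : Vx
  | r : ℕ → Vx
  | e : ℕ → Vx
  | t : List ℕ → Vx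
  | s : List ℕ → Vx
  deriving Countable

instance : Nonempty Vx := ⟨Vx.b⟩

theorem exists_nm : ∃ f : ℕ → Vx, Function.Surjective f := exists_surjective_nat Vx

/-- An enumeration of the points. -/
def nm : ℕ → Vx := exists_nm.choose

theorem nm_surj : Function.Surjective nm := exists_nm.choose_spec

/-- The edges of the ray and the edges in the tree. -/
def Ed (T : Set (List ℕ)) : Set Vx :=
  {x | (∃ n, x = Vx.e n) ∨ ∃ n l, n :: l ∈ T ∧ x = Vx.s (n :: l)}

/-- The points which are not on the ray. -/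
def Fx : Vx → Prop
  | .b => True
  | .r _ => False
  | .e _ => False
  | .t _ => True
  | .s _ => True

/-- Start of an edge. -/
def ft : Vx → Vx
  | .e n => .r n
  | .s (_ :: l) => .t l
  | x => x

/-- End of an edge. -/
def sd : Vx → Vx
  | .e n => .r (n + 1)
  | .s l => .t l
  | x => x

/-- The vertices of level `k`. -/
def Lv (k : ℕ) : Set Vx := {x | x = Vx.r k ∨ ∃ l : List ℕ, l.length = k ∧ x = Vx.t l}

/-- Domains. -/
def tD (T : Set (List ℕ)) : ℕ → Set Vx
  | 0 => Set.univ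
  | 1 => Ed T
  | 2 => Ed T
  | i + 3 => if i % 2 = 0 then Lv (i / 2) else {x | Fx (nm (i / 2)) → x = nm (i / 2)}

/-- Operations. -/
def tF : ℕ → Vx → Vx
  | 0 => fun _ => Vx.b
  | 1 => ft
  | 2 => sd
  | _ + 3 => id

/-- The system of operations of a tree. -/
def tops (T : Set (List ℕ)) : Ops Vx := ⟨tD T, tF⟩

theorem lv_dom (T : Set (List ℕ)) (k : ℕ) : tD T (2 * k + 3) = Lv k := by
  change (if (2 * k) % 2 = 0 then Lv ((2 * k) / 2) else _) = _
  rw [if_pos (by omega)]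
  congr 1
  omega

theorem nm_dom (T : Set (List ℕ)) (k : ℕ) : tD T (2 * k + 4) = {x | Fx (nm k) → x = nm k} := by
  change (if (2 * k + 1) % 2 = 0 then Lv ((2 * k + 1) / 2) else
    {x | Fx (nm ((2 * k + 1) / 2)) → x = nm ((2 * k + 1) / 2)}) = _
  rw [if_neg (by omega)]
  have : (2 * k + 1) / 2 = k := by omega
  rw [this]

/-- No infinite branch: the system is rigid. -/
theorem tree_rigid {T : Set (List ℕ)} (hT : PC T) (hb : ¬ Br T) : (tops T).Rigid := by
  classical
  refine rigid_of_supp (tops T) 0 Vx.b (fun x => trivial) (fun x => rfl) ?_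
  intro Θ hne
  set σ : Vx → Finset Vx := fun x => (mat (tops T) (tops T) Θ x).support with hσ
  have hop : ∀ i x, x ∈ tD T i → (∀ y ∈ σ x, y ∈ tD T i) ∧ σ (tF i x) = (σ x).image (tF i) :=
    fun i x hx => mat_supp (tops T) (tops T) Θ i x hx
  have hfix : ∀ x, Fx x → ∀ y ∈ σ x, y = x := by
    intro x hx y hy
    obtain ⟨k, rfl⟩ := nm_surj x
    have h1 : nm k ∈ tD T (2 * k + 4) := by
      rw [nm_dom]
      exact fun _ => rfl
    have h2 := (hop _ _ h1).1 y hy
    rw [nm_dom] at h2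
    exact h2 hx
  have hr : ∀ n, ∀ y ∈ σ (Vx.r n), y = Vx.r n ∨ ∃ l : List ℕ, l.length = n ∧ y = Vx.t l := by
    intro n y hy
    have h1 : Vx.r n ∈ tD T (2 * n + 3) := by
      rw [lv_dom]
      exact Or.inl rfl
    have h2 := (hop _ _ h1).1 y hy
    rw [lv_dom] at h2
    exact h2
  have hE : ∀ n, Vx.e n ∈ Ed T := fun n => Or.inl ⟨n, rfl⟩
  have hup : ∀ n l, Vx.t l ∈ σ (Vx.r n) → ∃ m, m :: l ∈ T ∧ Vx.t (m :: l) ∈ σ (Vx.r (n + 1)) := by
    intro n l hl
    have h1 := hop 1 (Vx.e n) (hE n)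
    have h2 := hop 2 (Vx.e n) (hE n)
    have h3 : Vx.t l ∈ (σ (Vx.e n)).image ft := by
      rw [← show σ (Vx.r n) = (σ (Vx.e n)).image ft from h1.2]
      exact hl
    obtain ⟨y, hy, hyl⟩ := Finset.mem_image.1 h3
    rcases h1.1 y hy with ⟨k, rfl⟩ | ⟨m, l', hm, rfl⟩
    · exact absurd hyl (by simp [ft])
    · have : l' = l := by simpa [ft] using hyl
      subst this
      refine ⟨m, hm, ?_⟩
      rw [show σ (Vx.r (n + 1)) = (σ (Vx.e n)).image sd from h2.2]
      exact Finset.mem_image.2 ⟨_, hy, rfl⟩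
  have hno : ∀ l ∈ T, Vx.t l ∉ σ (Vx.r l.length) := by
    refine bar hT hb ?_
    intro l _ hl hcon
    obtain ⟨m, hm, hm2⟩ := hup _ _ hcon
    exact hl m hm hm2
  have hr2 : ∀ n, ∀ y ∈ σ (Vx.r n), y = Vx.r n := by
    intro n y hy
    rcases hr n y hy with h | ⟨l, hl, rfl⟩
    · exact h
    · exfalso
      obtain ⟨m, hm, _⟩ := hup _ _ hy
      apply hno l (hT m l hm)
      rw [hl]
      exact hy
  intro x y hy
  match x with
  | .b => exact hfix Vx.b trivial y hy
  | .t l => exact hfix (Vx.t l) trivial y hy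
  | .s l => exact hfix (Vx.s l) trivial y hy
  | .r n => exact hr2 n y hy
  | .e n =>
    have h1 := hop 1 (Vx.e n) (hE n)
    have h2 : ft y ∈ σ (Vx.r n) := by
      rw [show σ (Vx.r n) = (σ (Vx.e n)).image ft from h1.2]
      exact Finset.mem_image.2 ⟨_, hy, rfl⟩
    have h3 := hr2 n _ h2
    rcases h1.1 y hy with ⟨k, rfl⟩ | ⟨m, l', hm, rfl⟩
    · have : k = n := by simpa [ft] using h3
      rw [this]
    · exact absurd h3 (by simp [ft])

/-- The homomorphism given by an infinite branch. -/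
def brh (v : ℕ → ℕ) : Vx → Vx
  | .r n => .t (rs v n)
  | .e n => .s (rs v (n + 1))
  | x => x

theorem brh_fix (v : ℕ → ℕ) (x : Vx) (hx : Fx x) : brh v x = x := by
  cases x with
  | b => rfl
  | t l => rfl
  | s l => rfl
  | r n => exact hx.elim
  | e n => exact hx.elim

theorem brh_hom {T : Set (List ℕ)} (v : ℕ → ℕ) (hv : ∀ m, rs v m ∈ T) :
    ∀ i, ∀ x ∈ (tops T).D i, brh v x ∈ (tops T).D i ∧
      brh v ((tops T).f i x) = (tops T).f i (brh v x) := by
  have hEd : ∀ x ∈ Ed T, brh v x ∈ Ed T := by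
    rintro x (⟨n, rfl⟩ | ⟨n, l, hl, rfl⟩)
    · exact Or.inr ⟨v n, rs v n, hv (n + 1), rfl⟩
    · exact Or.inr ⟨n, l, hl, rfl⟩
  intro i x hx
  match i with
  | 0 => exact ⟨trivial, rfl⟩
  | 1 =>
    refine ⟨hEd x hx, ?_⟩
    rcases hx with ⟨n, rfl⟩ | ⟨n, l, hl, rfl⟩
    · rfl
    · rfl
  | 2 =>
    refine ⟨hEd x hx, ?_⟩
    rcases hx with ⟨n, rfl⟩ | ⟨n, l, hl, rfl⟩
    · rfl
    · rfl
  | j + 3 =>
    refine ⟨?_, rfl⟩
    rcases Nat.even_or_odd' j with ⟨k, rfl | rfl⟩
    · change x ∈ tD T (2 * k + 3) at hx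
      change brh v x ∈ tD T (2 * k + 3)
      rw [lv_dom] at hx ⊢
      rcases hx with rfl | ⟨l, hl, rfl⟩
      · exact Or.inr ⟨rs v k, rs_length v k, rfl⟩
      · exact Or.inr ⟨l, hl, rfl⟩
    · change x ∈ tD T (2 * k + 4) at hx
      change brh v x ∈ tD T (2 * k + 4)
      rw [nm_dom] at hx ⊢
      intro hF
      have := hx hF
      rw [this]
      exact brh_fix v _ hF

theorem tree_pos {T : Set (List ℕ)} (hT : PC T) :
    EndIsPosRat (Multiplicative (tops T).Ps) ↔ ¬ Br T := by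
  constructor
  · rintro h ⟨v, hv⟩
    exact (not_sol_of_hom (brh v) (brh_hom v hv) (x := Vx.r 0) (by simp [brh])).1 h
  · intro hb
    exact sol_pos (tree_rigid hT hb)

theorem tree_nonneg {T : Set (List ℕ)} (hT : PC T) :
    EndIsNonnegRat (Multiplicative (tops T).Cs) ↔ ¬ Br T := by
  constructor
  · rintro h ⟨v, hv⟩
    exact (not_sol_of_hom (brh v) (brh_hom v hv) (x := Vx.r 0) (by simp [brh])).2 h
  · intro hb
    exact sol_nonneg (tree_rigid hT hb)

/-! ### Membership depends on finitely many nodes -/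

/-- The nodes of the tree on which membership of `v` depends. -/
def nd (v : Vx →₀ ℚ[X]) : Set (List ℕ) :=
  {l | (v (Vx.s l)).coeff 7 ≠ 0 ∨ (v (Vx.s l)).coeff 11 ≠ 0}

theorem nd_finite (v : Vx →₀ ℚ[X]) : (nd v).Finite := by
  have h1 : (Vx.s ⁻¹' (v.support : Set Vx)).Finite :=
    v.support.finite_toSet.preimage fun a _ b _ h => by simpa using h
  refine h1.subset fun l hl => ?_
  rw [Set.mem_preimage, Finset.mem_coe, Finsupp.mem_support_iff]
  intro h
  rcases hl with h2 | h2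
  · rw [h] at h2
    simp at h2
  · rw [h] at h2
    simp at h2

theorem Ed_iff (T : Set (List ℕ)) (x : Vx) :
    x ∈ Ed T ↔ x ∈ Ed Set.univ ∧ ∀ l, x = Vx.s l → l ∈ T := by
  constructor
  · rintro (⟨n, rfl⟩ | ⟨n, l, hl, rfl⟩)
    · exact ⟨Or.inl ⟨n, rfl⟩, fun l h => by simp at h⟩
    · refine ⟨Or.inr ⟨n, l, trivial, rfl⟩, fun l' h => ?_⟩
      have : n :: l = l' := by simpa using h
      rw [← this]
      exact hl
  · rintro ⟨⟨n, rfl⟩ | ⟨n, l, hl, rfl⟩, h⟩
    · exact Or.inl ⟨n, rfl⟩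
    · exact Or.inr ⟨n, l, h _ rfl, rfl⟩

theorem mem_tops (T : Set (List ℕ)) (v : Vx →₀ ℚ[X]) :
    v ∈ (tops T).Cn ↔ v ∈ (tops Set.univ).Cn ∧ ∀ l ∈ nd v, l ∈ T := by
  have key : ∀ i, (∀ x, x ∉ tD T i → cf (4 * i + 3) v x = 0) ↔
      ((∀ x, x ∉ tD Set.univ i → cf (4 * i + 3) v x = 0) ∧
        ((i = 1 ∨ i = 2) → ∀ l, (v (Vx.s l)).coeff (4 * i + 3) ≠ 0 → l ∈ T)) := by
    intro i
    by_cases hi : i = 1 ∨ i = 2
    · have hT : tD T i = Ed T := by rcases hi with rfl | rfl <;> rfl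
      have hU : tD Set.univ i = Ed Set.univ := by rcases hi with rfl | rfl <;> rfl
      rw [hT, hU]
      constructor
      · intro h
        refine ⟨fun x hx => h x fun h2 => hx ((Ed_iff T x).1 h2).1, fun _ l hl => ?_⟩
        by_contra hcon
        apply hl
        exact h (Vx.s l) fun h2 => hcon (((Ed_iff T _).1 h2).2 l rfl)
      · rintro ⟨h1, h2⟩ x hx
        by_contra hcon
        apply hx
        rw [Ed_iff]
        refine ⟨?_, fun l hl => ?_⟩
        · by_contra h3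
          exact hcon (h1 x h3)
        · subst hl
          exact h2 hi l hcon
    · have hT : tD T i = tD Set.univ i := by
        match i with
        | 0 => rfl
        | 1 => exact absurd (Or.inl rfl) hi
        | 2 => exact absurd (Or.inr rfl) hi
        | j + 3 => rfl
      rw [hT]
      exact ⟨fun h => ⟨h, fun h2 => absurd h2 hi⟩, fun h => h.1⟩
  constructor
  · rintro ⟨⟨h1, h2⟩, h3⟩
    refine ⟨⟨⟨h1, fun i => ?_⟩, h3⟩, fun l hl => ?_⟩
    · exact ⟨(h2 i).1, (h2 i).2.1, ((key i).1 (h2 i).2.2.1).1, (h2 i).2.2.2⟩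
    · rcases hl with hl | hl
      · exact ((key 1).1 (h2 1).2.2.1).2 (Or.inl rfl) l hl
      · exact ((key 2).1 (h2 2).2.2.1).2 (Or.inr rfl) l hl
  · rintro ⟨⟨⟨h1, h2⟩, h3⟩, h4⟩
    refine ⟨⟨h1, fun i => ?_⟩, h3⟩
    refine ⟨(h2 i).1, (h2 i).2.1, (key i).2 ⟨(h2 i).2.2.1, ?_⟩, (h2 i).2.2.2⟩
    rintro (rfl | rfl) l hl
    · exact h4 l (Or.inl hl)
    · exact h4 l (Or.inr hl)

theorem clopen_Cn {X : Type*} [TopologicalSpace X] (T : X → Set (List ℕ))
    (hT : ∀ l, IsClopen {x | l ∈ T x}) (v : Vx →₀ ℚ[X]) :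
    IsClopen {x | v ∈ (tops (T x)).Cn} := by
  have h1 : {x | v ∈ (tops (T x)).Cn} =
      {_x : X | v ∈ (tops Set.univ).Cn} ∩ ⋂ l ∈ nd v, {x | l ∈ T x} := by
    ext x
    simp only [Set.mem_inter_iff, Set.mem_iInter]
    exact mem_tops (T x) v
  rw [h1]
  refine IsClopen.inter ?_ ⟨isClosed_biInter fun l _ => (hT l).1,
    (nd_finite v).isOpen_biInter fun l _ => (hT l).2⟩
  by_cases hv : v ∈ (tops Set.univ).Cn
  · have : {_x : X | v ∈ (tops Set.univ).Cn} = Set.univ := by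
      ext; exact ⟨fun _ => trivial, fun _ => hv⟩
    rw [this]
    exact isClopen_univ
  · have : {_x : X | v ∈ (tops Set.univ).Cn} = ∅ := by
      ext; exact ⟨fun h => hv h, fun h => h.elim⟩
    rw [this]
    exact isClopen_empty

end

end Pool.Agent.H38.EndQ
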