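import Pool.Agent.H38.EndQ.DefsT
import Pool.Agent.H38.EndQ.Trees
import Pool.Agent.H38.EndQ.Final

/-!
Every coanalytic set reduces continuously to the set of tables of solutions; complete coanalytic
sets are not Borel.
-/

open Polynomial Pool.Agent.H8.BCI MeasureTheory

namespace Pool.Agent.H38.EndQ

noncomputable section

theorem table_inj {m n : CommSemigroup ℕ} (h : table m = table n) : m = n := by
  apply CommSemigroup.ext
  exact h

theorem endIsPosRat_congr {S T : Type} [CommSemigroup S] [CommSemigroup T] (e : S ≃* T)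
    (h : EndIsPosRat S) : EndIsPosRat T := by
  obtain ⟨g⟩ := h
  exact ⟨(endCongr e).symm.trans g⟩

theorem endIsNonnegRat_congr {S T : Type} [CommSemigroup S] [CommSemigroup T] (e : S ≃* T)
    (h : EndIsNonnegRat S) : EndIsNonnegRat T := by
  obtain ⟨g⟩ := h
  exact ⟨(endCongr e).symm.trans g⟩

theorem mem_PosTables {G : Type} [AddCommSemigroup G] (A : AddSubsemigroup G) (e : ℕ ≃ A)
    (t : ℕ → ℕ → ℕ) (he : ∀ a b, e (t a b) = e a + e b) :
    t ∈ PosTables ↔ EndIsPosRat (Multiplicative A) := by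
  let e' : ℕ ≃ Multiplicative A := e.trans Multiplicative.ofAdd
  have ht : table e'.commSemigroup = t := by
    funext a b
    apply e.injective
    rw [he]
    change e (e.symm (e a + e b)) = e a + e b
    rw [Equiv.apply_symm_apply]
  let E : @MulEquiv ℕ (Multiplicative A) e'.commSemigroup.toSemigroup.toMul _ := e'.mulEquiv
  constructor
  · rintro ⟨⟨m, hm⟩, h⟩
    have h1 : m = e'.commSemigroup := table_inj (h.trans ht.symm)
    subst h1
    exact @endIsPosRat_congr ℕ (Multiplicative A) e'.commSemigroup _ E hm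
  · intro h
    exact ⟨⟨e'.commSemigroup, @endIsPosRat_congr (Multiplicative A) ℕ _ e'.commSemigroup
      (@MulEquiv.symm _ _ e'.commSemigroup.toSemigroup.toMul _ E) h⟩, ht⟩

theorem mem_NonnegTables {G : Type} [AddCommSemigroup G] (A : AddSubsemigroup G) (e : ℕ ≃ A)
    (t : ℕ → ℕ → ℕ) (he : ∀ a b, e (t a b) = e a + e b) :
    t ∈ NonnegTables ↔ EndIsNonnegRat (Multiplicative A) := by
  let e' : ℕ ≃ Multiplicative A := e.trans Multiplicative.ofAdd
  have ht : table e'.commSemigroup = t := by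
    funext a b
    apply e.injective
    rw [he]
    change e (e.symm (e a + e b)) = e a + e b
    rw [Equiv.apply_symm_apply]
  let E : @MulEquiv ℕ (Multiplicative A) e'.commSemigroup.toSemigroup.toMul _ := e'.mulEquiv
  constructor
  · rintro ⟨⟨m, hm⟩, h⟩
    have h1 : m = e'.commSemigroup := table_inj (h.trans ht.symm)
    subst h1
    exact @endIsNonnegRat_congr ℕ (Multiplicative A) e'.commSemigroup _ E hm
  · intro h
    exact ⟨⟨e'.commSemigroup, @endIsNonnegRat_congr (Multiplicative A) ℕ _ e'.commSemigroup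
      (@MulEquiv.symm _ _ e'.commSemigroup.toSemigroup.toMul _ E) h⟩, ht⟩

theorem isOpen_rs (k : ℕ) : ∀ S : Set (List ℕ), IsOpen {w : ℕ → ℕ | rs w k ∈ S} := by
  induction k with
  | zero =>
    intro S
    exact isOpen_const (p := [] ∈ S)
  | succ k ih =>
    intro S
    have : {w : ℕ → ℕ | rs w (k + 1) ∈ S} =
        ⋃ n, ((fun w : ℕ → ℕ => w k) ⁻¹' {n}) ∩ {w : ℕ → ℕ | rs w k ∈ {l | n :: l ∈ S}} := by
      ext w
      constructor
      · intro h
        exact Set.mem_iUnion.2 ⟨w k, rfl, h⟩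
      · intro h
        obtain ⟨n, h1, h2⟩ := Set.mem_iUnion.1 h
        have h1' : w k = n := h1
        have h2' : n :: rs w k ∈ S := h2
        change w k :: rs w k ∈ S
        rw [h1']
        exact h2'
    rw [this]
    exact isOpen_iUnion fun n => ((isOpen_discrete {n}).preimage (continuous_apply k)).inter (ih _)

theorem isClopen_rs (k : ℕ) (S : Set (List ℕ)) : IsClopen {w : ℕ → ℕ | rs w k ∈ S} := by
  refine ⟨?_, isOpen_rs k S⟩
  rw [← isOpen_compl_iff]
  exact isOpen_rs k Sᶜ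

theorem isClopen_Tr (a : K) (l : List ℕ) : IsClopen {w : ℕ → ℕ | l ∈ Tr a w} := by
  induction l with
  | nil =>
    have : {w : ℕ → ℕ | [] ∈ Tr a w} = Set.univ := by
      ext w
      exact ⟨fun _ => trivial, fun _ => nil_mem_Tr a w⟩
    rw [this]
    exact isClopen_univ
  | cons n t ih =>
    have : {w : ℕ → ℕ | n :: t ∈ Tr a w} = {w : ℕ → ℕ | t ∈ Tr a w} ∩
        {w : ℕ → ℕ | rs w (t.length + 1) ∈ {s | a (s, n :: t) = true}} := by
      ext w
      exact mem_Tr_cons a w n t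
    rw [this]
    exact ih.inter (isClopen_rs _ _)

theorem clopen_Ps (a : K) (v : Vx →₀ ℚ[X]) : IsClopen {x : ℕ → ℕ | v ∈ (tops (Tr a x)).Ps} := by
  have h1 := clopen_Cn (fun x : ℕ → ℕ => Tr a x) (isClopen_Tr a) v
  by_cases hv : v = 0
  · have : {x : ℕ → ℕ | v ∈ (tops (Tr a x)).Ps} = ∅ := by
      ext x
      exact ⟨fun h => h.2 hv, fun h => h.elim⟩
    rw [this]
    exact isClopen_empty
  · have : {x : ℕ → ℕ | v ∈ (tops (Tr a x)).Ps} = {x : ℕ → ℕ | v ∈ (tops (Tr a x)).Cn} := by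
      ext x
      exact ⟨fun h => h.1, fun h => ⟨h, hv⟩⟩
    rw [this]
    exact h1

theorem countable_amb : Countable (Vx →₀ ℚ[X]) := by
  have : Countable ℚ[X] := by
    rw [← Cardinal.mk_le_aleph0_iff]
    exact (Polynomial.cardinalMk_le_max).trans (max_le Cardinal.mk_le_aleph0 le_rfl)
  infer_instance

theorem reduce_pos (B : Set (ℕ → ℕ)) (hB : AnalyticSet Bᶜ) :
    ∃ f : (ℕ → ℕ) → (ℕ → ℕ → ℕ), Continuous f ∧ f ⁻¹' PosTables = B := by
  have := countable_amb
  obtain ⟨a, ha⟩ := exists_code hB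
  obtain ⟨tab, h1, h2, -⟩ := exists_table (fun x : ℕ → ℕ => (tops (Tr a x)).Ps)
    (fun x => Ps_infinite _)
  refine ⟨tab, h2 (clopen_Ps a), ?_⟩
  ext x
  obtain ⟨e, he⟩ := h1 x
  rw [Set.mem_preimage, mem_PosTables _ e _ he, tree_pos (pc_Tr a x), ← ha, Set.mem_compl_iff,
    not_not]

theorem reduce_nonneg (B : Set (ℕ → ℕ)) (hB : AnalyticSet Bᶜ) :
    ∃ f : (ℕ → ℕ) → (ℕ → ℕ → ℕ), Continuous f ∧ f ⁻¹' NonnegTables = B := by
  have := countable_amb
  obtain ⟨a, ha⟩ := exists_code hB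
  obtain ⟨tab, h1, h2, -⟩ := exists_table (fun x : ℕ → ℕ => (tops (Tr a x)).Cs)
    (fun x => Cs_infinite _)
  refine ⟨tab, h2 (clopen_Cn (fun x : ℕ → ℕ => Tr a x) (isClopen_Tr a)), ?_⟩
  ext x
  obtain ⟨e, he⟩ := h1 x
  rw [Set.mem_preimage, mem_NonnegTables _ e _ he, tree_nonneg (pc_Tr a x), ← ha,
    Set.mem_compl_iff, not_not]

/-! ### Complete coanalytic sets are not Borel -/

/-- The code given by a sequence. -/
def kap (x : ℕ → ℕ) : K := fun p => decide (x (Encodable.encode p) = 0)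

theorem kap_surj (a : K) : ∃ x : ℕ → ℕ, kap x = a := by
  classical
  refine ⟨fun n => match (Encodable.decode n : Option (List ℕ × List ℕ)) with
    | some p => if a p = true then 0 else 1
    | none => 0, ?_⟩
  funext p
  simp only [kap, Encodable.encodek]
  by_cases h : a p = true
  · simp [h]
  · simp [h]

/-- The diagonal set. -/
def diag : Set (ℕ → ℕ) := {x | ¬ Br (Tr (kap x) x)}

theorem analytic_diag : AnalyticSet (diagᶜ : Set (ℕ → ℕ)) := by
  have h1 : (diagᶜ : Set (ℕ → ℕ)) = Prod.fst '' {p : (ℕ → ℕ) × (ℕ → ℕ) |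
      ∀ m, kap p.1 (rs p.1 (m + 1), rs p.2 (m + 1)) = true} := by
    ext x
    constructor
    · intro h
      have h2 : Br (Tr (kap x) x) := not_not.1 h
      rw [br_Tr] at h2
      obtain ⟨v, hv⟩ := h2
      exact ⟨(x, v), hv, rfl⟩
    · rintro ⟨⟨x', v⟩, hv, rfl⟩ h
      exact h ((br_Tr _ _).2 ⟨v, hv⟩)
  rw [h1]
  have hrs : ∀ k (l : List ℕ), MeasurableSet {w : ℕ → ℕ | rs w k = l} := fun k l =>
    (isOpen_rs k {l}).measurableSet
  have h2 : MeasurableSet {p : (ℕ → ℕ) × (ℕ → ℕ) |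
      ∀ m, kap p.1 (rs p.1 (m + 1), rs p.2 (m + 1)) = true} := by
    have h3 : {p : (ℕ → ℕ) × (ℕ → ℕ) | ∀ m, kap p.1 (rs p.1 (m + 1), rs p.2 (m + 1)) = true} =
        ⋂ m : ℕ, ⋃ q : List ℕ × List ℕ, ((Prod.fst ⁻¹' {x : ℕ → ℕ | kap x q = true}) ∩
          ((Prod.fst ⁻¹' {w : ℕ → ℕ | rs w (m + 1) = q.1}) ∩
            (Prod.snd ⁻¹' {w : ℕ → ℕ | rs w (m + 1) = q.2}))) := by
      ext ⟨x, v⟩
      rw [Set.mem_iInter]
      constructor
      · intro h m
        exact Set.mem_iUnion.2 ⟨(rs x (m + 1), rs v (m + 1)), h m, rfl, rfl⟩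
      · intro h m
        obtain ⟨⟨l1, l2⟩, h4, h5, h6⟩ := Set.mem_iUnion.1 (h m)
        have h5' : rs x (m + 1) = l1 := h5
        have h6' : rs v (m + 1) = l2 := h6
        change kap x (rs x (m + 1), rs v (m + 1)) = true
        rw [h5', h6']
        exact h4
    rw [h3]
    refine MeasurableSet.iInter fun m => MeasurableSet.iUnion fun q => ?_
    refine MeasurableSet.inter ?_ (MeasurableSet.inter ?_ ?_)
    · refine measurable_fst ?_
      have : {x : ℕ → ℕ | kap x q = true} = (fun x : ℕ → ℕ => x (Encodable.encode q)) ⁻¹' {0} := by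
        ext x
        simp [kap]
      rw [this]
      exact measurable_pi_apply _ (measurableSet_singleton _)
    · exact measurable_fst (hrs _ _)
    · exact measurable_snd (hrs _ _)
  exact h2.analyticSet_image measurable_fst

theorem diag_not_measurable : ¬ MeasurableSet diag := by
  intro h
  obtain ⟨a, ha⟩ := exists_code h.analyticSet
  obtain ⟨x, rfl⟩ := kap_surj a
  have h1 := ha x
  change (¬ Br (Tr (kap x) x)) ↔ _ at h1
  tauto

theorem CoanalyticComplete.not_measurable {A : Set (ℕ → ℕ → ℕ)} (h : CoanalyticComplete A) :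
    ¬ MeasurableSet A := by
  intro hA
  obtain ⟨f, hf, hfA⟩ := h.2 diag analytic_diag
  apply diag_not_measurable
  rw [← hfA]
  exact hf.measurable hA

end

end Pool.Agent.H38.EndQ
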