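import Mathlib

/-!
Rigid cones over the rationals coding countably many unary operations defined on subsets.
-/

open Polynomial

namespace Pool.Agent.H38.EndQ

universe u

noncomputable section

/-- A fixed transcendental real number. -/
def theta : ℝ := liouvilleNumber (3 : ℕ)

theorem theta_transc : Transcendental ℚ theta := by
  have := transcendental_liouvilleNumber (m := 3) (by norm_num)
  exact fun h => this ((IsFractionRing.isAlgebraic_iff ℤ ℚ ℝ).2 h)

theorem theta_nonneg : 0 ≤ theta := by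
  unfold theta liouvilleNumber
  exact tsum_nonneg fun i => by positivity

/-- Evaluation of rational polynomials at `theta`. -/
def ev : ℚ[X] →ₐ[ℚ] ℝ := Polynomial.aeval theta

theorem ev_inj : Function.Injective ev := transcendental_iff_injective.1 theta_transc

@[simp] theorem ev_X : ev X = theta := by simp [ev]

@[simp] theorem ev_C (q : ℚ) : ev (C q) = (q : ℝ) := by simp [ev]

/-- Countably many unary operations on subsets of `P`: the `i`-th has domain `D i` and values `f i`. -/
structure Ops (P : Type u) where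
  D : ℕ → Set P
  f : ℕ → P → P

variable {P : Type u} {P' : Type u}

/-- The function of `k`-th coefficients. -/
def cf (k : ℕ) : (P →₀ ℚ[X]) →ₗ[ℚ] (P →₀ ℚ) :=
  Finsupp.mapRange.linearMap (Polynomial.lcoeff ℚ k)

@[simp] theorem cf_apply (k : ℕ) (v : P →₀ ℚ[X]) (x : P) : cf k v x = (v x).coeff k := rfl

theorem cf_single (k : ℕ) (x : P) (p : ℚ[X]) :
    cf k (Finsupp.single x p) = Finsupp.single x (p.coeff k) := by
  simp [cf]

/-- The rational subspace of `P →₀ ℚ[X]` coding the operations. -/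
def Ops.V (O : Ops P) : Submodule ℚ (P →₀ ℚ[X]) where
  carrier := {v | cf 2 v = 0 ∧ ∀ i, cf (4 * i + 4) v = 0 ∧ cf (4 * i + 6) v = 0 ∧
    (∀ x, x ∉ O.D i → cf (4 * i + 3) v x = 0) ∧
    cf (4 * i + 5) v = Finsupp.mapDomain (O.f i) (cf (4 * i + 3) v)}
  zero_mem' := by
    refine ⟨by simp, fun i => ⟨by simp, by simp, by simp, ?_⟩⟩
    rw [map_zero, map_zero, Finsupp.mapDomain_zero]
  add_mem' := by
    rintro v w ⟨h1, h2⟩ ⟨h3, h4⟩
    refine ⟨by rw [map_add, h1, h3, add_zero], fun i => ?_⟩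
    obtain ⟨a1, a2, a3, a4⟩ := h2 i
    obtain ⟨b1, b2, b3, b4⟩ := h4 i
    refine ⟨by rw [map_add, a1, b1, add_zero], by rw [map_add, a2, b2, add_zero], ?_, ?_⟩
    · intro x hx
      rw [map_add, Finsupp.add_apply, a3 x hx, b3 x hx, add_zero]
    · rw [map_add, map_add, a4, b4, Finsupp.mapDomain_add]
  smul_mem' := by
    rintro q v ⟨h1, h2⟩
    refine ⟨by rw [map_smul, h1, smul_zero], fun i => ?_⟩
    obtain ⟨a1, a2, a3, a4⟩ := h2 i
    refine ⟨by rw [map_smul, a1, smul_zero], by rw [map_smul, a2, smul_zero], ?_, ?_⟩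
    · intro x hx
      rw [map_smul, Finsupp.smul_apply, a3 x hx, smul_zero]
    · rw [map_smul, map_smul, a4, Finsupp.mapDomain_smul]

/-- The cone of vectors with nonnegative real coordinates. -/
def Ops.Cn (O : Ops P) : AddSubmonoid (P →₀ ℚ[X]) where
  carrier := {v | v ∈ O.V ∧ ∀ x, 0 ≤ ev (v x)}
  zero_mem' := ⟨O.V.zero_mem, fun x => by simp⟩
  add_mem' := by
    rintro v w ⟨h1, h2⟩ ⟨h3, h4⟩
    refine ⟨O.V.add_mem h1 h3, fun x => ?_⟩
    rw [Finsupp.add_apply, map_add]
    exact add_nonneg (h2 x) (h4 x)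

theorem single_mem_V (O : Ops P) (x : P) (q : ℚ) : Finsupp.single x (C q) ∈ O.V := by
  refine ⟨by rw [cf_single, coeff_C]; simp, fun i => ?_⟩
  refine ⟨?_, ?_, ?_, ?_⟩
  · rw [cf_single, coeff_C]; simp
  · rw [cf_single, coeff_C]; simp
  · intro y _
    rw [cf_single, coeff_C]; simp
  · rw [cf_single, cf_single, coeff_C, coeff_C]; simp

/-- The unit vector at `x`. -/
def Ops.e (O : Ops P) (x : P) : O.Cn :=
  ⟨Finsupp.single x (C 1), single_mem_V O x 1, fun y => by
    classical
    rw [Finsupp.single_apply]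
    split_ifs
    · simp
    · simp⟩

theorem coe_e (O : Ops P) (x : P) : ((O.e x : O.Cn) : P →₀ ℚ[X]) = Finsupp.single x (C 1) := rfl

/-- The vector `theta` times the unit vector. -/
def Ops.g (O : Ops P) (x : P) : O.Cn :=
  ⟨Finsupp.single x X, by
    refine ⟨by rw [cf_single, coeff_X]; simp, fun i => ?_⟩
    refine ⟨?_, ?_, ?_, ?_⟩
    · rw [cf_single, coeff_X, if_neg (by omega)]; simp
    · rw [cf_single, coeff_X, if_neg (by omega)]; simp
    · intro y _
      rw [cf_single, coeff_X, if_neg (by omega)]; simp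
    · rw [cf_single, cf_single, coeff_X, coeff_X, if_neg (by omega), if_neg (by omega)]; simp,
    fun y => by
    classical
    rw [Finsupp.single_apply]
    split_ifs
    · simpa using theta_nonneg
    · simp⟩

theorem coe_g (O : Ops P) (x : P) : ((O.g x : O.Cn) : P →₀ ℚ[X]) = Finsupp.single x X := rfl

/-- The vector coding the `i`-th operation at `x ∈ D i`. -/
def Ops.l (O : Ops P) (i : ℕ) (x : P) (hx : x ∈ O.D i) : O.Cn :=
  ⟨Finsupp.single x (X ^ (4 * i + 3)) + Finsupp.single (O.f i x) (X ^ (4 * i + 5)), by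
    refine ⟨?_, fun j => ⟨?_, ?_, ?_, ?_⟩⟩
    · rw [map_add, cf_single, cf_single, coeff_X_pow, coeff_X_pow, if_neg (by omega),
        if_neg (by omega)]
      simp
    · rw [map_add, cf_single, cf_single, coeff_X_pow, coeff_X_pow, if_neg (by omega),
        if_neg (by omega)]
      simp
    · rw [map_add, cf_single, cf_single, coeff_X_pow, coeff_X_pow, if_neg (by omega),
        if_neg (by omega)]
      simp
    · intro y hy
      rw [map_add, cf_single, cf_single, coeff_X_pow, coeff_X_pow]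
      rw [if_neg (show ¬ (4 * j + 3 = 4 * i + 5) by omega)]
      by_cases hij : j = i
      · subst hij
        have : x ≠ y := by rintro rfl; exact hy hx
        rw [if_pos rfl]
        simp [this]
      · rw [if_neg (by omega)]
        simp
    · rw [map_add, cf_single, cf_single, map_add, cf_single, cf_single, coeff_X_pow, coeff_X_pow,
        coeff_X_pow, coeff_X_pow]
      rw [if_neg (show ¬ (4 * j + 5 = 4 * i + 3) by omega),
        if_neg (show ¬ (4 * j + 3 = 4 * i + 5) by omega)]
      by_cases hij : j = i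
      · subst hij
        rw [if_pos rfl, if_pos rfl]
        simp [Finsupp.mapDomain_single]
      · rw [if_neg (by omega), if_neg (by omega)]
        simp,
    fun y => by
    rw [Finsupp.add_apply, map_add]
    refine add_nonneg ?_ ?_
    · classical
      rw [Finsupp.single_apply]
      split_ifs
      · rw [map_pow, ev_X]; exact pow_nonneg theta_nonneg _
      · simp
    · classical
      rw [Finsupp.single_apply]
      split_ifs
      · rw [map_pow, ev_X]; exact pow_nonneg theta_nonneg _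
      · simp⟩

theorem coe_l (O : Ops P) (i : ℕ) (x : P) (hx : x ∈ O.D i) :
    ((O.l i x hx : O.Cn) : P →₀ ℚ[X]) =
      Finsupp.single x (X ^ (4 * i + 3)) + Finsupp.single (O.f i x) (X ^ (4 * i + 5)) := rfl

/-- A nonnegative additive functional on the cone is given by its values on unit vectors. -/
theorem functional_formula (O : Ops P) (F : O.Cn →+ ℝ) (hF : ∀ v, 0 ≤ F v) (v : O.Cn) :
    F v = (v : P →₀ ℚ[X]).sum (fun x p => ev p * F (O.e x)) := by
  classical
  set s := (v : P →₀ ℚ[X]).support with hs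
  have hv := v.2
  -- integer approximations
  let a : ℕ → P → ℕ := fun n x => ⌊(n : ℝ) * ev ((v : P →₀ ℚ[X]) x)⌋₊
  let U : ℕ → O.Cn := fun n => ∑ x ∈ s, a n x • O.e x
  have hUcoe : ∀ n x, ((U n : O.Cn) : P →₀ ℚ[X]) x = if x ∈ s then C (a n x : ℚ) else 0 := by
    intro n x
    have h1 : ((U n : O.Cn) : P →₀ ℚ[X]) = ∑ y ∈ s, a n y • Finsupp.single y (C (1:ℚ)) := by
      simp only [U]
      rw [AddSubmonoid.coe_finsetSum]
      rfl
    rw [h1, Finsupp.finsetSum_apply]
    have h2 : ∀ y ∈ s, (a n y • Finsupp.single y (C (1:ℚ)) : P →₀ ℚ[X]) x =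
        if y = x then C (a n x : ℚ) else 0 := by
      intro y _
      rw [Finsupp.smul_apply, Finsupp.single_apply]
      split_ifs with h
      · subst h
        simp
      · simp
    rw [Finset.sum_congr rfl h2, Finset.sum_ite_eq' s x]
  have hsum1 : ∀ n, F (U n) = ∑ x ∈ s, (a n x : ℝ) * F (O.e x) := by
    intro n
    simp only [U, map_sum, map_nsmul, nsmul_eq_mul]
  let E : O.Cn := ∑ x ∈ s, O.e x
  have hE : F E = ∑ x ∈ s, F (O.e x) := by simp only [E, map_sum]
  have hEcoe : ∀ x, ((E : O.Cn) : P →₀ ℚ[X]) x = if x ∈ s then 1 else 0 := by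
    intro x
    have h1 : ((E : O.Cn) : P →₀ ℚ[X]) = ∑ y ∈ s, Finsupp.single y (C (1:ℚ)) := by
      simp only [E]
      rw [AddSubmonoid.coe_finsetSum]
      rfl
    rw [h1, Finsupp.finsetSum_apply]
    have h2 : ∀ y ∈ s, (Finsupp.single y (C (1:ℚ)) : P →₀ ℚ[X]) x =
        if y = x then 1 else 0 := by
      intro y _
      rw [Finsupp.single_apply]
      split_ifs with h
      · simp
      · simp
    rw [Finset.sum_congr rfl h2, Finset.sum_ite_eq' s x]
  have hlow : ∀ n : ℕ, F (U n) ≤ n * F v := by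
    intro n
    have hmem : ((n • v : O.Cn) : P →₀ ℚ[X]) - ((U n : O.Cn) : P →₀ ℚ[X]) ∈ O.Cn := by
      refine ⟨O.V.sub_mem (n • v).2.1 (U n).2.1, fun x => ?_⟩
      rw [Finsupp.sub_apply, hUcoe, map_sub]
      have h3 : ((n • v : O.Cn) : P →₀ ℚ[X]) x = n • ((v : P →₀ ℚ[X]) x) := by
        rw [AddSubmonoidClass.coe_nsmul, Finsupp.smul_apply]
      rw [h3, map_nsmul, nsmul_eq_mul]
      split_ifs with hx
      · rw [ev_C]
        have := Nat.floor_le (mul_nonneg (Nat.cast_nonneg n) (hv.2 x))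
        simp only [a]
        push_cast
        linarith
      · have hx0 : (v : P →₀ ℚ[X]) x = 0 := by
          rw [hs] at hx
          simpa using hx
        rw [hx0]
        simp
    obtain ⟨r, h4⟩ : ∃ r : O.Cn, n • v = U n + r := by
      refine ⟨⟨_, hmem⟩, ?_⟩
      apply Subtype.ext
      rw [AddSubmonoid.coe_add]
      exact (add_sub_cancel _ _).symm
    have h5 : (n : ℝ) * F v = F (U n) + F r := by
      rw [← map_add, ← h4, map_nsmul, nsmul_eq_mul]
    rw [h5]
    linarith [hF r]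
  have hupp : ∀ n : ℕ, n * F v ≤ F (U n) + F E := by
    intro n
    have hmem : ((U n + E : O.Cn) : P →₀ ℚ[X]) - ((n • v : O.Cn) : P →₀ ℚ[X]) ∈ O.Cn := by
      refine ⟨O.V.sub_mem (U n + E).2.1 (n • v).2.1, fun x => ?_⟩
      rw [Finsupp.sub_apply, AddSubmonoid.coe_add, Finsupp.add_apply, hUcoe, hEcoe, map_sub]
      have h3 : ((n • v : O.Cn) : P →₀ ℚ[X]) x = n • ((v : P →₀ ℚ[X]) x) := by
        rw [AddSubmonoidClass.coe_nsmul, Finsupp.smul_apply]
      rw [h3, map_nsmul, nsmul_eq_mul]
      split_ifs with hx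
      · rw [map_add, ev_C, map_one]
        have := Nat.lt_floor_add_one ((n : ℝ) * ev ((v : P →₀ ℚ[X]) x))
        simp only [a]
        push_cast
        linarith
      · have hx0 : (v : P →₀ ℚ[X]) x = 0 := by
          rw [hs] at hx
          simpa using hx
        rw [hx0]
        simp
    obtain ⟨r, h4⟩ : ∃ r : O.Cn, U n + E = n • v + r := by
      refine ⟨⟨_, hmem⟩, ?_⟩
      apply Subtype.ext
      rw [AddSubmonoid.coe_add _ (n • v) _]
      exact (add_sub_cancel _ _).symm
    have h5 : F (U n) + F E = (n : ℝ) * F v + F r := by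
      rw [← map_add, h4, map_add, map_nsmul, nsmul_eq_mul]
    rw [h5]
    linarith [hF r]
  set R : ℝ := (v : P →₀ ℚ[X]).sum (fun x p => ev p * F (O.e x)) with hR
  have hR' : R = ∑ x ∈ s, ev ((v : P →₀ ℚ[X]) x) * F (O.e x) := rfl
  have hlow2 : ∀ n : ℕ, n * R - F E ≤ F (U n) := by
    intro n
    rw [hsum1, hE, hR', Finset.mul_sum, ← Finset.sum_sub_distrib]
    refine Finset.sum_le_sum fun x _ => ?_
    have h1 := Nat.lt_floor_add_one ((n : ℝ) * ev ((v : P →₀ ℚ[X]) x))
    have h2 := hF (O.e x)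
    simp only [a]
    nlinarith
  have hupp2 : ∀ n : ℕ, F (U n) ≤ n * R := by
    intro n
    rw [hsum1, hR', Finset.mul_sum]
    refine Finset.sum_le_sum fun x _ => ?_
    have h1 := Nat.floor_le (mul_nonneg (Nat.cast_nonneg n) (hv.2 x))
    have h2 := hF (O.e x)
    simp only [a]
    rw [← mul_assoc]
    exact mul_le_mul_of_nonneg_right h1 h2
  by_contra hne
  rcases lt_or_gt_of_ne hne with h | h
  · obtain ⟨n, hn⟩ := exists_nat_gt ((F E) / (R - F v))
    have hpos : 0 < R - F v := by linarith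
    rw [div_lt_iff₀ hpos] at hn
    have := hlow n
    have := hlow2 n
    nlinarith
  · obtain ⟨n, hn⟩ := exists_nat_gt ((F E) / (F v - R))
    have hpos : 0 < F v - R := by linarith
    rw [div_lt_iff₀ hpos] at hn
    have := hupp n
    have := hupp2 n
    nlinarith

/-- The coordinate functional of an additive map between cones. -/
def coordF (O : Ops P) (O' : Ops P') (T : O.Cn →+ O'.Cn) (y : P') : O.Cn →+ ℝ where
  toFun v := ev (((T v : O'.Cn) : P' →₀ ℚ[X]) y)
  map_zero' := by simp
  map_add' v w := by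
    rw [map_add, AddSubmonoid.coe_add, Finsupp.add_apply, map_add]

theorem coord_formula (O : Ops P) (O' : Ops P') (T : O.Cn →+ O'.Cn) (v : O.Cn) (y : P') :
    ev (((T v : O'.Cn) : P' →₀ ℚ[X]) y) =
      (v : P →₀ ℚ[X]).sum (fun x p => ev p * ev (((T (O.e x) : O'.Cn) : P' →₀ ℚ[X]) y)) :=
  functional_formula O (coordF O O' T y) (fun v => (T v).2.2 y) v

/-- The matrix of an additive map between cones: it has rational entries. -/
def mat (O : Ops P) (O' : Ops P') (T : O.Cn →+ O'.Cn) (x : P) : P' →₀ ℚ :=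
  cf 0 ((T (O.e x) : O'.Cn) : P' →₀ ℚ[X])

theorem T_e (O : Ops P) (O' : Ops P') (T : O.Cn →+ O'.Cn) (x : P) (y : P') :
    ((T (O.e x) : O'.Cn) : P' →₀ ℚ[X]) y = C (mat O O' T x y) := by
  have hg : ∀ z, ((T (O.g x) : O'.Cn) : P' →₀ ℚ[X]) z =
      X * ((T (O.e x) : O'.Cn) : P' →₀ ℚ[X]) z := by
    intro z
    apply ev_inj
    rw [coord_formula, coe_g, Finsupp.sum_single_index (by simp), map_mul]
  have hV := (T (O.g x)).2.1
  have hV0 := (T (O.e x)).2.1
  set p := ((T (O.e x) : O'.Cn) : P' →₀ ℚ[X]) y with hp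
  have hcoef : ∀ k, 1 ≤ k → p.coeff k = 0 := by
    intro k hk
    have hX : ∀ j, (((T (O.g x) : O'.Cn) : P' →₀ ℚ[X]) y).coeff (j + 1) = p.coeff j := by
      intro j
      rw [hg y, coeff_X_mul]
    rcases Nat.lt_or_ge k 3 with h3 | h3
    · interval_cases k
      · rw [← hX 1]
        have := DFunLike.congr_fun hV.1 y
        simpa using this
      · have := DFunLike.congr_fun hV0.1 y
        simpa using this
    · obtain ⟨i, hi | hi | hi | hi⟩ : ∃ i, k = 4 * i + 3 ∨ k = 4 * i + 4 ∨ k = 4 * i + 5 ∨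
          k = 4 * i + 6 := ⟨(k - 3) / 4, by omega⟩
      · rw [hi, ← hX]
        have := DFunLike.congr_fun (hV.2 i).1 y
        simpa using this
      · rw [hi]
        have := DFunLike.congr_fun (hV0.2 i).1 y
        simpa using this
      · rw [hi, ← hX]
        have := DFunLike.congr_fun (hV.2 i).2.1 y
        simpa using this
      · rw [hi]
        have := DFunLike.congr_fun (hV0.2 i).2.1 y
        simpa using this
  have : mat O O' T x y = p.coeff 0 := rfl
  rw [this]
  ext k
  rw [coeff_C]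
  split_ifs with h
  · rw [h]
  · exact hcoef k (Nat.one_le_iff_ne_zero.2 h)

theorem mat_nonneg (O : Ops P) (O' : Ops P') (T : O.Cn →+ O'.Cn) (x : P) (y : P') :
    0 ≤ mat O O' T x y := by
  have h := (T (O.e x)).2.2 y
  rw [T_e, ev_C] at h
  exact_mod_cast h

theorem T_formula (O : Ops P) (O' : Ops P') (T : O.Cn →+ O'.Cn) (v : O.Cn) (y : P') :
    ev (((T v : O'.Cn) : P' →₀ ℚ[X]) y) =
      (v : P →₀ ℚ[X]).sum (fun x p => ev p * (mat O O' T x y : ℝ)) := by
  rw [coord_formula]
  refine Finsupp.sum_congr fun x _ => ?_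
  rw [T_e, ev_C]

theorem mat_ops (O : Ops P) (O' : Ops P') (T : O.Cn →+ O'.Cn) (i : ℕ) (x : P) (hx : x ∈ O.D i) :
    (∀ y, y ∉ O'.D i → mat O O' T x y = 0) ∧
      mat O O' T (O.f i x) = Finsupp.mapDomain (O'.f i) (mat O O' T x) := by
  have hl : ∀ z, ((T (O.l i x hx) : O'.Cn) : P' →₀ ℚ[X]) z =
      X ^ (4 * i + 3) * C (mat O O' T x z) + X ^ (4 * i + 5) * C (mat O O' T (O.f i x) z) := by
    intro z
    apply ev_inj
    rw [T_formula, coe_l, Finsupp.sum_add_index', Finsupp.sum_single_index,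
      Finsupp.sum_single_index, map_add, map_mul, map_mul, ev_C, ev_C]
    · simp
    · simp
    · intro a
      simp
    · intro a b c
      rw [map_add, add_mul]
  have hV := ((T (O.l i x hx)).2.1).2 i
  have h3 : cf (4 * i + 3) ((T (O.l i x hx) : O'.Cn) : P' →₀ ℚ[X]) = mat O O' T x := by
    ext z
    rw [cf_apply, hl z, coeff_add, coeff_X_pow_mul', coeff_X_pow_mul', if_pos le_rfl,
      if_neg (by omega)]
    simp
  have h5 : cf (4 * i + 5) ((T (O.l i x hx) : O'.Cn) : P' →₀ ℚ[X]) = mat O O' T (O.f i x) := by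
    ext z
    rw [cf_apply, hl z, coeff_add, coeff_X_pow_mul', coeff_X_pow_mul', if_pos (by omega),
      if_pos le_rfl, coeff_C, if_neg (by omega)]
    simp
  rw [h3, h5] at hV
  exact ⟨hV.2.2.1, hV.2.2.2⟩

end

end Pool.Agent.H38.EndQ
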