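import Pool.Agent.H38.EndQ.Rigid
import Pool.Agent.H38.EndQ.Char

/-!
Counting the solutions of every cardinality.
-/

open Polynomial Cardinal

namespace Pool.Agent.H38.EndQ

universe u

noncomputable section

variable {W : Type u} [LinearOrder W] [WellFoundedLT W] [OrderTop W]

theorem cone_eq_zero {P : Type u} {O : Ops P} {v w : P →₀ ℚ[X]} (hv : v ∈ O.Cn) (hw : w ∈ O.Cn)
    (h : v + w = 0) : v = 0 := by
  ext1 x
  apply ev_inj
  have h1 := hv.2 x
  have h2 := hw.2 x
  have h3 : ev (v x) + ev (w x) = 0 := by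
    rw [← map_add, ← Finsupp.add_apply, h]
    simp
  have h4 : ev (v x) = 0 := by linarith
  rw [h4]
  simp

theorem smul_mem_cone {P : Type u} {O : Ops P} {v : P →₀ ℚ[X]} (hv : v ∈ O.Cn) {q : ℚ}
    (hq : 0 ≤ q) : q • v ∈ O.Cn := by
  refine ⟨O.V.smul_mem q hv.1, fun x => ?_⟩
  rw [Finsupp.smul_apply, map_smul, Rat.smul_def]
  have := hv.2 x
  have hq' : (0 : ℝ) ≤ (q : ℝ) := by exact_mod_cast hq
  positivity

/-- The nonzero vectors of the cone. -/
def posCone (A : Set W) : AddSubsemigroup (Pt W →₀ ℚ[X]) where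
  carrier := {v | v ∈ (ops A).Cn ∧ v ≠ 0}
  add_mem' := by
    rintro v w ⟨h1, h2⟩ ⟨h3, _⟩
    exact ⟨(ops A).Cn.add_mem h1 h3, fun h => h2 (cone_eq_zero h1 h3 h)⟩

/-- The unit vector as an element of the positive cone. -/
def posE (A : Set W) (x : Pt W) : posCone A :=
  ⟨Finsupp.single x (C 1), ((ops A).e x).2, by
    rw [Ne, Finsupp.single_eq_zero]
    simp⟩

theorem hom_pos [Nontrivial W] (A B : Set W)
    (φ : Multiplicative (posCone A) →ₙ* Multiplicative (posCone B)) :
    A ⊆ B ∧ ∃ q : ℚ, 0 < q ∧ ∀ v, ((φ v).toAdd : Pt W →₀ ℚ[X]) = q • (v.toAdd : Pt W →₀ ℚ[X]) := by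
  classical
  let f : (ops A).Cn → (ops B).Cn := fun v =>
    if h : (v : Pt W →₀ ℚ[X]) = 0 then 0 else
      ⟨((φ (Multiplicative.ofAdd ⟨v, v.2, h⟩)).toAdd : Pt W →₀ ℚ[X]),
        (φ (Multiplicative.ofAdd ⟨v, v.2, h⟩)).toAdd.2.1⟩
  have hf0 : ∀ v : (ops A).Cn, (v : Pt W →₀ ℚ[X]) = 0 → f v = 0 := fun v h => dif_pos h
  have hf1 : ∀ (v : (ops A).Cn) (h : (v : Pt W →₀ ℚ[X]) ≠ 0), ((f v : (ops B).Cn) : Pt W →₀ ℚ[X]) =
      ((φ (Multiplicative.ofAdd ⟨v, v.2, h⟩)).toAdd : Pt W →₀ ℚ[X]) := by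
    intro v h
    simp only [f, dif_neg h]
  let T : (ops A).Cn →+ (ops B).Cn :=
    { toFun := f
      map_zero' := hf0 0 rfl
      map_add' := by
        intro v w
        by_cases hv : (v : Pt W →₀ ℚ[X]) = 0
        · have : v = 0 := Subtype.ext hv
          rw [this, zero_add, hf0 0 rfl, zero_add]
        by_cases hw : (w : Pt W →₀ ℚ[X]) = 0
        · have : w = 0 := Subtype.ext hw
          rw [this, add_zero, hf0 0 rfl, add_zero]
        have hvw : ((v + w : (ops A).Cn) : Pt W →₀ ℚ[X]) ≠ 0 :=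
          fun h => hv (cone_eq_zero v.2 w.2 h)
        apply Subtype.ext
        rw [AddSubmonoid.coe_add, hf1 _ hvw, hf1 _ hv, hf1 _ hw]
        have : (Multiplicative.ofAdd (⟨((v + w : (ops A).Cn) : Pt W →₀ ℚ[X]), (v + w).2, hvw⟩ :
            posCone A)) = Multiplicative.ofAdd (⟨v, v.2, hv⟩ : posCone A) *
              Multiplicative.ofAdd (⟨w, w.2, hw⟩ : posCone A) := rfl
        rw [this, map_mul, toAdd_mul]
        rfl }
  obtain ⟨q, hq, hT, hAB⟩ := cone_rigid A B T
  have hval : ∀ v, ((φ v).toAdd : Pt W →₀ ℚ[X]) = q • (v.toAdd : Pt W →₀ ℚ[X]) := by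
    intro v
    have h1 := hT ⟨v.toAdd, v.toAdd.2.1⟩
    have h2 : ((f ⟨v.toAdd, v.toAdd.2.1⟩ : (ops B).Cn) : Pt W →₀ ℚ[X]) =
      ((φ v).toAdd : Pt W →₀ ℚ[X]) := hf1 ⟨v.toAdd, v.toAdd.2.1⟩ v.toAdd.2.2
    rw [← h2]
    exact h1
  have hq0 : q ≠ 0 := by
    intro h
    have h1 := hval (Multiplicative.ofAdd (posE A (Sum.inl ⊤)))
    rw [h, zero_smul] at h1
    exact (φ (Multiplicative.ofAdd (posE A (Sum.inl ⊤)))).toAdd.2.2 h1
  exact ⟨hAB hq0, q, lt_of_le_of_ne hq (Ne.symm hq0), hval⟩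

theorem hom_nonneg [Nontrivial W] (A B : Set W)
    (φ : Multiplicative (ops A).Cn →ₙ* Multiplicative (ops B).Cn) :
    ∃ q : ℚ, 0 ≤ q ∧ (q ≠ 0 → A ⊆ B) ∧
      ∀ v, ((φ v).toAdd : Pt W →₀ ℚ[X]) = q • (v.toAdd : Pt W →₀ ℚ[X]) := by
  let T : (ops A).Cn →+ (ops B).Cn :=
    { toFun := fun v => (φ (Multiplicative.ofAdd v)).toAdd
      map_zero' := by
        have h1 : φ (Multiplicative.ofAdd 0) * φ (Multiplicative.ofAdd 0) =
            φ (Multiplicative.ofAdd 0) := by
          rw [← map_mul, ← ofAdd_add, add_zero]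
        have h2 := congrArg (fun x => ((Multiplicative.toAdd x : (ops B).Cn) : Pt W →₀ ℚ[X])) h1
        simp only [toAdd_mul, AddSubmonoid.coe_add] at h2
        apply Subtype.ext
        exact add_eq_left.1 h2
      map_add' := by
        intro v w
        rw [ofAdd_add, map_mul, toAdd_mul] }
  obtain ⟨q, hq, hT, hAB⟩ := cone_rigid A B T
  exact ⟨q, hq, hAB, fun v => hT v.toAdd⟩

theorem ppow_pos_val (A : Set W) (v : Multiplicative (posCone A)) (n : ℕ) :
    ((ppow v n).toAdd : Pt W →₀ ℚ[X]) = ((n : ℚ) + 1) • (v.toAdd : Pt W →₀ ℚ[X]) := by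
  induction n with
  | zero => simp [ppow]
  | succ n ih =>
    rw [ppow, toAdd_mul, AddMemClass.coe_add, ih]
    push_cast
    rw [add_smul ((n : ℚ) + 1) 1, one_smul]

theorem ppow_nonneg_val (A : Set W) (v : Multiplicative (ops A).Cn) (n : ℕ) :
    ((ppow v n).toAdd : Pt W →₀ ℚ[X]) = ((n : ℚ) + 1) • (v.toAdd : Pt W →₀ ℚ[X]) := by
  induction n with
  | zero => simp [ppow]
  | succ n ih =>
    rw [ppow, toAdd_mul, AddSubmonoid.coe_add, ih]
    push_cast
    rw [add_smul ((n : ℚ) + 1) 1, one_smul]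

theorem rat_as_quot {q : ℚ} (hq : 0 < q) : ∃ m n : ℕ, ((n : ℚ) + 1) * q = m + 1 := by
  have hnum : 0 < q.num := Rat.num_pos.2 hq
  obtain ⟨m, hm⟩ : ∃ m : ℕ, q.num = m + 1 := ⟨(q.num - 1).toNat, by omega⟩
  obtain ⟨n, hn⟩ : ∃ n : ℕ, q.den = n + 1 := ⟨q.den - 1, by have := q.den_pos; omega⟩
  refine ⟨m, n, ?_⟩
  have h1 : (q.den : ℚ) * q = q.num := by rw [mul_comm]; exact Rat.mul_den_eq_num q
  rw [hn, hm] at h1
  push_cast at h1
  exact h1

/-- The positive cones are solutions for the positive rationals. -/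
theorem posCone_sol [Nontrivial W] (A : Set W) : EndIsPosRat (Multiplicative (posCone A)) := by
  have : Nonempty (Multiplicative (posCone A)) := ⟨Multiplicative.ofAdd (posE A (Sum.inl ⊤))⟩
  apply char_pos_backward
  · intro n
    have hn : ((n : ℚ) + 1) ≠ 0 := by positivity
    constructor
    · intro v w h
      have h1 := congrArg (fun x : Multiplicative (posCone A) => (x.toAdd : Pt W →₀ ℚ[X])) h
      simp only [ppow_pos_val] at h1
      apply Multiplicative.toAdd.injective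
      apply Subtype.ext
      exact smul_right_injective _ hn h1
    · intro v
      have hmem : ((n : ℚ) + 1)⁻¹ • (v.toAdd : Pt W →₀ ℚ[X]) ∈ posCone A := by
        refine ⟨smul_mem_cone v.toAdd.2.1 (by positivity), ?_⟩
        exact smul_ne_zero (inv_ne_zero hn) v.toAdd.2.2
      refine ⟨Multiplicative.ofAdd ⟨_, hmem⟩, ?_⟩
      apply Multiplicative.toAdd.injective
      apply Subtype.ext
      rw [ppow_pos_val]
      change ((n : ℚ) + 1) • (((n : ℚ) + 1)⁻¹ • (v.toAdd : Pt W →₀ ℚ[X])) = _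
      rw [smul_smul, mul_inv_cancel₀ hn, one_smul]
  · intro v h
    have h1 := congrArg (fun x : Multiplicative (posCone A) => (x.toAdd : Pt W →₀ ℚ[X])) h
    simp only [toAdd_mul, AddMemClass.coe_add] at h1
    exact v.toAdd.2.2 (add_eq_left.1 h1)
  · intro φ
    obtain ⟨_, q, hq, hφ⟩ := hom_pos A A φ
    obtain ⟨m, n, hmn⟩ := rat_as_quot hq
    refine ⟨m, n, fun v => ?_⟩
    apply Multiplicative.toAdd.injective
    apply Subtype.ext
    rw [ppow_pos_val, ppow_pos_val, hφ, smul_smul, hmn]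

/-- The cones are solutions for the nonnegative rationals. -/
theorem cone_sol [Nontrivial W] (A : Set W) : EndIsNonnegRat (Multiplicative (ops A).Cn) := by
  refine char_nonneg_backward ?_ (Multiplicative.ofAdd 0) ?_ ?_ ?_ ?_
  · intro n
    have hn : ((n : ℚ) + 1) ≠ 0 := by positivity
    constructor
    · intro v w h
      have h1 := congrArg (fun x : Multiplicative (ops A).Cn => (x.toAdd : Pt W →₀ ℚ[X])) h
      simp only [ppow_nonneg_val] at h1
      apply Multiplicative.toAdd.injective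
      apply Subtype.ext
      exact smul_right_injective _ hn h1
    · intro v
      have hmem : ((n : ℚ) + 1)⁻¹ • (v.toAdd : Pt W →₀ ℚ[X]) ∈ (ops A).Cn :=
        smul_mem_cone v.toAdd.2 (by positivity)
      refine ⟨Multiplicative.ofAdd ⟨_, hmem⟩, ?_⟩
      apply Multiplicative.toAdd.injective
      apply Subtype.ext
      rw [ppow_nonneg_val]
      change ((n : ℚ) + 1) • (((n : ℚ) + 1)⁻¹ • (v.toAdd : Pt W →₀ ℚ[X])) = _
      rw [smul_smul, mul_inv_cancel₀ hn, one_smul]
  · intro v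
    apply Multiplicative.toAdd.injective
    rw [toAdd_mul, toAdd_ofAdd, add_zero]
  · intro v h
    have h1 := congrArg (fun x : Multiplicative (ops A).Cn => (x.toAdd : Pt W →₀ ℚ[X])) h
    simp only [toAdd_mul, AddSubmonoid.coe_add] at h1
    apply Multiplicative.toAdd.injective
    apply Subtype.ext
    exact add_eq_left.1 h1
  · refine ⟨Multiplicative.ofAdd ((ops A).e (Sum.inl ⊤)), ?_⟩
    intro h
    have h1 := congrArg (fun x : Multiplicative (ops A).Cn => (x.toAdd : Pt W →₀ ℚ[X])) h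
    exact (posE A (Sum.inl ⊤)).2.2 h1
  · intro φ
    obtain ⟨q, hq, _, hφ⟩ := hom_nonneg A A φ
    rcases hq.eq_or_lt with hq0 | hq
    · left
      intro v
      apply Multiplicative.toAdd.injective
      apply Subtype.ext
      rw [hφ, ← hq0, zero_smul]
      rfl
    · right
      obtain ⟨m, n, hmn⟩ := rat_as_quot hq
      refine ⟨m, n, fun v => ?_⟩
      apply Multiplicative.toAdd.injective
      apply Subtype.ext
      rw [ppow_nonneg_val, ppow_nonneg_val, hφ, smul_smul, hmn]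

theorem card_points [Infinite W] : #(Pt W) = #W := by
  apply le_antisymm
  · rw [mk_sum, lift_id, lift_id]
    have h1 : #{p : W × W // p.1 < p.2} ≤ #W := by
      refine (mk_subtype_le _).trans ?_
      rw [mk_prod, lift_id]
      exact (mul_eq_self (aleph0_le_mk W)).le
    calc #W + #{p : W × W // p.1 < p.2} ≤ #W + #W := add_le_add le_rfl h1
      _ = #W := add_eq_self (aleph0_le_mk W)
  · exact mk_le_of_injective Sum.inl_injective

theorem card_all [Infinite W] : #(Pt W →₀ ℚ[X]) = #W := by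
  rw [mk_finsupp_lift_of_infinite, card_points]
  have h1 : #(ℚ[X]) ≤ ℵ₀ := by
    refine (Polynomial.cardinalMk_le_max).trans ?_
    exact max_le (mk_le_aleph0) le_rfl
  have h2 : lift.{u, 0} #(ℚ[X]) ≤ ℵ₀ := by
    rw [lift_le_aleph0]
    exact h1
  rw [lift_id'.{0, u}]
  exact max_eq_left (h2.trans (aleph0_le_mk W))

theorem card_cone [Infinite W] (A : Set W) : #(Multiplicative (ops A).Cn) = #W := by
  apply le_antisymm
  · have h1 : #((ops A).Cn) ≤ #(Pt W →₀ ℚ[X]) := mk_subtype_le _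
    rw [card_all] at h1
    exact h1
  · have : Function.Injective (fun w : W => Multiplicative.ofAdd ((ops A).e (Sum.inl w))) := by
      intro a b h
      have h1 := congrArg (fun x : Multiplicative (ops A).Cn => (x.toAdd : Pt W →₀ ℚ[X])) h
      change (Finsupp.single (Sum.inl a) (C (1:ℚ)) : Pt W →₀ ℚ[X]) =
        Finsupp.single (Sum.inl b) (C (1:ℚ)) at h1
      have h2 := Finsupp.single_left_injective (by simp : (C (1:ℚ) : ℚ[X]) ≠ 0) h1
      exact Sum.inl_injective h2
    exact mk_le_of_injective this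

theorem card_posCone [Infinite W] (A : Set W) : #(Multiplicative (posCone A)) = #W := by
  apply le_antisymm
  · have h1 : #(posCone A) ≤ #(Pt W →₀ ℚ[X]) := mk_subtype_le _
    rw [card_all] at h1
    exact h1
  · have : Function.Injective (fun w : W => Multiplicative.ofAdd (posE A (Sum.inl w))) := by
      intro a b h
      have h1 := congrArg (fun x : Multiplicative (posCone A) => (x.toAdd : Pt W →₀ ℚ[X])) h
      change (Finsupp.single (Sum.inl a) (C (1:ℚ)) : Pt W →₀ ℚ[X]) =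
        Finsupp.single (Sum.inl b) (C (1:ℚ)) at h1
      have h2 := Finsupp.single_left_injective (by simp : (C (1:ℚ) : ℚ[X]) ≠ 0) h1
      exact Sum.inl_injective h2
    exact mk_le_of_injective this

end

end Pool.Agent.H38.EndQ
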