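import Mathlib

/-!
Definitions for the problem on commutative semigroups whose endomorphism semigroup (under the
pointwise product) is the additive semigroup of positive or of nonnegative rationals.

In Mathlib `S →ₙ* S` is the set of multiplicative maps of `S` into itself; for a commutative
semigroup `S` it carries the pointwise product.
-/

namespace Pool.Agent.H38.EndQ

universe u

/-- `ppow a n` is the power of `a` with exponent `n + 1`, that is the product of `n + 1` copies
of `a`. -/
def ppow {S : Type*} [Mul S] (a : S) : ℕ → S
  | 0 => a
  | n + 1 => ppow a n * a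

/-- The endomorphism semigroup of `S` under the pointwise product is isomorphic to the additive
semigroup of positive rationals. -/
def EndIsPosRat (S : Type u) [CommSemigroup S] : Prop :=
  Nonempty ((S →ₙ* S) ≃* Multiplicative {q : ℚ // 0 < q})

/-- The endomorphism semigroup of `S` under the pointwise product is isomorphic to the additive
semigroup of nonnegative rationals. -/
def EndIsNonnegRat (S : Type u) [CommSemigroup S] : Prop :=
  Nonempty ((S →ₙ* S) ≃* Multiplicative {q : ℚ // 0 ≤ q})

/-- The commutative semigroup structures on the set `K` whose endomorphism semigroup (under the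
pointwise product) is isomorphic to the additive semigroup of positive rationals. -/
def SolPos (K : Type u) : Type u := {m : CommSemigroup K // @EndIsPosRat K m}

/-- Two structures are identified when they are isomorphic as semigroups. -/
def isoPos (K : Type u) : Setoid (SolPos K) where
  r m n := Nonempty (@MulEquiv K K m.1.toSemigroup.toMul n.1.toSemigroup.toMul)
  iseqv :=
    { refl := fun m => ⟨@MulEquiv.refl K m.1.toSemigroup.toMul⟩
      symm := fun {m n} ⟨e⟩ => ⟨@MulEquiv.symm K K m.1.toSemigroup.toMul n.1.toSemigroup.toMul e⟩
      trans := fun {m n p} ⟨e⟩ ⟨f⟩ => ⟨@MulEquiv.trans K K K m.1.toSemigroup.toMul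
        n.1.toSemigroup.toMul p.1.toSemigroup.toMul e f⟩ }

/-- The commutative semigroup structures on the set `K` whose endomorphism semigroup (under the
pointwise product) is isomorphic to the additive semigroup of nonnegative rationals. -/
def SolNonneg (K : Type u) : Type u := {m : CommSemigroup K // @EndIsNonnegRat K m}

/-- Two structures are identified when they are isomorphic as semigroups. -/
def isoNonneg (K : Type u) : Setoid (SolNonneg K) where
  r m n := Nonempty (@MulEquiv K K m.1.toSemigroup.toMul n.1.toSemigroup.toMul)
  iseqv :=
    { refl := fun m => ⟨@MulEquiv.refl K m.1.toSemigroup.toMul⟩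
      symm := fun {m n} ⟨e⟩ => ⟨@MulEquiv.symm K K m.1.toSemigroup.toMul n.1.toSemigroup.toMul e⟩
      trans := fun {m n p} ⟨e⟩ ⟨f⟩ => ⟨@MulEquiv.trans K K K m.1.toSemigroup.toMul
        n.1.toSemigroup.toMul p.1.toSemigroup.toMul e f⟩ }

end Pool.Agent.H38.EndQ
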