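import Pool.Agent.H38.EndQ.Defs

/-!
Multiplication tables on the natural numbers, and coanalytic-complete sets.
-/

namespace Pool.Agent.H38.EndQ

/-- The multiplication table of a commutative semigroup structure on the natural numbers, a point
of the Polish space `ℕ → ℕ → ℕ`. -/
def table (m : CommSemigroup ℕ) : ℕ → ℕ → ℕ := fun i j => m.toSemigroup.toMul.mul i j

/-- The tables of the commutative semigroup structures on the natural numbers whose endomorphism
semigroup is isomorphic to the additive semigroup of positive rationals. -/
def PosTables : Set (ℕ → ℕ → ℕ) := {t | ∃ m : SolPos ℕ, table m.1 = t}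

/-- The tables of the commutative semigroup structures on the natural numbers whose endomorphism
semigroup is isomorphic to the additive semigroup of nonnegative rationals. -/
def NonnegTables : Set (ℕ → ℕ → ℕ) := {t | ∃ m : SolNonneg ℕ, table m.1 = t}

/-- A set of tables is complete coanalytic: its complement is analytic, and every coanalytic
subset of the Baire space `ℕ → ℕ` is the preimage of it under a continuous map. -/
def CoanalyticComplete (A : Set (ℕ → ℕ → ℕ)) : Prop :=
  MeasureTheory.AnalyticSet Aᶜ ∧
    ∀ B : Set (ℕ → ℕ), MeasureTheory.AnalyticSet Bᶜ →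
      ∃ f : (ℕ → ℕ) → (ℕ → ℕ → ℕ), Continuous f ∧ f ⁻¹' A = B

/-- `E` is an extensional relation on the natural numbers of rank at most `W`: distinct numbers
have distinct sets of predecessors, and some map to `W` is strictly increasing along `E`. -/
def IsCode (W : Type) [LinearOrder W] (E : ℕ → ℕ → Bool) : Prop :=
  (∀ i j, (∀ k, E k i = E k j) → i = j) ∧ ∃ r : ℕ → W, ∀ i j, E i j = true → r i < r j

/-- The relations `E` and `E'` on the natural numbers are isomorphic. -/
def RelIso (E E' : ℕ → ℕ → Bool) : Prop :=
  ∃ π : Equiv.Perm ℕ, ∀ i j, E i j = E' (π i) (π j)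

end Pool.Agent.H38.EndQ
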