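import Pool.Agent.H38.EndQ.Solve

/-!
The cones of two systems of operations are isomorphic exactly when the systems are.
-/

open Polynomial

namespace Pool.Agent.H38.EndQ

universe u

noncomputable section

variable {P P' P'' : Type u}

/-- An isomorphism of systems of operations. -/
def OpsIso (O : Ops P) (O' : Ops P') (h : P ≃ P') : Prop :=
  ∀ i x, (x ∈ O.D i ↔ h x ∈ O'.D i) ∧ (x ∈ O.D i → h (O.f i x) = O'.f i (h x))

theorem OpsIso.symm {O : Ops P} {O' : Ops P'} {h : P ≃ P'} (H : OpsIso O O' h) :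
    OpsIso O' O h.symm := by
  intro i x
  have h1 := H i (h.symm x)
  rw [Equiv.apply_symm_apply] at h1
  refine ⟨h1.1.symm, fun hx => ?_⟩
  rw [Equiv.symm_apply_eq]
  exact (h1.2 (h1.1.2 hx)).symm

/-- Isomorphic systems have isomorphic cones. -/
theorem cone_equiv {O : Ops P} {O' : Ops P'} {h : P ≃ P'} (H : OpsIso O O' h) :
    ∃ T : O.Cn ≃+ O'.Cn, ∀ v, ((T v : O'.Cn) : P' →₀ ℚ[X]) =
      Finsupp.mapDomain h (v : P →₀ ℚ[X]) := by
  have h1 : ∀ i, ∀ x ∈ O.D i, h x ∈ O'.D i ∧ h (O.f i x) = O'.f i (h x) :=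
    fun i x hx => ⟨(H i x).1.1 hx, (H i x).2 hx⟩
  have h2 : ∀ i, ∀ x ∈ O'.D i, h.symm x ∈ O.D i ∧ h.symm (O'.f i x) = O.f i (h.symm x) :=
    fun i x hx => ⟨(H.symm i x).1.1 hx, (H.symm i x).2 hx⟩
  refine ⟨AddEquiv.mk' ⟨indMap O O' h h1, indMap O' O h.symm h2, fun v => ?_, fun v => ?_⟩
    (fun v w => map_add (indMap O O' h h1) v w), fun v => rfl⟩
  · apply Subtype.ext
    rw [coe_indMap, coe_indMap, ← Finsupp.mapDomain_comp, Equiv.symm_comp_self,
      Finsupp.mapDomain_id]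
  · apply Subtype.ext
    rw [coe_indMap, coe_indMap, ← Finsupp.mapDomain_comp, Equiv.self_comp_symm,
      Finsupp.mapDomain_id]

theorem Ps_equiv {O : Ops P} {O' : Ops P'} {h : P ≃ P'} (H : OpsIso O O' h) :
    Nonempty (O.Ps ≃+ O'.Ps) := by
  obtain ⟨T, hT⟩ := cone_equiv H
  have h0 : ∀ v : O.Cn, ((T v : O'.Cn) : P' →₀ ℚ[X]) = 0 ↔ (v : P →₀ ℚ[X]) = 0 := by
    intro v
    constructor
    · intro h1
      have h2 : T v = T 0 := by
        rw [map_zero]
        exact Subtype.ext h1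
      have h3 := T.injective h2
      rw [h3]
      rfl
    · intro h1
      have h2 : v = 0 := Subtype.ext h1
      rw [h2, map_zero]
      rfl
  let e : O.Ps ≃ O'.Ps :=
    { toFun := fun v => ⟨(T ⟨v, v.2.1⟩ : O'.Cn), (T ⟨v, v.2.1⟩).2, fun h1 => v.2.2 ((h0 _).1 h1)⟩
      invFun := fun v => ⟨(T.symm ⟨v, v.2.1⟩ : O.Cn), (T.symm ⟨v, v.2.1⟩).2, fun h1 => v.2.2 (by
        have := (h0 _).2 h1
        rwa [AddEquiv.apply_symm_apply] at this)⟩
      left_inv := fun v => by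
        apply Subtype.ext
        change ((T.symm (T ⟨v, v.2.1⟩) : O.Cn) : P →₀ ℚ[X]) = _
        rw [AddEquiv.symm_apply_apply]
      right_inv := fun v => by
        apply Subtype.ext
        change ((T (T.symm ⟨v, v.2.1⟩) : O'.Cn) : P' →₀ ℚ[X]) = _
        rw [AddEquiv.apply_symm_apply] }
  refine ⟨AddEquiv.mk' e fun v w => ?_⟩
  apply Subtype.ext
  have h1 := congrArg (fun z : O'.Cn => (z : P' →₀ ℚ[X]))
    (map_add T ⟨(v : P →₀ ℚ[X]), v.2.1⟩ ⟨(w : P →₀ ℚ[X]), w.2.1⟩)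
  exact h1

theorem Cs_equiv {O : Ops P} {O' : Ops P'} {h : P ≃ P'} (H : OpsIso O O' h) :
    Nonempty (O.Cs ≃+ O'.Cs) := by
  obtain ⟨T, -⟩ := cone_equiv H
  let e : O.Cs ≃ O'.Cs :=
    { toFun := fun v => ⟨(T ⟨v, v.2⟩ : O'.Cn), (T ⟨v, v.2⟩).2⟩
      invFun := fun v => ⟨(T.symm ⟨v, v.2⟩ : O.Cn), (T.symm ⟨v, v.2⟩).2⟩
      left_inv := fun v => by
        apply Subtype.ext
        change ((T.symm (T ⟨v, v.2⟩) : O.Cn) : P →₀ ℚ[X]) = _
        rw [AddEquiv.symm_apply_apply]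
      right_inv := fun v => by
        apply Subtype.ext
        change ((T (T.symm ⟨v, v.2⟩) : O'.Cn) : P' →₀ ℚ[X]) = _
        rw [AddEquiv.apply_symm_apply] }
  refine ⟨AddEquiv.mk' e fun v w => ?_⟩
  apply Subtype.ext
  have h1 := congrArg (fun z : O'.Cn => (z : P' →₀ ℚ[X]))
    (map_add T ⟨(v : P →₀ ℚ[X]), v.2⟩ ⟨(w : P →₀ ℚ[X]), w.2⟩)
  exact h1

/-- If two additive maps of cones are inverse to each other then the systems are isomorphic. -/
theorem iso_of_inverse (O : Ops P) (O' : Ops P') (T : O.Cn →+ O'.Cn) (T' : O'.Cn →+ O.Cn)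
    (h1 : ∀ v, T' (T v) = v) (h2 : ∀ v, T (T' v) = v) : ∃ h : P ≃ P', OpsIso O O' h := by
  classical
  -- the matrices
  have key : ∀ {Q Q' : Type u} (R : Ops Q) (R' : Ops Q') (S : R.Cn →+ R'.Cn) (S' : R'.Cn →+ R.Cn),
      (∀ v, S' (S v) = v) → ∀ x, ∀ y ∈ (mat R R' S x).support, ∀ z ∈ (mat R' R S' y).support,
        z = x := by
    intro Q Q' R R' S S' hS x y hy z hz
    by_contra hne
    have e1 := T_formula R' R S' (S (R.e x)) z
    rw [hS, coe_e, Finsupp.single_eq_of_ne hne, map_zero] at e1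
    have e2 : ∀ w ∈ ((S (R.e x) : R'.Cn) : Q' →₀ ℚ[X]).support,
        0 ≤ ev (((S (R.e x) : R'.Cn) : Q' →₀ ℚ[X]) w) * ((mat R' R S' w z : ℚ) : ℝ) := by
      intro w _
      refine mul_nonneg ((S (R.e x)).2.2 w) ?_
      exact_mod_cast mat_nonneg R' R S' w z
    have e3 := (Finset.sum_eq_zero_iff_of_nonneg e2).1 e1.symm
    have hy' : mat R R' S x y ≠ 0 := Finsupp.mem_support_iff.1 hy
    have hmem : y ∈ ((S (R.e x) : R'.Cn) : Q' →₀ ℚ[X]).support := by
      rw [Finsupp.mem_support_iff, T_e]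
      simpa using hy'
    have e4 := e3 y hmem
    rw [T_e, ev_C] at e4
    have hz' : mat R' R S' y z ≠ 0 := Finsupp.mem_support_iff.1 hz
    rcases mul_eq_zero.1 e4 with h | h
    · exact hy' (by exact_mod_cast h)
    · exact hz' (by exact_mod_cast h)
  have hne : ∀ {Q Q' : Type u} (R : Ops Q) (R' : Ops Q') (S : R.Cn →+ R'.Cn) (S' : R'.Cn →+ R.Cn),
      (∀ v, S' (S v) = v) → ∀ x, (mat R R' S x).support.Nonempty := by
    intro Q Q' R R' S S' hS x
    rw [Finset.nonempty_iff_ne_empty, Ne, Finsupp.support_eq_empty]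
    intro h0
    have e1 : S (R.e x) = 0 := by
      apply Subtype.ext
      ext1 y
      rw [T_e, h0]
      simp
    have e2 := hS (R.e x)
    rw [e1, map_zero] at e2
    have e3 := congrArg (fun v : R.Cn => (v : Q →₀ ℚ[X]) x) e2
    change (0 : Q →₀ ℚ[X]) x = ((R.e x : R.Cn) : Q →₀ ℚ[X]) x at e3
    rw [coe_e, Finsupp.single_eq_same] at e3
    simp at e3
  have hT := fun x => hne O O' T T' h1 x
  have hT' := fun x => hne O' O T' T h2 x
  choose a ha using hT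
  choose b hb using hT'
  have hba : ∀ x, b (a x) = x := fun x => key O O' T T' h1 x (a x) (ha x) _ (hb (a x))
  have hab : ∀ y, a (b y) = y := fun y => key O' O T' T h2 y (b y) (hb y) _ (ha (b y))
  have hsupp : ∀ x, ∀ y ∈ (mat O O' T x).support, y = a x := by
    intro x y hy
    have h3 := key O O' T T' h1 x y hy _ (hb y)
    rw [← h3, hab]
  have hsupp' : ∀ y, ∀ x ∈ (mat O' O T' y).support, x = b y := by
    intro y x hx
    have h3 := key O' O T' T h2 y x hx _ (ha x)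
    rw [← h3, hba]
  have hops : ∀ i x, x ∈ O.D i → a x ∈ O'.D i ∧ a (O.f i x) = O'.f i (a x) := by
    intro i x hx
    obtain ⟨h3, h4⟩ := mat_supp O O' T i x hx
    refine ⟨h3 _ (ha x), ?_⟩
    symm
    apply hsupp
    rw [h4]
    exact Finset.mem_image.2 ⟨_, ha x, rfl⟩
  have hops' : ∀ i y, y ∈ O'.D i → b y ∈ O.D i := by
    intro i y hy
    exact (mat_supp O' O T' i y hy).1 _ (hb y)
  refine ⟨⟨a, b, hba, hab⟩, fun i x => ⟨⟨fun hx => (hops i x hx).1, fun hx => ?_⟩,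
    fun hx => (hops i x hx).2⟩⟩
  have h3 := hops' i _ hx
  change b (a x) ∈ O.D i at h3
  rwa [hba] at h3

/-- Multiplicative form of an additive isomorphism. -/
def mulOf {A B : Type u} [AddCommSemigroup A] [AddCommSemigroup B] (T : A ≃+ B) :
    Multiplicative A ≃* Multiplicative B where
  toFun v := Multiplicative.ofAdd (T v.toAdd)
  invFun v := Multiplicative.ofAdd (T.symm v.toAdd)
  left_inv v := by
    change Multiplicative.ofAdd (T.symm (T v.toAdd)) = v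
    rw [AddEquiv.symm_apply_apply]
    rfl
  right_inv v := by
    change Multiplicative.ofAdd (T (T.symm v.toAdd)) = v
    rw [AddEquiv.apply_symm_apply]
    rfl
  map_mul' v w := by
    change Multiplicative.ofAdd (T (v.toAdd + w.toAdd)) = _
    rw [map_add]
    rfl

/-- The positive cones are isomorphic exactly when the systems are. -/
theorem Ps_iso_iff (O : Ops P) (O' : Ops P') :
    Nonempty (Multiplicative O.Ps ≃* Multiplicative O'.Ps) ↔ ∃ h : P ≃ P', OpsIso O O' h := by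
  constructor
  · rintro ⟨φ⟩
    obtain ⟨T, hT⟩ := lift_pos O O' φ.toMulHom
    obtain ⟨T', hT'⟩ := lift_pos O' O φ.symm.toMulHom
    refine iso_of_inverse O O' T T' (fun v => ?_) (fun v => ?_)
    · by_cases hv : (v : P →₀ ℚ[X]) = 0
      · have : v = 0 := Subtype.ext hv
        rw [this, map_zero, map_zero]
      · apply Subtype.ext
        have h1 := hT v ⟨v.2, hv⟩
        have h2 := hT' _ (φ (Multiplicative.ofAdd ⟨v, v.2, hv⟩)).toAdd.2
        have h3 : T v = ⟨((φ (Multiplicative.ofAdd ⟨v, v.2, hv⟩)).toAdd : P' →₀ ℚ[X]),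
            (φ (Multiplicative.ofAdd ⟨v, v.2, hv⟩)).toAdd.2.1⟩ := Subtype.ext h1
        rw [h3, h2]
        change (((φ.symm (φ (Multiplicative.ofAdd ⟨v, v.2, hv⟩))).toAdd : O.Ps) : P →₀ ℚ[X]) = _
        rw [MulEquiv.symm_apply_apply]
        rfl
    · by_cases hv : (v : P' →₀ ℚ[X]) = 0
      · have : v = 0 := Subtype.ext hv
        rw [this, map_zero, map_zero]
      · apply Subtype.ext
        have h1 := hT' v ⟨v.2, hv⟩
        have h2 := hT _ (φ.symm (Multiplicative.ofAdd ⟨v, v.2, hv⟩)).toAdd.2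
        have h3 : T' v = ⟨((φ.symm (Multiplicative.ofAdd ⟨v, v.2, hv⟩)).toAdd : P →₀ ℚ[X]),
            (φ.symm (Multiplicative.ofAdd ⟨v, v.2, hv⟩)).toAdd.2.1⟩ := Subtype.ext h1
        rw [h3, h2]
        change (((φ (φ.symm (Multiplicative.ofAdd ⟨v, v.2, hv⟩))).toAdd : O'.Ps) : P' →₀ ℚ[X]) = _
        rw [MulEquiv.apply_symm_apply]
        rfl
  · rintro ⟨h, H⟩
    obtain ⟨T⟩ := Ps_equiv H
    exact ⟨mulOf T⟩

/-- The cones are isomorphic exactly when the systems are. -/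
theorem Cs_iso_iff (O : Ops P) (O' : Ops P') :
    Nonempty (Multiplicative O.Cs ≃* Multiplicative O'.Cs) ↔ ∃ h : P ≃ P', OpsIso O O' h := by
  constructor
  · rintro ⟨φ⟩
    obtain ⟨T, hT⟩ := lift_nonneg O O' φ.toMulHom
    obtain ⟨T', hT'⟩ := lift_nonneg O' O φ.symm.toMulHom
    refine iso_of_inverse O O' T T' (fun v => ?_) (fun v => ?_)
    · apply Subtype.ext
      have h1 := hT v v.2
      have h2 := hT' _ (φ (Multiplicative.ofAdd ⟨v, v.2⟩)).toAdd.2
      have h3 : T v = ⟨((φ (Multiplicative.ofAdd ⟨v, v.2⟩)).toAdd : P' →₀ ℚ[X]),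
          (φ (Multiplicative.ofAdd ⟨v, v.2⟩)).toAdd.2⟩ := Subtype.ext h1
      rw [h3, h2]
      change (((φ.symm (φ (Multiplicative.ofAdd ⟨v, v.2⟩))).toAdd : O.Cs) : P →₀ ℚ[X]) = _
      rw [MulEquiv.symm_apply_apply]
      rfl
    · apply Subtype.ext
      have h1 := hT' v v.2
      have h2 := hT _ (φ.symm (Multiplicative.ofAdd ⟨v, v.2⟩)).toAdd.2
      have h3 : T' v = ⟨((φ.symm (Multiplicative.ofAdd ⟨v, v.2⟩)).toAdd : P →₀ ℚ[X]),
          (φ.symm (Multiplicative.ofAdd ⟨v, v.2⟩)).toAdd.2⟩ := Subtype.ext h1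
      rw [h3, h2]
      change (((φ (φ.symm (Multiplicative.ofAdd ⟨v, v.2⟩))).toAdd : O'.Cs) : P' →₀ ℚ[X]) = _
      rw [MulEquiv.apply_symm_apply]
      rfl
  · rintro ⟨h, H⟩
    obtain ⟨T⟩ := Cs_equiv H
    exact ⟨mulOf T⟩

end

end Pool.Agent.H38.EndQ
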