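import Pool.Agent.H38.EndQ.Cone

/-!
A well-order with top, together with ladders at its points of countable cofinality, is rigid even
for finite-set-valued endomorphisms.
-/

namespace Pool.Agent.H38.EndQ

universe u

noncomputable section

variable {W : Type u} [LinearOrder W] [WellFoundedLT W] [OrderTop W]

/-- Limit points of countable cofinality. -/
def IsLim (x : W) : Prop := ∃ s : ℕ → W, StrictMono s ∧ IsLUB (Set.range s) x

open Classical in
/-- A chosen ladder at each limit point of countable cofinality. -/
def lad (n : ℕ) (x : W) : W := if h : IsLim x then Classical.choose h n else x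

theorem lad_spec {x : W} (h : IsLim x) :
    StrictMono (fun n => lad n x) ∧ IsLUB (Set.range fun n => lad n x) x := by
  have h1 : (fun n => lad n x) = Classical.choose h := by
    funext n
    simp only [lad, dif_pos h]
  rw [h1]
  exact Classical.choose_spec h

theorem lad_lt {x : W} (h : IsLim x) (n : ℕ) : lad n x < x :=
  lt_of_lt_of_le ((lad_spec h).1 (Nat.lt_succ_self n)) ((lad_spec h).2.1 ⟨n + 1, rfl⟩)

theorem exists_lub (s : ℕ → W) : ∃ x, IsLUB (Set.range s) x := by
  have hne : (upperBounds (Set.range s)).Nonempty := ⟨⊤, fun _ _ => le_top⟩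
  refine ⟨WellFounded.min (wellFounded_lt (α := W)) _ hne, WellFounded.min_mem _ _ hne, ?_⟩
  intro b hb
  exact not_lt.1 (WellFounded.not_lt_min _ _ hb)

/-- Rigidity. -/
theorem ladder_rigid (σ : W → Finset W) (hne : ∀ x, (σ x).Nonempty)
    (h1 : ∀ a b, a < b → ∀ z ∈ σ a, ∃ w ∈ σ b, z < w)
    (h2 : ∀ a b, a < b → ∀ w ∈ σ b, ∃ z ∈ σ a, z < w)
    (h3 : ∀ x, IsLim x → ∀ z ∈ σ x, IsLim z)
    (h4 : ∀ x, IsLim x → ∀ n, σ (lad n x) = (σ x).image (lad n)) (x : W) : σ x = {x} := by
  let M : W → W := fun a => (σ a).max' (hne a)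
  let m : W → W := fun a => (σ a).min' (hne a)
  have hM : StrictMono M := by
    intro a b hab
    obtain ⟨w, hw, hlt⟩ := h1 a b hab (M a) (Finset.max'_mem _ _)
    exact hlt.trans_le (Finset.le_max' _ _ hw)
  have hm : StrictMono m := by
    intro a b hab
    obtain ⟨z, hz, hlt⟩ := h2 a b hab (m b) (Finset.min'_mem _ _)
    exact (Finset.min'_le _ _ hz).trans_lt hlt
  have hmle : ∀ a, a ≤ m a := fun a => hm.le_apply
  have hMle : ∀ a, a ≤ M a := fun a => hM.le_apply
  have key : ∀ d, M d = d := by
    intro d
    by_contra hd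
    have hd' : d < M d := lt_of_le_of_ne (hMle d) (Ne.symm hd)
    let s : ℕ → W := fun k => M^[k] d
    have hs : StrictMono s := by
      refine strictMono_nat_of_lt_succ fun k => ?_
      induction k with
      | zero => simpa [s] using hd'
      | succ k ih =>
        simp only [s, Function.iterate_succ_apply'] at ih ⊢
        exact hM ih
    have hsucc : ∀ k, s (k + 1) = M (s k) := fun k => Function.iterate_succ_apply' M k d
    obtain ⟨e, he⟩ := exists_lub s
    have hlim : IsLim e := ⟨s, hs, he⟩
    have hL := lad_spec hlim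
    have hslt : ∀ k, s k < e := fun k =>
      lt_of_lt_of_le (hs (Nat.lt_succ_self k)) (he.1 ⟨k + 1, rfl⟩)
    have hMlt : ∀ n, M (lad n e) < e := by
      intro n
      have : ∃ k, lad n e < s k := by
        by_contra hcon
        push Not at hcon
        have : e ≤ lad n e := he.2 (by rintro _ ⟨k, rfl⟩; exact hcon k)
        exact absurd (lad_lt hlim n) (not_lt.2 this)
      obtain ⟨k, hk⟩ := this
      have := hM hk
      rw [← hsucc] at this
      exact this.trans (hslt _)
    have hσe : ∀ z ∈ σ e, z = e := by
      intro z hz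
      have hzlim := h3 e hlim z hz
      have hez : e ≤ z := (hmle e).trans (Finset.min'_le _ _ hz)
      have hub : z ≤ e := by
        refine (lad_spec hzlim).2.2 ?_
        rintro _ ⟨n, rfl⟩
        have hmem : lad n z ∈ σ (lad n e) := by
          rw [h4 e hlim n]
          exact Finset.mem_image_of_mem _ hz
        exact ((Finset.le_max' _ _ hmem).trans_lt (hMlt n)).le
      exact le_antisymm hub hez
    have hMn : ∀ n, M (lad n e) = lad n e := by
      intro n
      have hmem : M (lad n e) ∈ σ (lad n e) := Finset.max'_mem _ _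
      rw [h4 e hlim n, Finset.mem_image] at hmem
      obtain ⟨z, hz, hz'⟩ := hmem
      rw [hσe z hz] at hz'
      exact hz'.symm
    obtain ⟨n, hn⟩ : ∃ n, d < lad n e := by
      by_contra hcon
      push Not at hcon
      have : e ≤ d := hL.2.2 (by rintro _ ⟨k, rfl⟩; exact hcon k)
      exact absurd (hslt 0) (not_lt.2 this)
    have hall : ∀ k, s k < lad n e := by
      intro k
      induction k with
      | zero => exact hn
      | succ k ih =>
        rw [hsucc, ← hMn n]
        exact hM ih
    have : e ≤ lad n e := he.2 (by rintro _ ⟨k, rfl⟩; exact (hall k).le)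
    exact absurd (lad_lt hlim n) (not_lt.2 this)
  ext z
  rw [Finset.mem_singleton]
  have hall : ∀ z ∈ σ x, z = x := by
    intro z hz
    have h5 : z ≤ M x := Finset.le_max' _ _ hz
    rw [key x] at h5
    have h6 : m x ≤ z := Finset.min'_le _ _ hz
    exact le_antisymm h5 ((hmle x).trans h6)
  constructor
  · exact hall z
  · rintro rfl
    obtain ⟨w, hw⟩ := hne z
    rw [hall w hw] at hw
    exact hw

end

end Pool.Agent.H38.EndQ
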