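import Pool.Agent.H38.EndQ.Ladder

/-!
The rigid cones attached to a well-order `W` with top and a subset `A` of `W`.
-/

open Polynomial

namespace Pool.Agent.H38.EndQ

universe u

noncomputable section

section general

variable {P : Type u}

theorem supp_mapDomain [DecidableEq P] (f : P → P) (τ : P →₀ ℚ) (h : ∀ y, 0 ≤ τ y) :
    (Finsupp.mapDomain f τ).support = τ.support.image f := by
  apply le_antisymm
  · exact Finsupp.mapDomain_support
  · intro z hz
    rw [Finset.mem_image] at hz
    obtain ⟨y, hy, rfl⟩ := hz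
    rw [Finsupp.mem_support_iff]
    rw [Finsupp.mapDomain, Finsupp.sum_apply]
    apply ne_of_gt
    refine Finset.sum_pos' ?_ ⟨y, hy, ?_⟩
    · intro i _
      beta_reduce
      rw [Finsupp.single_apply]
      split_ifs
      · exact h i
      · exact le_rfl
    · beta_reduce
      rw [Finsupp.single_eq_same]
      exact lt_of_le_of_ne (h y) (Ne.symm (Finsupp.mem_support_iff.1 hy))

/-- Total mass. -/
def mass (τ : P →₀ ℚ) : ℚ := τ.sum fun _ q => q

theorem mass_mapDomain (f : P → P) (τ : P →₀ ℚ) : mass (Finsupp.mapDomain f τ) = mass τ := by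
  unfold mass
  exact Finsupp.sum_mapDomain_index (fun _ => rfl) (fun _ _ _ => rfl)

theorem mass_eq_zero {τ : P →₀ ℚ} (h : ∀ y, 0 ≤ τ y) (h0 : mass τ = 0) : τ = 0 := by
  unfold mass Finsupp.sum at h0
  rw [Finset.sum_eq_zero_iff_of_nonneg (fun i _ => h i)] at h0
  ext y
  by_cases hy : y ∈ τ.support
  · exact h0 y hy
  · simpa using hy

end general

variable (W : Type u) [LinearOrder W] [WellFoundedLT W] [OrderTop W]

/-- The points: elements of `W` and increasing pairs. -/
abbrev Pt : Type u := W ⊕ {p : W × W // p.1 < p.2}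

variable {W}

/-- Domains of the operations. -/
def opsD (A : Set W) : ℕ → Set (Pt W)
  | 0 => Set.range Sum.inr
  | 1 => Set.range Sum.inr
  | 2 => Sum.inl '' A
  | _ + 3 => Sum.inl '' {x | IsLim x}

/-- The operations: the two coordinates of pairs, the identity, and the ladders. -/
def opsF : ℕ → Pt W → Pt W
  | 0, Sum.inr c => Sum.inl c.1.1
  | 0, Sum.inl w => Sum.inl w
  | 1, Sum.inr c => Sum.inl c.1.2
  | 1, Sum.inl w => Sum.inl w
  | 2, z => z
  | n + 3, Sum.inl w => Sum.inl (lad n w)
  | _ + 3, Sum.inr c => Sum.inr c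

/-- The system of operations attached to a subset `A` of `W`. -/
def ops (A : Set W) : Ops (Pt W) := ⟨opsD A, opsF⟩

/-- Rigidity of the cones: every additive map is multiplication by a nonnegative rational. -/
theorem cone_rigid [Nontrivial W] (A B : Set W) (T : (ops A).Cn →+ (ops B).Cn) :
    ∃ q : ℚ, 0 ≤ q ∧ (∀ v, ((T v : (ops B).Cn) : Pt W →₀ ℚ[X]) =
      q • ((v : (ops A).Cn) : Pt W →₀ ℚ[X])) ∧ (q ≠ 0 → A ⊆ B) := by
  classical
  set τ : Pt W → (Pt W →₀ ℚ) := mat (ops A) (ops B) T with hτ
  have hnn : ∀ x y, 0 ≤ τ x y := mat_nonneg _ _ T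
  have hops : ∀ i x, x ∈ opsD A i → (∀ y, y ∉ opsD B i → τ x y = 0) ∧
      τ (opsF i x) = Finsupp.mapDomain (opsF i) (τ x) := fun i x hx => mat_ops _ _ T i x hx
  have hsupp : ∀ i x, x ∈ opsD A i → (τ (opsF i x)).support = (τ x).support.image (opsF i) := by
    intro i x hx
    rw [(hops i x hx).2, supp_mapDomain _ _ (hnn x)]
  have hmassop : ∀ i x, x ∈ opsD A i → mass (τ (opsF i x)) = mass (τ x) := by
    intro i x hx
    rw [(hops i x hx).2, mass_mapDomain]
  have hm0 : ∀ c : {p : W × W // p.1 < p.2}, mass (τ (Sum.inl c.1.1)) = mass (τ (Sum.inr c)) :=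
    fun c => hmassop 0 (Sum.inr c) ⟨c, rfl⟩
  have hm1 : ∀ c : {p : W × W // p.1 < p.2}, mass (τ (Sum.inl c.1.2)) = mass (τ (Sum.inr c)) :=
    fun c => hmassop 1 (Sum.inr c) ⟨c, rfl⟩
  set q : ℚ := mass (τ (Sum.inl ⊤)) with hq
  have hmW : ∀ w : W, mass (τ (Sum.inl w)) = q := by
    intro w
    rcases eq_or_ne w ⊤ with rfl | hw
    · rfl
    · have hlt : w < ⊤ := lt_of_le_of_ne le_top hw
      have h0 := hm0 ⟨(w, ⊤), hlt⟩
      have h1 := hm1 ⟨(w, ⊤), hlt⟩
      simp only at h0 h1
      rw [h0, ← h1]
  have hmass : ∀ x, mass (τ x) = q := by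
    rintro (w | c)
    · exact hmW w
    · rw [← hm0 c]
      exact hmW _
  have hq0 : 0 ≤ q := Finsupp.sum_nonneg fun y _ => hnn _ y
  have hmain : (∀ x, τ x = Finsupp.single x q) := by
    by_cases hqz : q = 0
    · intro x
      rw [hqz, Finsupp.single_zero]
      exact mass_eq_zero (hnn x) (by rw [hmass x, hqz])
    · have hne : ∀ x, (τ x).support.Nonempty := by
        intro x
        rw [Finset.nonempty_iff_ne_empty, Ne, Finsupp.support_eq_empty]
        intro h
        apply hqz
        rw [← hmass x, h]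
        rfl
      have hinr : ∀ c : {p : W × W // p.1 < p.2}, ∀ y ∈ (τ (Sum.inr c)).support,
          ∃ c' : {p : W × W // p.1 < p.2}, y = Sum.inr c' := by
        intro c y hy
        by_contra hcon
        have : y ∉ opsD B 0 := by
          rintro ⟨c', hc'⟩
          exact hcon ⟨c', hc'.symm⟩
        exact (Finsupp.mem_support_iff.1 hy) ((hops 0 (Sum.inr c) ⟨c, rfl⟩).1 y this)
      have hs0 : ∀ c : {p : W × W // p.1 < p.2},
          (τ (Sum.inl c.1.1)).support = (τ (Sum.inr c)).support.image (opsF 0) :=
        fun c => hsupp 0 (Sum.inr c) ⟨c, rfl⟩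
      have hs1 : ∀ c : {p : W × W // p.1 < p.2},
          (τ (Sum.inl c.1.2)).support = (τ (Sum.inr c)).support.image (opsF 1) :=
        fun c => hsupp 1 (Sum.inr c) ⟨c, rfl⟩
      have hinl : ∀ w : W, ∀ y ∈ (τ (Sum.inl w)).support, ∃ z : W, y = Sum.inl z := by
        intro w y hy
        rcases eq_or_ne w ⊤ with rfl | hw
        · obtain ⟨b, hb⟩ := exists_ne (⊤ : W)
          have hlt : b < ⊤ := lt_of_le_of_ne le_top hb
          have := hs1 ⟨(b, ⊤), hlt⟩
          simp only at this
          rw [this, Finset.mem_image] at hy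
          obtain ⟨y', hy', rfl⟩ := hy
          obtain ⟨c', rfl⟩ := hinr _ y' hy'
          exact ⟨_, rfl⟩
        · have hlt : w < ⊤ := lt_of_le_of_ne le_top hw
          have := hs0 ⟨(w, ⊤), hlt⟩
          simp only at this
          rw [this, Finset.mem_image] at hy
          obtain ⟨y', hy', rfl⟩ := hy
          obtain ⟨c', rfl⟩ := hinr _ y' hy'
          exact ⟨_, rfl⟩
      let σ : W → Finset W := fun w =>
        (τ (Sum.inl w)).support.preimage Sum.inl (Sum.inl_injective.injOn)
      have hσ : ∀ w z, z ∈ σ w ↔ Sum.inl z ∈ (τ (Sum.inl w)).support := by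
        intro w z
        simp only [σ, Finset.mem_preimage]
      have hrig := ladder_rigid σ ?_ ?_ ?_ ?_ ?_
      · have hW : ∀ w : W, τ (Sum.inl w) = Finsupp.single (Sum.inl w) q := by
          intro w
          have hsub : (τ (Sum.inl w)).support ⊆ {Sum.inl w} := by
            intro y hy
            obtain ⟨z, rfl⟩ := hinl w y hy
            rw [← hσ, hrig w, Finset.mem_singleton] at hy
            rw [hy]
            simp
          rw [Finsupp.support_subset_singleton] at hsub
          rw [hsub]
          congr 1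
          have := hmass (Sum.inl w)
          rw [hsub] at this
          unfold mass at this
          rwa [Finsupp.sum_single_index rfl] at this
        rintro (w | c)
        · exact hW w
        · have hsub : (τ (Sum.inr c)).support ⊆ {Sum.inr c} := by
            intro y hy
            obtain ⟨c', rfl⟩ := hinr c y hy
            have h0 : Sum.inl c'.1.1 ∈ (τ (Sum.inl c.1.1)).support := by
              rw [hs0 c]
              exact Finset.mem_image_of_mem (opsF 0) hy
            have h1 : Sum.inl c'.1.2 ∈ (τ (Sum.inl c.1.2)).support := by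
              rw [hs1 c]
              exact Finset.mem_image_of_mem (opsF 1) hy
            rw [← hσ, hrig, Finset.mem_singleton] at h0 h1
            have : c' = c := Subtype.ext (Prod.ext h0 h1)
            rw [this]
            simp
          rw [Finsupp.support_subset_singleton] at hsub
          rw [hsub]
          congr 1
          have := hmass (Sum.inr c)
          rw [hsub] at this
          unfold mass at this
          rwa [Finsupp.sum_single_index rfl] at this
      · intro w
        obtain ⟨y, hy⟩ := hne (Sum.inl w)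
        obtain ⟨z, rfl⟩ := hinl w y hy
        exact ⟨z, (hσ w z).2 hy⟩
      · intro a b hab z hz
        rw [hσ] at hz
        have e0 := hs0 ⟨(a, b), hab⟩
        have e1 := hs1 ⟨(a, b), hab⟩
        simp only at e0 e1
        rw [e0, Finset.mem_image] at hz
        obtain ⟨y, hy, hyz⟩ := hz
        obtain ⟨c', rfl⟩ := hinr _ y hy
        refine ⟨c'.1.2, ?_, ?_⟩
        · rw [hσ, e1]
          exact Finset.mem_image_of_mem (opsF 1) hy
        · have : c'.1.1 = z := Sum.inl_injective hyz
          rw [← this]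
          exact c'.2
      · intro a b hab w hw
        rw [hσ] at hw
        have e0 := hs0 ⟨(a, b), hab⟩
        have e1 := hs1 ⟨(a, b), hab⟩
        simp only at e0 e1
        rw [e1, Finset.mem_image] at hw
        obtain ⟨y, hy, hyz⟩ := hw
        obtain ⟨c', rfl⟩ := hinr _ y hy
        refine ⟨c'.1.1, ?_, ?_⟩
        · rw [hσ, e0]
          exact Finset.mem_image_of_mem (opsF 0) hy
        · have : c'.1.2 = w := Sum.inl_injective hyz
          rw [← this]
          exact c'.2
      · intro x hx z hz
        rw [hσ] at hz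
        by_contra hcon
        have : (Sum.inl z : Pt W) ∉ opsD B 3 := by
          rintro ⟨z', hz', hzz⟩
          rw [Sum.inl_injective hzz] at hz'
          exact hcon hz'
        exact (Finsupp.mem_support_iff.1 hz) ((hops 3 (Sum.inl x) ⟨x, hx, rfl⟩).1 _ this)
      · intro x hx n
        ext z
        rw [hσ, Finset.mem_image]
        have := hsupp (n + 3) (Sum.inl x) ⟨x, hx, rfl⟩
        change (τ (Sum.inl (lad n x))).support = _ at this
        rw [this, Finset.mem_image]
        constructor
        · rintro ⟨y, hy, hyz⟩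
          obtain ⟨z', rfl⟩ := hinl x y hy
          exact ⟨z', (hσ _ _).2 hy, Sum.inl_injective hyz⟩
        · rintro ⟨z', hz', rfl⟩
          exact ⟨Sum.inl z', (hσ _ _).1 hz', rfl⟩
  refine ⟨q, hq0, ?_, ?_⟩
  · intro v
    ext1 y
    apply ev_inj
    rw [T_formula]
    change ((v : (ops A).Cn) : Pt W →₀ ℚ[X]).sum (fun x p => ev p * ((τ x y : ℚ) : ℝ)) = _
    rw [Finsupp.smul_apply, map_smul, Finsupp.sum]
    have : ∀ x ∈ ((v : (ops A).Cn) : Pt W →₀ ℚ[X]).support,
        ev (((v : (ops A).Cn) : Pt W →₀ ℚ[X]) x) * ((τ x y : ℚ) : ℝ) =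
        if x = y then ev (((v : (ops A).Cn) : Pt W →₀ ℚ[X]) y) * (q : ℝ) else 0 := by
      intro x _
      rw [hmain x, Finsupp.single_apply]
      split_ifs with h
      · rw [h]
      · simp
    rw [Finset.sum_congr rfl this, Finset.sum_ite_eq']
    split_ifs with h
    · rw [mul_comm, Rat.smul_def]
    · rw [Finsupp.notMem_support_iff.1 h]
      simp
  · intro hqne w hw
    by_contra hcon
    have : (Sum.inl w : Pt W) ∉ opsD B 2 := by
      rintro ⟨z', hz', hzz⟩
      rw [Sum.inl_injective hzz] at hz'
      exact hcon hz'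
    have h2 := (hops 2 (Sum.inl w) ⟨w, hw, rfl⟩).1 _ this
    rw [hmain, Finsupp.single_eq_same] at h2
    exact hqne h2

end

end Pool.Agent.H38.EndQ
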