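import Pool.Agent.H38.EndQ.Code

/-!
The positive and the nonnegative cone of a system of operations: when they are solutions, maps
induced by homomorphisms of the systems, and supports of additive maps.
-/

open Polynomial

namespace Pool.Agent.H38.EndQ

universe u

noncomputable section

variable {P P' : Type u}

/-- The nonzero vectors of the cone, as an additive semigroup. -/
def Ops.Ps (O : Ops P) : AddSubsemigroup (P →₀ ℚ[X]) where
  carrier := {v | v ∈ O.Cn ∧ v ≠ 0}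
  add_mem' := by
    rintro v w ⟨h1, h2⟩ ⟨h3, _⟩
    exact ⟨O.Cn.add_mem h1 h3, fun h => h2 (cone_eq_zero h1 h3 h)⟩

theorem mem_Ps (O : Ops P) (v : P →₀ ℚ[X]) : v ∈ O.Ps ↔ v ∈ O.Cn ∧ v ≠ 0 := Iff.rfl

/-- The vectors of the cone, as an additive semigroup. -/
def Ops.Cs (O : Ops P) : AddSubsemigroup (P →₀ ℚ[X]) := O.Cn.toAddSubsemigroup

theorem mem_Cs (O : Ops P) (v : P →₀ ℚ[X]) : v ∈ O.Cs ↔ v ∈ O.Cn := Iff.rfl

theorem single_mem_Ps (O : Ops P) (x : P) : Finsupp.single x (C (1 : ℚ)) ∈ O.Ps :=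
  ⟨(O.e x).2, by
    rw [Ne, Finsupp.single_eq_zero]
    simp⟩

theorem nsmul_mem_Ps (O : Ops P) (x : P) (n : ℕ) :
    ((n : ℚ) + 1) • Finsupp.single x (C (1 : ℚ)) ∈ O.Ps :=
  ⟨smul_mem_cone (single_mem_Ps O x).1 (by positivity),
    smul_ne_zero (by positivity) (single_mem_Ps O x).2⟩

theorem Ps_infinite (O : Ops P) [Nonempty P] : (O.Ps : Set (P →₀ ℚ[X])).Infinite := by
  obtain ⟨x⟩ := ‹Nonempty P›
  refine Set.infinite_of_injective_forall_mem
    (f := fun n : ℕ => ((n : ℚ) + 1) • Finsupp.single x (C (1 : ℚ))) ?_ (nsmul_mem_Ps O x)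
  intro a b h
  have h1 := DFunLike.congr_fun h x
  simp only [Finsupp.smul_apply, Finsupp.single_eq_same] at h1
  have h2 := congrArg (fun p : ℚ[X] => p.coeff 0) h1
  simp only [coeff_smul, coeff_C_zero, smul_eq_mul, mul_one] at h2
  exact_mod_cast add_right_cancel h2

theorem Cs_infinite (O : Ops P) [Nonempty P] : (O.Cs : Set (P →₀ ℚ[X])).Infinite :=
  (Ps_infinite O).mono fun _ h => h.1

/-- A multiplicative map between positive cones comes from an additive map of the cones. -/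
theorem lift_pos (O : Ops P) (O' : Ops P') (φ : Multiplicative O.Ps →ₙ* Multiplicative O'.Ps) :
    ∃ T : O.Cn →+ O'.Cn, ∀ (v : P →₀ ℚ[X]) (hv : v ∈ O.Ps),
      ((T ⟨v, hv.1⟩ : O'.Cn) : P' →₀ ℚ[X]) = ((φ (Multiplicative.ofAdd ⟨v, hv⟩)).toAdd : O'.Ps) := by
  classical
  let f : O.Cn → O'.Cn := fun v =>
    if h : (v : P →₀ ℚ[X]) = 0 then 0 else
      ⟨((φ (Multiplicative.ofAdd ⟨v, v.2, h⟩)).toAdd : P' →₀ ℚ[X]),
        (φ (Multiplicative.ofAdd ⟨v, v.2, h⟩)).toAdd.2.1⟩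
  have hf0 : ∀ v : O.Cn, (v : P →₀ ℚ[X]) = 0 → f v = 0 := fun v h => dif_pos h
  have hf1 : ∀ (v : O.Cn) (h : (v : P →₀ ℚ[X]) ≠ 0), ((f v : O'.Cn) : P' →₀ ℚ[X]) =
      ((φ (Multiplicative.ofAdd ⟨v, v.2, h⟩)).toAdd : P' →₀ ℚ[X]) := by
    intro v h
    simp only [f, dif_neg h]
  let T : O.Cn →+ O'.Cn :=
    { toFun := f
      map_zero' := hf0 0 rfl
      map_add' := by
        intro v w
        by_cases hv : (v : P →₀ ℚ[X]) = 0
        · have : v = 0 := Subtype.ext hv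
          rw [this, zero_add, hf0 0 rfl, zero_add]
        by_cases hw : (w : P →₀ ℚ[X]) = 0
        · have : w = 0 := Subtype.ext hw
          rw [this, add_zero, hf0 0 rfl, add_zero]
        have hvw : ((v + w : O.Cn) : P →₀ ℚ[X]) ≠ 0 :=
          fun h => hv (cone_eq_zero v.2 w.2 h)
        apply Subtype.ext
        rw [AddSubmonoid.coe_add, hf1 _ hvw, hf1 _ hv, hf1 _ hw]
        have : (Multiplicative.ofAdd (⟨((v + w : O.Cn) : P →₀ ℚ[X]), (v + w).2, hvw⟩ :
            O.Ps)) = Multiplicative.ofAdd (⟨v, v.2, hv⟩ : O.Ps) *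
              Multiplicative.ofAdd (⟨w, w.2, hw⟩ : O.Ps) := rfl
        rw [this, map_mul, toAdd_mul]
        rfl }
  exact ⟨T, fun v hv => hf1 ⟨v, hv.1⟩ hv.2⟩

/-- A multiplicative map between cones is an additive map. -/
theorem lift_nonneg (O : Ops P) (O' : Ops P')
    (φ : Multiplicative O.Cs →ₙ* Multiplicative O'.Cs) :
    ∃ T : O.Cn →+ O'.Cn, ∀ (v : P →₀ ℚ[X]) (hv : v ∈ O.Cs),
      ((T ⟨v, hv⟩ : O'.Cn) : P' →₀ ℚ[X]) = ((φ (Multiplicative.ofAdd ⟨v, hv⟩)).toAdd : O'.Cs) := by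
  let f : O.Cs → O'.Cs := fun v => (φ (Multiplicative.ofAdd v)).toAdd
  have hf : ∀ v w, f (v + w) = f v + f w := by
    intro v w
    simp only [f]
    rw [ofAdd_add, map_mul, toAdd_mul]
  let T : O.Cn →+ O'.Cn :=
    { toFun := fun v => ⟨f ⟨v, v.2⟩, (f ⟨v, v.2⟩).2⟩
      map_zero' := by
        have h1 := hf ⟨0, O.Cn.zero_mem⟩ ⟨0, O.Cn.zero_mem⟩
        have h0 : (⟨0, O.Cn.zero_mem⟩ : O.Cs) + ⟨0, O.Cn.zero_mem⟩ = ⟨0, O.Cn.zero_mem⟩ :=
          Subtype.ext (add_zero _)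
        rw [h0] at h1
        have h2 := congrArg (fun x : O'.Cs => (x : P' →₀ ℚ[X])) h1
        simp only [AddMemClass.coe_add] at h2
        apply Subtype.ext
        exact add_eq_left.1 h2.symm
      map_add' := by
        intro v w
        have h1 := hf ⟨v, v.2⟩ ⟨w, w.2⟩
        have h2 := congrArg (fun x : O'.Cs => (x : P' →₀ ℚ[X])) h1
        apply Subtype.ext
        exact h2 }
  exact ⟨T, fun v hv => rfl⟩

theorem ppow_Ps_val (O : Ops P) (v : Multiplicative O.Ps) (n : ℕ) :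
    ((ppow v n).toAdd : P →₀ ℚ[X]) = ((n : ℚ) + 1) • (v.toAdd : P →₀ ℚ[X]) := by
  induction n with
  | zero => simp [ppow]
  | succ n ih =>
    rw [ppow, toAdd_mul, AddMemClass.coe_add, ih]
    push_cast
    rw [add_smul ((n : ℚ) + 1) 1, one_smul]

theorem ppow_Cs_val (O : Ops P) (v : Multiplicative O.Cs) (n : ℕ) :
    ((ppow v n).toAdd : P →₀ ℚ[X]) = ((n : ℚ) + 1) • (v.toAdd : P →₀ ℚ[X]) := by
  induction n with
  | zero => simp [ppow]
  | succ n ih =>
    rw [ppow, toAdd_mul, AddMemClass.coe_add, ih]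
    push_cast
    rw [add_smul ((n : ℚ) + 1) 1, one_smul]

/-- Every additive map of the cone into itself is multiplication by a nonnegative rational. -/
def Ops.Rigid (O : Ops P) : Prop :=
  ∀ T : O.Cn →+ O.Cn, ∃ q : ℚ, 0 ≤ q ∧ ∀ v, ((T v : O.Cn) : P →₀ ℚ[X]) = q • (v : P →₀ ℚ[X])

theorem sol_pos [Nonempty P] {O : Ops P} (h : O.Rigid) : EndIsPosRat (Multiplicative O.Ps) := by
  obtain ⟨x0⟩ := ‹Nonempty P›
  have : Nonempty (Multiplicative O.Ps) := ⟨Multiplicative.ofAdd ⟨_, single_mem_Ps O x0⟩⟩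
  apply char_pos_backward
  · intro n
    have hn : ((n : ℚ) + 1) ≠ 0 := by positivity
    constructor
    · intro v w h
      have h1 := congrArg (fun x : Multiplicative O.Ps => (x.toAdd : P →₀ ℚ[X])) h
      simp only [ppow_Ps_val] at h1
      apply Multiplicative.toAdd.injective
      apply Subtype.ext
      exact smul_right_injective _ hn h1
    · intro v
      have hmem : ((n : ℚ) + 1)⁻¹ • (v.toAdd : P →₀ ℚ[X]) ∈ O.Ps := by
        refine ⟨smul_mem_cone v.toAdd.2.1 (by positivity), ?_⟩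
        exact smul_ne_zero (inv_ne_zero hn) v.toAdd.2.2
      refine ⟨Multiplicative.ofAdd ⟨_, hmem⟩, ?_⟩
      apply Multiplicative.toAdd.injective
      apply Subtype.ext
      rw [ppow_Ps_val]
      change ((n : ℚ) + 1) • (((n : ℚ) + 1)⁻¹ • (v.toAdd : P →₀ ℚ[X])) = _
      rw [smul_smul, mul_inv_cancel₀ hn, one_smul]
  · intro v h
    have h1 := congrArg (fun x : Multiplicative O.Ps => (x.toAdd : P →₀ ℚ[X])) h
    simp only [toAdd_mul, AddMemClass.coe_add] at h1
    exact v.toAdd.2.2 (add_eq_left.1 h1)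
  · intro φ
    obtain ⟨T, hT⟩ := lift_pos O O φ
    obtain ⟨q, hq, hTq⟩ := h T
    have hφ : ∀ v : Multiplicative O.Ps, ((φ v).toAdd : P →₀ ℚ[X]) = q • (v.toAdd : P →₀ ℚ[X]) := by
      intro v
      rw [← hTq ⟨v.toAdd, v.toAdd.2.1⟩, hT _ v.toAdd.2]
      rfl
    have hq0 : q ≠ 0 := by
      intro h0
      have h1 := hφ (Multiplicative.ofAdd ⟨_, single_mem_Ps O x0⟩)
      rw [h0, zero_smul] at h1
      exact (φ (Multiplicative.ofAdd ⟨_, single_mem_Ps O x0⟩)).toAdd.2.2 h1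
    obtain ⟨m, n, hmn⟩ := rat_as_quot (lt_of_le_of_ne hq (Ne.symm hq0))
    refine ⟨m, n, fun v => ?_⟩
    apply Multiplicative.toAdd.injective
    apply Subtype.ext
    rw [ppow_Ps_val, ppow_Ps_val, hφ, smul_smul, hmn]

theorem sol_nonneg [Nonempty P] {O : Ops P} (h : O.Rigid) :
    EndIsNonnegRat (Multiplicative O.Cs) := by
  obtain ⟨x0⟩ := ‹Nonempty P›
  refine char_nonneg_backward ?_ (Multiplicative.ofAdd ⟨0, O.Cn.zero_mem⟩) ?_ ?_ ?_ ?_
  · intro n
    have hn : ((n : ℚ) + 1) ≠ 0 := by positivity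
    constructor
    · intro v w h
      have h1 := congrArg (fun x : Multiplicative O.Cs => (x.toAdd : P →₀ ℚ[X])) h
      simp only [ppow_Cs_val] at h1
      apply Multiplicative.toAdd.injective
      apply Subtype.ext
      exact smul_right_injective _ hn h1
    · intro v
      have hmem : ((n : ℚ) + 1)⁻¹ • (v.toAdd : P →₀ ℚ[X]) ∈ O.Cs :=
        smul_mem_cone v.toAdd.2 (by positivity)
      refine ⟨Multiplicative.ofAdd ⟨_, hmem⟩, ?_⟩
      apply Multiplicative.toAdd.injective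
      apply Subtype.ext
      rw [ppow_Cs_val]
      change ((n : ℚ) + 1) • (((n : ℚ) + 1)⁻¹ • (v.toAdd : P →₀ ℚ[X])) = _
      rw [smul_smul, mul_inv_cancel₀ hn, one_smul]
  · intro v
    apply Multiplicative.toAdd.injective
    apply Subtype.ext
    exact add_zero _
  · intro v h
    have h1 := congrArg (fun x : Multiplicative O.Cs => (x.toAdd : P →₀ ℚ[X])) h
    simp only [toAdd_mul, AddMemClass.coe_add] at h1
    apply Multiplicative.toAdd.injective
    apply Subtype.ext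
    exact add_eq_left.1 h1
  · refine ⟨Multiplicative.ofAdd ⟨_, (single_mem_Ps O x0).1⟩, ?_⟩
    intro h
    have h1 := congrArg (fun x : Multiplicative O.Cs => (x.toAdd : P →₀ ℚ[X])) h
    exact (single_mem_Ps O x0).2 h1
  · intro φ
    obtain ⟨T, hT⟩ := lift_nonneg O O φ
    obtain ⟨q, hq, hTq⟩ := h T
    have hφ : ∀ v : Multiplicative O.Cs, ((φ v).toAdd : P →₀ ℚ[X]) = q • (v.toAdd : P →₀ ℚ[X]) := by
      intro v
      exact (hT v.toAdd v.toAdd.2).symm.trans (hTq _)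
    rcases hq.eq_or_lt with hq0 | hq
    · left
      intro v
      apply Multiplicative.toAdd.injective
      apply Subtype.ext
      rw [hφ, ← hq0, zero_smul]
      rfl
    · right
      obtain ⟨m, n, hmn⟩ := rat_as_quot hq
      refine ⟨m, n, fun v => ?_⟩
      apply Multiplicative.toAdd.injective
      apply Subtype.ext
      rw [ppow_Cs_val, ppow_Cs_val, hφ, smul_smul, hmn]

theorem not_sol_pos {O : Ops P} (T : O.Cn →+ O.Cn)
    (h0 : ∀ v, ((T v : O.Cn) : P →₀ ℚ[X]) = 0 → (v : P →₀ ℚ[X]) = 0)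
    (h : ¬ ∃ q : ℚ, ∀ v, ((T v : O.Cn) : P →₀ ℚ[X]) = q • (v : P →₀ ℚ[X])) :
    ¬ EndIsPosRat (Multiplicative O.Ps) := by
  intro hsol
  let φ : Multiplicative O.Ps →ₙ* Multiplicative O.Ps :=
    { toFun := fun v => Multiplicative.ofAdd ⟨(T ⟨v.toAdd, v.toAdd.2.1⟩ : O.Cn),
        (T ⟨v.toAdd, v.toAdd.2.1⟩).2, fun hv => v.toAdd.2.2 (h0 _ hv)⟩
      map_mul' := by
        intro v w
        apply Multiplicative.toAdd.injective
        apply Subtype.ext
        change ((T (⟨v.toAdd, v.toAdd.2.1⟩ + ⟨w.toAdd, w.toAdd.2.1⟩) : O.Cn) : P →₀ ℚ[X]) = _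
        rw [map_add]
        rfl }
  obtain ⟨m, n, hmn⟩ := (char_pos_forward hsol).2.2 φ
  apply h
  refine ⟨((m : ℚ) + 1) / ((n : ℚ) + 1), fun v => ?_⟩
  by_cases hv : (v : P →₀ ℚ[X]) = 0
  · have hv' : v = 0 := Subtype.ext hv
    rw [hv', map_zero]
    simp
  · have h1 := congrArg (fun x : Multiplicative O.Ps => (x.toAdd : P →₀ ℚ[X]))
      (hmn (Multiplicative.ofAdd ⟨v, v.2, hv⟩))
    simp only [ppow_Ps_val] at h1
    change ((n : ℚ) + 1) • ((T v : O.Cn) : P →₀ ℚ[X]) = ((m : ℚ) + 1) • (v : P →₀ ℚ[X]) at h1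
    have hn : ((n : ℚ) + 1) ≠ 0 := by positivity
    rw [div_eq_inv_mul, ← smul_smul, ← h1, smul_smul, inv_mul_cancel₀ hn, one_smul]

theorem not_sol_nonneg {O : Ops P} (T : O.Cn →+ O.Cn)
    (h : ¬ ∃ q : ℚ, ∀ v, ((T v : O.Cn) : P →₀ ℚ[X]) = q • (v : P →₀ ℚ[X])) :
    ¬ EndIsNonnegRat (Multiplicative O.Cs) := by
  intro hsol
  let φ : Multiplicative O.Cs →ₙ* Multiplicative O.Cs :=
    { toFun := fun v => Multiplicative.ofAdd ⟨(T ⟨v.toAdd, v.toAdd.2⟩ : O.Cn),
        (T ⟨v.toAdd, v.toAdd.2⟩).2⟩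
      map_mul' := by
        intro v w
        apply Multiplicative.toAdd.injective
        apply Subtype.ext
        change ((T (⟨v.toAdd, v.toAdd.2⟩ + ⟨w.toAdd, w.toAdd.2⟩) : O.Cn) : P →₀ ℚ[X]) = _
        rw [map_add]
        rfl }
  obtain ⟨_, e, _, he, _, hch⟩ := char_nonneg_forward hsol
  have he0 : Multiplicative.ofAdd (⟨0, O.Cn.zero_mem⟩ : O.Cs) = e := by
    apply he
    apply Multiplicative.toAdd.injective
    apply Subtype.ext
    exact add_zero _
  apply h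
  rcases hch φ with h1 | ⟨m, n, hmn⟩
  · refine ⟨0, fun v => ?_⟩
    have h2 := h1 (Multiplicative.ofAdd ⟨v, v.2⟩)
    rw [← he0] at h2
    have h3 := congrArg (fun x : Multiplicative O.Cs => (x.toAdd : P →₀ ℚ[X])) h2
    change ((T v : O.Cn) : P →₀ ℚ[X]) = 0 at h3
    rw [h3, zero_smul]
  · refine ⟨((m : ℚ) + 1) / ((n : ℚ) + 1), fun v => ?_⟩
    have h1 := congrArg (fun x : Multiplicative O.Cs => (x.toAdd : P →₀ ℚ[X]))
      (hmn (Multiplicative.ofAdd ⟨v, v.2⟩))
    simp only [ppow_Cs_val] at h1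
    change ((n : ℚ) + 1) • ((T v : O.Cn) : P →₀ ℚ[X]) = ((m : ℚ) + 1) • (v : P →₀ ℚ[X]) at h1
    have hn : ((n : ℚ) + 1) ≠ 0 := by positivity
    rw [div_eq_inv_mul, ← smul_smul, ← h1, smul_smul, inv_mul_cancel₀ hn, one_smul]

/-! ### Maps induced by homomorphisms of systems of operations -/

theorem cf_mapDomain (h : P → P') (k : ℕ) (v : P →₀ ℚ[X]) :
    cf k (Finsupp.mapDomain h v) = Finsupp.mapDomain h (cf k v) := by
  unfold cf
  rw [Finsupp.mapRange.linearMap_apply, Finsupp.mapRange.linearMap_apply]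
  exact (Finsupp.mapDomain_mapRange h v (Polynomial.lcoeff ℚ k) (map_zero _)
    (fun x y => map_add _ x y)).symm

theorem mapDomain_mem (O : Ops P) (O' : Ops P') (h : P → P')
    (hh : ∀ i, ∀ x ∈ O.D i, h x ∈ O'.D i ∧ h (O.f i x) = O'.f i (h x)) {v : P →₀ ℚ[X]}
    (hv : v ∈ O.Cn) : Finsupp.mapDomain h v ∈ O'.Cn := by
  classical
  obtain ⟨⟨h1, h2⟩, h3⟩ := hv
  refine ⟨⟨?_, fun i => ⟨?_, ?_, ?_, ?_⟩⟩, ?_⟩
  · rw [cf_mapDomain, h1, Finsupp.mapDomain_zero]
  · rw [cf_mapDomain, (h2 i).1, Finsupp.mapDomain_zero]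
  · rw [cf_mapDomain, (h2 i).2.1, Finsupp.mapDomain_zero]
  · intro y hy
    rw [cf_mapDomain, Finsupp.mapDomain, Finsupp.sum_apply]
    refine Finset.sum_eq_zero fun x _ => ?_
    beta_reduce
    rw [Finsupp.single_apply]
    split_ifs with hxy
    · apply (h2 i).2.2.1
      intro hx
      apply hy
      rw [← hxy]
      exact (hh i x hx).1
    · rfl
  · rw [cf_mapDomain, cf_mapDomain, (h2 i).2.2.2, ← Finsupp.mapDomain_comp,
      ← Finsupp.mapDomain_comp]
    apply Finsupp.mapDomain_congr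
    intro x hx
    refine (hh i x ?_).2
    by_contra hcon
    exact (Finsupp.mem_support_iff.1 hx) ((h2 i).2.2.1 x hcon)
  · intro y
    rw [Finsupp.mapDomain, Finsupp.sum_apply, Finsupp.sum, map_sum]
    refine Finset.sum_nonneg fun x _ => ?_
    beta_reduce
    rw [Finsupp.single_apply]
    split_ifs
    · exact h3 x
    · simp

/-- The additive map induced by a homomorphism of systems of operations. -/
def indMap (O : Ops P) (O' : Ops P') (h : P → P')
    (hh : ∀ i, ∀ x ∈ O.D i, h x ∈ O'.D i ∧ h (O.f i x) = O'.f i (h x)) : O.Cn →+ O'.Cn where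
  toFun v := ⟨Finsupp.mapDomain h (v : P →₀ ℚ[X]), mapDomain_mem O O' h hh v.2⟩
  map_zero' := Subtype.ext (Finsupp.mapDomain_zero (f := h))
  map_add' v w := Subtype.ext (Finsupp.mapDomain_add (f := h) (v₁ := (v : P →₀ ℚ[X])) (v₂ := w))

theorem coe_indMap (O : Ops P) (O' : Ops P') (h : P → P')
    (hh : ∀ i, ∀ x ∈ O.D i, h x ∈ O'.D i ∧ h (O.f i x) = O'.f i (h x)) (v : O.Cn) :
    ((indMap O O' h hh v : O'.Cn) : P' →₀ ℚ[X]) = Finsupp.mapDomain h (v : P →₀ ℚ[X]) := rfl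

theorem mapDomain_eq_zero {O : Ops P} (h : P → P') {v : P →₀ ℚ[X]} (hv : v ∈ O.Cn)
    (h0 : Finsupp.mapDomain h v = 0) : v = 0 := by
  have h1 : (Finsupp.mapDomain h v).sum (fun _ p => ev p) = v.sum fun _ p => ev p :=
    Finsupp.sum_mapDomain_index (fun _ => map_zero _) (fun _ _ _ => map_add _ _ _)
  rw [h0, Finsupp.sum_zero_index] at h1
  unfold Finsupp.sum at h1
  have h2 := (Finset.sum_eq_zero_iff_of_nonneg (fun i _ => hv.2 i)).1 h1.symm
  ext1 y
  by_cases hy : y ∈ v.support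
  · apply ev_inj
    rw [h2 y hy]
    simp
  · rw [Finsupp.notMem_support_iff.1 hy]
    simp

/-- A homomorphism of the system into itself other than the identity prevents the two cones from
being solutions. -/
theorem not_sol_of_hom {O : Ops P} (h : P → P)
    (hh : ∀ i, ∀ x ∈ O.D i, h x ∈ O.D i ∧ h (O.f i x) = O.f i (h x)) {x : P} (hx : h x ≠ x) :
    ¬ EndIsPosRat (Multiplicative O.Ps) ∧ ¬ EndIsNonnegRat (Multiplicative O.Cs) := by
  have hns : ¬ ∃ q : ℚ, ∀ v, ((indMap O O h hh v : O.Cn) : P →₀ ℚ[X]) = q • (v : P →₀ ℚ[X]) := by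
    rintro ⟨q, hq⟩
    have h1 := hq (O.e x)
    rw [coe_indMap, coe_e, Finsupp.mapDomain_single] at h1
    have h2 := DFunLike.congr_fun h1 (h x)
    rw [Finsupp.single_eq_same, Finsupp.smul_apply, Finsupp.single_eq_of_ne hx, smul_zero] at h2
    simp at h2
  exact ⟨not_sol_pos _ (fun v hv => mapDomain_eq_zero h v.2 hv) hns, not_sol_nonneg _ hns⟩

/-! ### Supports of additive maps -/

theorem mat_supp [DecidableEq P'] (O : Ops P) (O' : Ops P') (T : O.Cn →+ O'.Cn) (i : ℕ) (x : P)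
    (hx : x ∈ O.D i) :
    (∀ y ∈ (mat O O' T x).support, y ∈ O'.D i) ∧
      (mat O O' T (O.f i x)).support = (mat O O' T x).support.image (O'.f i) := by
  obtain ⟨h1, h2⟩ := mat_ops O O' T i x hx
  refine ⟨fun y hy => ?_, ?_⟩
  · by_contra hcon
    exact (Finsupp.mem_support_iff.1 hy) (h1 y hcon)
  · rw [h2, supp_mapDomain _ _ (mat_nonneg O O' T x)]

theorem mat_mass (O : Ops P) (O' : Ops P') (T : O.Cn →+ O'.Cn) (i : ℕ) (x : P)
    (hx : x ∈ O.D i) : mass (mat O O' T (O.f i x)) = mass (mat O O' T x) := by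
  rw [(mat_ops O O' T i x hx).2, mass_mapDomain]

/-- If some operation is defined everywhere and constant then every additive map is zero or has
nonempty supports and constant total masses. -/
theorem mat_const (O : Ops P) (O' : Ops P') (T : O.Cn →+ O'.Cn) (i : ℕ) (b : P)
    (hD : ∀ x, x ∈ O.D i) (hb : ∀ x, O.f i x = b) :
    0 ≤ mass (mat O O' T b) ∧ ∀ x, mass (mat O O' T x) = mass (mat O O' T b) := by
  refine ⟨Finsupp.sum_nonneg fun y _ => mat_nonneg _ _ _ _ _, fun x => ?_⟩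
  rw [← hb x, mat_mass O O' T i x (hD x)]

/-- If the supports are the points `h x` then the map is a multiple of the map induced by `h`. -/
theorem T_of_supp (O : Ops P) (O' : Ops P') (T : O.Cn →+ O'.Cn) (q : ℚ) (h : P → P')
    (hm : ∀ x, mass (mat O O' T x) = q) (hs : ∀ x, ∀ y ∈ (mat O O' T x).support, y = h x)
    (v : O.Cn) :
    ((T v : O'.Cn) : P' →₀ ℚ[X]) = q • Finsupp.mapDomain h (v : P →₀ ℚ[X]) := by
  classical
  have hmain : ∀ x, mat O O' T x = Finsupp.single (h x) q := by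
    intro x
    have hsub : (mat O O' T x).support ⊆ {h x} := by
      intro y hy
      rw [Finset.mem_singleton]
      exact hs x y hy
    rw [Finsupp.support_subset_singleton] at hsub
    rw [hsub]
    congr 1
    have := hm x
    rw [hsub] at this
    unfold mass at this
    rwa [Finsupp.sum_single_index rfl] at this
  ext1 y
  apply ev_inj
  rw [T_formula, Finsupp.smul_apply, map_smul, Finsupp.mapDomain, Finsupp.sum_apply, Finsupp.sum,
    Finsupp.sum, map_sum, Finset.smul_sum]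
  refine Finset.sum_congr rfl fun x _ => ?_
  beta_reduce
  rw [hmain x, Finsupp.single_apply, Finsupp.single_apply]
  split_ifs with hxy
  · rw [mul_comm, Rat.smul_def]
  · simp

/-- Rigidity from the supports. -/
theorem rigid_of_supp (O : Ops P) (i : ℕ) (b : P) (hD : ∀ x, x ∈ O.D i) (hb : ∀ x, O.f i x = b)
    (h : ∀ T : O.Cn →+ O.Cn, (∀ x, (mat O O T x).support.Nonempty) →
      ∀ x, ∀ y ∈ (mat O O T x).support, y = x) : O.Rigid := by
  intro T
  obtain ⟨h0, hm⟩ := mat_const O O T i b hD hb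
  refine ⟨mass (mat O O T b), h0, fun v => ?_⟩
  have hs : ∀ x, ∀ y ∈ (mat O O T x).support, y = x := by
    by_cases hq : mass (mat O O T b) = 0
    · intro x y hy
      exfalso
      have : mat O O T x = 0 := mass_eq_zero (mat_nonneg _ _ _ _) (by rw [hm x, hq])
      rw [this] at hy
      simp at hy
    · apply h T
      intro x
      rw [Finset.nonempty_iff_ne_empty, Ne, Finsupp.support_eq_empty]
      intro h1
      apply hq
      rw [← hm x, h1]
      rfl
  have := T_of_supp O O T _ id hm hs v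
  rw [Finsupp.mapDomain_id] at this
  exact this

end

end Pool.Agent.H38.EndQ
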