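import Pool.Agent.H38.EndQ.Complete
import Pool.Agent.H38.EndQ.Iso
import Pool.Agent.H85.EQ.Gen

/-!
Isomorphism of extensional relations of bounded rank reduces to isomorphism of solutions.
-/

open Polynomial MeasureTheory

namespace Pool.Agent.H38.EndQ

noncomputable section

variable (W : Type) [LinearOrder W] [WellFoundedLT W] [Countable W]

/-- The rank of `n` is at most `w`. -/
inductive Rk (E : ℕ → ℕ → Bool) : W → ℕ → Prop
  | mk (w : W) (n : ℕ) (v : ∀ i, E i n = true → W) (hv : ∀ i h, v i h < w)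
      (h : ∀ i h, Rk E (v i h) i) : Rk E w n

omit [WellFoundedLT W] [Countable W] in
theorem rk_iff (E : ℕ → ℕ → Bool) (w : W) (n : ℕ) :
    Rk W E w n ↔ ∀ i, E i n = true → ∃ v, v < w ∧ Rk W E v i := by
  constructor
  · rintro ⟨_, _, v, hv, h⟩ i hi
    exact ⟨v i hi, hv i hi, h i hi⟩
  · intro h
    choose v hv using h
    exact Rk.mk w n v (fun i hi => (hv i hi).1) fun i hi => (hv i hi).2

/-- Points: a base point, the numbers and the pairs of numbers. -/
inductive Px : Type
  | b : Px
  | v : ℕ → Px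
  | p : ℕ → ℕ → Px
  deriving Countable

instance : Nonempty Px := ⟨Px.b⟩

instance : Infinite Px := Infinite.of_injective Px.v fun a b h => by simpa using h

omit [LinearOrder W] [WellFoundedLT W] in
theorem exists_en : ∃ f : ℕ → Option W, Function.Surjective f := exists_surjective_nat (Option W)

/-- An enumeration of `W`. -/
def en : ℕ → Option W := (exists_en W).choose

omit [LinearOrder W] [WellFoundedLT W] in
theorem en_surj : Function.Surjective (en W) := (exists_en W).choose_spec

/-- Pairs on which `E` has the value `c`. -/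
def Pr (E : ℕ → ℕ → Bool) (c : Bool) : Set Px := {x | ∃ m n, E m n = c ∧ x = Px.p m n}

/-- Numbers of rank at most `w`. -/
def Dw (E : ℕ → ℕ → Bool) (o : Option W) : Set Px := {x | ∃ w, o = some w ∧ ∃ n, Rk W E w n ∧ x = Px.v n}

/-- First coordinate. -/
def pf : Px → Px
  | .p m _ => .v m
  | x => x

/-- Second coordinate. -/
def ps : Px → Px
  | .p _ n => .v n
  | x => x

/-- Domains. -/
def wD (E : ℕ → ℕ → Bool) : ℕ → Set Px
  | 0 => Set.univ
  | 1 => Pr E true
  | 2 => Pr E true
  | 3 => Pr E false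
  | 4 => Pr E false
  | i + 5 => Dw W E (en W i)

/-- Operations. -/
def wF : ℕ → Px → Px
  | 0 => fun _ => Px.b
  | 1 => pf
  | 2 => ps
  | 3 => pf
  | 4 => ps
  | _ + 5 => id

/-- The system of operations of a relation. -/
def wops (E : ℕ → ℕ → Bool) : Ops Px := ⟨wD W E, wF⟩

variable {W}

omit [Countable W] in
theorem rk_of_code {E : ℕ → ℕ → Bool} {r : ℕ → W} (hr : ∀ i j, E i j = true → r i < r j) (n : ℕ) :
    Rk W E (r n) n := by
  have key : ∀ w : W, ∀ n, r n = w → Rk W E w n := by
    intro w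
    induction w using WellFoundedLT.induction with
    | ind w ih =>
      intro n hn
      rw [rk_iff]
      intro i hi
      have h1 := hr i n hi
      rw [hn] at h1
      exact ⟨r i, h1, ih _ h1 i rfl⟩
  exact key _ n rfl

theorem v_mem {E : ℕ → ℕ → Bool} {w : W} {n : ℕ} (h : Rk W E w n) :
    ∃ i, en W i = some w ∧ Px.v n ∈ wD W E (i + 5) := by
  obtain ⟨i, hi⟩ := en_surj W (some w)
  exact ⟨i, hi, w, hi, n, h, rfl⟩

theorem pair_dom (E : ℕ → ℕ → Bool) (m n : ℕ) : ∃ i j, wF i = pf ∧ wF j = ps ∧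
    wD W E i = Pr E (E m n) ∧ wD W E j = Pr E (E m n) := by
  cases E m n with
  | true => exact ⟨1, 2, rfl, rfl, rfl, rfl⟩
  | false => exact ⟨3, 4, rfl, rfl, rfl, rfl⟩

theorem code_rigid {E : ℕ → ℕ → Bool} (hE : IsCode W E) : (wops W E).Rigid := by
  classical
  obtain ⟨hext, r, hr⟩ := hE
  refine rigid_of_supp (wops W E) 0 Px.b (fun x => trivial) (fun x => rfl) ?_
  intro Θ hne
  set σ : Px → Finset Px := fun x => (mat (wops W E) (wops W E) Θ x).support with hσ
  have hop : ∀ i x, x ∈ wD W E i → (∀ y ∈ σ x, y ∈ wD W E i) ∧ σ (wF i x) = (σ x).image (wF i) :=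
    fun i x hx => mat_supp (wops W E) (wops W E) Θ i x hx
  -- pairs
  have hp : ∀ m n, (∀ y ∈ σ (Px.p m n), ∃ m' n', y = Px.p m' n' ∧ E m' n' = E m n ∧
      Px.v m' ∈ σ (Px.v m) ∧ Px.v n' ∈ σ (Px.v n)) ∧
      (∀ k, Px.v k ∈ σ (Px.v n) → ∃ m', E m' k = E m n ∧ Px.v m' ∈ σ (Px.v m)) := by
    intro m n
    obtain ⟨i, j, hi, hj, hDi, hDj⟩ := pair_dom (W := W) E m n
    have hmi : Px.p m n ∈ wD W E i := by rw [hDi]; exact ⟨m, n, rfl, rfl⟩
    have hmj : Px.p m n ∈ wD W E j := by rw [hDj]; exact ⟨m, n, rfl, rfl⟩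
    have h1 := hop i _ hmi
    have h2 := hop j _ hmj
    rw [hi, hDi] at h1
    rw [hj, hDj] at h2
    have hall : ∀ y ∈ σ (Px.p m n), ∃ m' n', y = Px.p m' n' ∧ E m' n' = E m n ∧
        Px.v m' ∈ σ (Px.v m) ∧ Px.v n' ∈ σ (Px.v n) := by
      intro y hy
      obtain ⟨m', n', hE', rfl⟩ := h1.1 y hy
      refine ⟨m', n', rfl, hE', ?_, ?_⟩
      · rw [show σ (Px.v m) = (σ (Px.p m n)).image pf from h1.2]
        exact Finset.mem_image.2 ⟨_, hy, rfl⟩
      · rw [show σ (Px.v n) = (σ (Px.p m n)).image ps from h2.2]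
        exact Finset.mem_image.2 ⟨_, hy, rfl⟩
    refine ⟨hall, fun k hk => ?_⟩
    rw [show σ (Px.v n) = (σ (Px.p m n)).image ps from h2.2] at hk
    obtain ⟨y, hy, hyk⟩ := Finset.mem_image.1 hk
    obtain ⟨m', n', rfl, hE', h3, _⟩ := hall y hy
    have h4 : n' = k := by simpa [ps] using hyk
    subst h4
    exact ⟨m', hE', h3⟩
  have hv : ∀ w : W, ∀ n, Rk W E w n → ∀ y ∈ σ (Px.v n), y = Px.v n := by
    intro w
    induction w using WellFoundedLT.induction with
    | ind w ih =>
      intro n hn y hy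
      obtain ⟨i, hi, hmem⟩ := v_mem hn
      obtain ⟨w', hw', k, hk, rfl⟩ := (hop _ _ hmem).1 y hy
      rw [hi] at hw'
      have hww : w = w' := Option.some_injective _ hw'
      subst hww
      have hkn : k = n := by
        apply hext
        intro m
        obtain ⟨m', hm', hm2⟩ := (hp m n).2 k hy
        by_cases h : E m n = true
        · obtain ⟨u, hu, hum⟩ := (rk_iff W E w n).1 hn m h
          have h3 := ih u hu m hum _ hm2
          have h4 : m' = m := by simpa using h3
          rw [← hm', h4]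
        · by_cases h' : E m k = true
          · obtain ⟨u, hu, hum⟩ := (rk_iff W E w k).1 hk m h'
            have h3 := ih u hu m hum _ hm2
            have h4 : m' = m := by simpa using h3
            rw [← hm', h4]
          · rw [Bool.not_eq_true] at h h'
            rw [h, h']
      rw [hkn]
  have hv2 : ∀ n, ∀ y ∈ σ (Px.v n), y = Px.v n := fun n => hv _ n (rk_of_code hr n)
  intro x y hy
  match x with
  | .b =>
    have h1 := (hop 0 Px.b trivial).2
    have h2 : y ∈ (σ Px.b).image (wF 0) := by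
      rw [← show σ Px.b = (σ Px.b).image (wF 0) from h1]
      exact hy
    obtain ⟨z, _, hz⟩ := Finset.mem_image.1 h2
    exact hz.symm
  | .v n => exact hv2 n y hy
  | .p m n =>
    obtain ⟨m', n', rfl, _, h1, h2⟩ := (hp m n).1 y hy
    have h3 : m' = m := by simpa using hv2 m _ h1
    have h4 : n' = n := by simpa using hv2 n _ h2
    rw [h3, h4]

/-- The map of points given by a permutation of the numbers. -/
def pm (π : ℕ → ℕ) : Px → Px
  | .b => .b
  | .v n => .v (π n)
  | .p m n => .p (π m) (π n)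

omit [WellFoundedLT W] [Countable W] in
theorem rk_iso {E E' : ℕ → ℕ → Bool} {π : Equiv.Perm ℕ} (hπ : ∀ i j, E i j = E' (π i) (π j))
    {w : W} {n : ℕ} (h : Rk W E w n) : Rk W E' w (π n) := by
  induction h with
  | mk w n v hv h ih =>
    rw [rk_iff]
    intro i hi
    have h1 : E (π.symm i) n = true := by
      rw [hπ, Equiv.apply_symm_apply]
      exact hi
    have h2 := ih (π.symm i) h1
    rw [Equiv.apply_symm_apply] at h2
    exact ⟨_, hv _ h1, h2⟩

theorem code_iso {E E' : ℕ → ℕ → Bool} (hE : IsCode W E) (hE' : IsCode W E') :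
    (∃ h : Px ≃ Px, OpsIso (wops W E) (wops W E') h) ↔ RelIso E E' := by
  constructor
  · rintro ⟨h, H⟩
    obtain ⟨_, r, hr⟩ := hE
    obtain ⟨_, r', hr'⟩ := hE'
    have h1 : ∀ n, ∃ k, h (Px.v n) = Px.v k := by
      intro n
      obtain ⟨i, hi, hmem⟩ := v_mem (rk_of_code hr n)
      obtain ⟨w', _, k, _, hk⟩ := (H (i + 5) (Px.v n)).1.1 hmem
      exact ⟨k, hk⟩
    have h2 : ∀ n, ∃ k, h.symm (Px.v n) = Px.v k := by
      intro n
      obtain ⟨i, hi, hmem⟩ := v_mem (rk_of_code hr' n)
      obtain ⟨w', _, k, _, hk⟩ := (H.symm (i + 5) (Px.v n)).1.1 hmem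
      exact ⟨k, hk⟩
    choose a ha using h1
    choose c hc using h2
    have hac : ∀ n, a (c n) = n := by
      intro n
      have h3 := ha (c n)
      rw [← hc, Equiv.apply_symm_apply] at h3
      simpa using h3.symm
    have hca : ∀ n, c (a n) = n := by
      intro n
      have h3 := hc (a n)
      rw [← ha, Equiv.symm_apply_apply] at h3
      simpa using h3.symm
    refine ⟨⟨a, c, hca, hac⟩, fun m n => ?_⟩
    change E m n = E' (a m) (a n)
    have key : ∀ b : Bool, E m n = b → E' (a m) (a n) = b := by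
      intro b hb
      obtain ⟨i, j, hi, hj, hDi, hDj⟩ : ∃ i j, wF i = pf ∧ wF j = ps ∧
          (wD W E i = Pr E b ∧ wD W E' i = Pr E' b) ∧ (wD W E j = Pr E b ∧ wD W E' j = Pr E' b) := by
        cases b with
        | true => exact ⟨1, 2, rfl, rfl, ⟨rfl, rfl⟩, rfl, rfl⟩
        | false => exact ⟨3, 4, rfl, rfl, ⟨rfl, rfl⟩, rfl, rfl⟩
      have hmi : Px.p m n ∈ wD W E i := by rw [hDi.1]; exact ⟨m, n, hb, rfl⟩
      have hmj : Px.p m n ∈ wD W E j := by rw [hDj.1]; exact ⟨m, n, hb, rfl⟩
      have h3 : h (Px.p m n) ∈ wD W E' i := (H i _).1.1 hmi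
      rw [hDi.2] at h3
      obtain ⟨m', n', hE', hmn⟩ := h3
      have h4 : h (wF i (Px.p m n)) = wF i (h (Px.p m n)) := (H i _).2 hmi
      have h5 : h (wF j (Px.p m n)) = wF j (h (Px.p m n)) := (H j _).2 hmj
      rw [hi, hmn] at h4
      rw [hj, hmn] at h5
      have h6 : Px.v (a m) = Px.v m' := (ha m).symm.trans h4
      have h7 : Px.v (a n) = Px.v n' := (ha n).symm.trans h5
      have h8 : a m = m' := by simpa using h6
      have h9 : a n = n' := by simpa using h7
      rw [h8, h9]
      exact hE'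
    exact (key _ rfl).symm
  · rintro ⟨π, hπ⟩
    have hπ' : ∀ i j, E' i j = E (π.symm i) (π.symm j) := by
      intro i j
      rw [hπ, Equiv.apply_symm_apply, Equiv.apply_symm_apply]
    let h : Px ≃ Px :=
      { toFun := pm π
        invFun := pm π.symm
        left_inv := fun x => by cases x <;> simp [pm]
        right_inv := fun x => by cases x <;> simp [pm] }
    have hPr : ∀ b x, x ∈ Pr E b ↔ h x ∈ Pr E' b := by
      intro b x
      constructor
      · rintro ⟨m, n, hb, rfl⟩
        refine ⟨π m, π n, ?_, rfl⟩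
        rw [← hπ]
        exact hb
      · rintro ⟨m, n, hb, hx⟩
        refine ⟨π.symm m, π.symm n, ?_, ?_⟩
        · rw [← hπ']
          exact hb
        · have := congrArg h.symm hx
          rw [Equiv.symm_apply_apply] at this
          exact this
    have hDw : ∀ o x, x ∈ Dw W E o ↔ h x ∈ Dw W E' o := by
      intro o x
      constructor
      · rintro ⟨w, hw, n, hn, rfl⟩
        exact ⟨w, hw, π n, rk_iso hπ hn, rfl⟩
      · rintro ⟨w, hw, n, hn, hx⟩
        refine ⟨w, hw, π.symm n, rk_iso hπ' hn, ?_⟩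
        have := congrArg h.symm hx
        rw [Equiv.symm_apply_apply] at this
        exact this
    refine ⟨h, fun i x => ?_⟩
    match i with
    | 0 => exact ⟨⟨fun _ => trivial, fun _ => trivial⟩, fun _ => rfl⟩
    | 1 =>
      refine ⟨hPr true x, ?_⟩
      rintro ⟨m, n, _, rfl⟩
      rfl
    | 2 =>
      refine ⟨hPr true x, ?_⟩
      rintro ⟨m, n, _, rfl⟩
      rfl
    | 3 =>
      refine ⟨hPr false x, ?_⟩
      rintro ⟨m, n, _, rfl⟩
      rfl
    | 4 =>
      refine ⟨hPr false x, ?_⟩
      rintro ⟨m, n, _, rfl⟩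
      rfl
    | i + 5 => exact ⟨hDw _ x, fun _ => rfl⟩

/-! ### Measurability -/

theorem meas_rk (w : W) : ∀ n, MeasurableSet {E : ℕ → ℕ → Bool | Rk W E w n} := by
  induction w using WellFoundedLT.induction with
  | ind w ih =>
    intro n
    have h1 : {E : ℕ → ℕ → Bool | Rk W E w n} =
        ⋂ i : ℕ, ({E : ℕ → ℕ → Bool | E i n = true}ᶜ ∪
          ⋃ v : {v : W // v < w}, {E : ℕ → ℕ → Bool | Rk W E v.1 i}) := by
      ext E
      rw [Set.mem_iInter]
      constructor
      · intro h i
        by_cases hi : E i n = true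
        · obtain ⟨v, hv, hv'⟩ := (rk_iff W E w n).1 h i hi
          exact Or.inr (Set.mem_iUnion.2 ⟨⟨v, hv⟩, hv'⟩)
        · exact Or.inl hi
      · intro h
        change Rk W E w n
        rw [rk_iff]
        intro i hi
        rcases h i with h2 | h2
        · exact absurd hi h2
        · obtain ⟨v, hv⟩ := Set.mem_iUnion.1 h2
          exact ⟨v.1, v.2, hv⟩
    rw [h1]
    refine MeasurableSet.iInter fun i => MeasurableSet.union ?_ ?_
    · have h2 : Measurable fun E : ℕ → ℕ → Bool => E i n :=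
        (measurable_pi_apply n).comp (measurable_pi_apply i)
      exact (h2 (measurableSet_singleton true)).compl
    · exact MeasurableSet.iUnion fun v => ih v.1 v.2 i

theorem meas_wD (i : ℕ) (x : Px) : MeasurableSet {E : ℕ → ℕ → Bool | x ∈ (wops W E).D i} := by
  have hPr : ∀ b, MeasurableSet {E : ℕ → ℕ → Bool | x ∈ Pr E b} := by
    intro b
    cases x with
    | b =>
      have : {E : ℕ → ℕ → Bool | Px.b ∈ Pr E b} = ∅ := by
        ext E
        constructor
        · rintro ⟨m, n, _, h⟩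
          simp at h
        · intro h
          exact h.elim
      rw [this]
      exact MeasurableSet.empty
    | v k =>
      have : {E : ℕ → ℕ → Bool | Px.v k ∈ Pr E b} = ∅ := by
        ext E
        constructor
        · rintro ⟨m, n, _, h⟩
          simp at h
        · intro h
          exact h.elim
      rw [this]
      exact MeasurableSet.empty
    | p m n =>
      have : {E : ℕ → ℕ → Bool | Px.p m n ∈ Pr E b} = (fun E : ℕ → ℕ → Bool => E m n) ⁻¹' {b} := by
        ext E
        constructor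
        · rintro ⟨m', n', hb, h⟩
          obtain ⟨h1, h2⟩ : m = m' ∧ n = n' := by simpa using h
          subst h1
          subst h2
          exact hb
        · intro h
          exact ⟨m, n, h, rfl⟩
      rw [this]
      have h2 : Measurable fun E : ℕ → ℕ → Bool => E m n :=
        (measurable_pi_apply n).comp (measurable_pi_apply m)
      exact h2 (measurableSet_singleton b)
  match i with
  | 0 =>
    have : {E : ℕ → ℕ → Bool | x ∈ (wops W E).D 0} = Set.univ := by
      ext E
      exact ⟨fun _ => trivial, fun _ => trivial⟩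
    rw [this]
    exact MeasurableSet.univ
  | 1 => exact hPr true
  | 2 => exact hPr true
  | 3 => exact hPr false
  | 4 => exact hPr false
  | i + 5 =>
    change MeasurableSet {E : ℕ → ℕ → Bool | x ∈ Dw W E (en W i)}
    cases hw : en W i with
    | none =>
      have : {E : ℕ → ℕ → Bool | x ∈ Dw W E none} = ∅ := by
        ext E
        constructor
        · rintro ⟨w, h, _⟩
          simp at h
        · intro h
          exact h.elim
      rw [this]
      exact MeasurableSet.empty
    | some w =>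
      by_cases hx : ∃ n, x = Px.v n
      · obtain ⟨n, rfl⟩ := hx
        have : {E : ℕ → ℕ → Bool | Px.v n ∈ Dw W E (some w)} = {E : ℕ → ℕ → Bool | Rk W E w n} := by
          ext E
          constructor
          · rintro ⟨w', h, n', hn, h2⟩
            have h3 : w = w' := Option.some_injective _ h
            have h4 : n = n' := by simpa using h2
            subst h3
            subst h4
            exact hn
          · intro h
            exact ⟨w, rfl, n, h, rfl⟩
        rw [this]
        exact meas_rk w n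
      · have : {E : ℕ → ℕ → Bool | x ∈ Dw W E (some w)} = ∅ := by
          ext E
          constructor
          · rintro ⟨w', h, n', hn, h2⟩
            exact hx ⟨n', h2⟩
          · intro h
            exact h.elim
        rw [this]
        exact MeasurableSet.empty

theorem meas_wCn (v : Px →₀ ℚ[X]) : MeasurableSet {E : ℕ → ℕ → Bool | v ∈ (wops W E).Cn} := by
  have h1 : {E : ℕ → ℕ → Bool | v ∈ (wops W E).Cn} = {E : ℕ → ℕ → Bool | v ∈ (wops W E).V} ∩
      {_E : ℕ → ℕ → Bool | ∀ x, 0 ≤ ev (v x)} := rfl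
  rw [h1]
  refine MeasurableSet.inter ?_ (MeasurableSet.const _)
  exact Pool.Agent.H85.EQ.gmeas_V (O := fun E : ℕ → ℕ → Bool => wops W E)
    (fun i x => meas_wD i x) (fun i x y => MeasurableSet.const (wF i x = y)) v

theorem meas_wPs (v : Px →₀ ℚ[X]) : MeasurableSet {E : ℕ → ℕ → Bool | v ∈ (wops W E).Ps} := by
  have h1 : {E : ℕ → ℕ → Bool | v ∈ (wops W E).Ps} = {E : ℕ → ℕ → Bool | v ∈ (wops W E).Cn} ∩
      {_E : ℕ → ℕ → Bool | v ≠ 0} := rfl
  rw [h1]
  exact (meas_wCn v).inter (MeasurableSet.const _)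

theorem table_iso_pos {G : Type} [AddCommSemigroup G] (A B : AddSubsemigroup G) (e : ℕ ≃ A)
    (e' : ℕ ≃ B) (m n : SolPos ℕ) (he : ∀ a b, e (table m.1 a b) = e a + e b)
    (he' : ∀ a b, e' (table n.1 a b) = e' a + e' b) :
    (isoPos ℕ).r m n ↔ Nonempty (Multiplicative A ≃* Multiplicative B) := by
  let E : @MulEquiv ℕ (Multiplicative A) m.1.toSemigroup.toMul _ :=
    @MulEquiv.mk ℕ (Multiplicative A) m.1.toSemigroup.toMul _ (e.trans Multiplicative.ofAdd)
      (fun a b => congrArg Multiplicative.ofAdd (he a b))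
  let E' : @MulEquiv ℕ (Multiplicative B) n.1.toSemigroup.toMul _ :=
    @MulEquiv.mk ℕ (Multiplicative B) n.1.toSemigroup.toMul _ (e'.trans Multiplicative.ofAdd)
      (fun a b => congrArg Multiplicative.ofAdd (he' a b))
  constructor
  · rintro ⟨f⟩
    exact ⟨@MulEquiv.trans _ _ _ _ n.1.toSemigroup.toMul _
      (@MulEquiv.trans _ _ _ _ m.1.toSemigroup.toMul n.1.toSemigroup.toMul
        (@MulEquiv.symm _ _ m.1.toSemigroup.toMul _ E) f) E'⟩
  · rintro ⟨g⟩
    exact ⟨@MulEquiv.trans _ _ _ m.1.toSemigroup.toMul _ n.1.toSemigroup.toMul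
      (@MulEquiv.trans _ _ _ m.1.toSemigroup.toMul _ _ E g)
      (@MulEquiv.symm _ _ n.1.toSemigroup.toMul _ E')⟩

theorem table_iso_nonneg {G : Type} [AddCommSemigroup G] (A B : AddSubsemigroup G) (e : ℕ ≃ A)
    (e' : ℕ ≃ B) (m n : SolNonneg ℕ) (he : ∀ a b, e (table m.1 a b) = e a + e b)
    (he' : ∀ a b, e' (table n.1 a b) = e' a + e' b) :
    (isoNonneg ℕ).r m n ↔ Nonempty (Multiplicative A ≃* Multiplicative B) := by
  let E : @MulEquiv ℕ (Multiplicative A) m.1.toSemigroup.toMul _ :=
    @MulEquiv.mk ℕ (Multiplicative A) m.1.toSemigroup.toMul _ (e.trans Multiplicative.ofAdd)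
      (fun a b => congrArg Multiplicative.ofAdd (he a b))
  let E' : @MulEquiv ℕ (Multiplicative B) n.1.toSemigroup.toMul _ :=
    @MulEquiv.mk ℕ (Multiplicative B) n.1.toSemigroup.toMul _ (e'.trans Multiplicative.ofAdd)
      (fun a b => congrArg Multiplicative.ofAdd (he' a b))
  constructor
  · rintro ⟨f⟩
    exact ⟨@MulEquiv.trans _ _ _ _ n.1.toSemigroup.toMul _
      (@MulEquiv.trans _ _ _ _ m.1.toSemigroup.toMul n.1.toSemigroup.toMul
        (@MulEquiv.symm _ _ m.1.toSemigroup.toMul _ E) f) E'⟩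
  · rintro ⟨g⟩
    exact ⟨@MulEquiv.trans _ _ _ m.1.toSemigroup.toMul _ n.1.toSemigroup.toMul
      (@MulEquiv.trans _ _ _ m.1.toSemigroup.toMul _ _ E g)
      (@MulEquiv.symm _ _ n.1.toSemigroup.toMul _ E')⟩

theorem countable_amb' : Countable (Px →₀ ℚ[X]) := by
  have : Countable ℚ[X] := by
    rw [← Cardinal.mk_le_aleph0_iff]
    exact (Polynomial.cardinalMk_le_max).trans (max_le Cardinal.mk_le_aleph0 le_rfl)
  infer_instance

variable (W)

theorem tower_pos : ∃ β : (ℕ → ℕ → Bool) → ℕ → ℕ → ℕ, Measurable β ∧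
    (∀ E, IsCode W E → ∃ m : SolPos ℕ, table m.1 = β E) ∧
    ∀ E E', IsCode W E → IsCode W E' → ∀ m n : SolPos ℕ,
      table m.1 = β E → table n.1 = β E' → ((isoPos ℕ).r m n ↔ RelIso E E') := by
  have := countable_amb'
  obtain ⟨tab, h1, -, h2⟩ := exists_table (fun E : ℕ → ℕ → Bool => (wops W E).Ps)
    (fun E => Ps_infinite _)
  refine ⟨tab, h2 meas_wPs, fun E hE => ?_, fun E E' hE hE' m n hm hn => ?_⟩
  · obtain ⟨e, he⟩ := h1 E
    exact (mem_PosTables _ e _ he).2 (sol_pos (code_rigid hE))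
  · obtain ⟨e, he⟩ := h1 E
    obtain ⟨e', he'⟩ := h1 E'
    rw [table_iso_pos _ _ e e' m n (by rw [hm]; exact he) (by rw [hn]; exact he'), Ps_iso_iff,
      code_iso hE hE']

theorem tower_nonneg : ∃ β : (ℕ → ℕ → Bool) → ℕ → ℕ → ℕ, Measurable β ∧
    (∀ E, IsCode W E → ∃ m : SolNonneg ℕ, table m.1 = β E) ∧
    ∀ E E', IsCode W E → IsCode W E' → ∀ m n : SolNonneg ℕ,
      table m.1 = β E → table n.1 = β E' → ((isoNonneg ℕ).r m n ↔ RelIso E E') := by
  have := countable_amb'
  obtain ⟨tab, h1, -, h2⟩ := exists_table (fun E : ℕ → ℕ → Bool => (wops W E).Cs)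
    (fun E => Cs_infinite _)
  refine ⟨tab, h2 meas_wCn, fun E hE => ?_, fun E E' hE hE' m n hm hn => ?_⟩
  · obtain ⟨e, he⟩ := h1 E
    exact (mem_NonnegTables _ e _ he).2 (sol_nonneg (code_rigid hE))
  · obtain ⟨e, he⟩ := h1 E
    obtain ⟨e', he'⟩ := h1 E'
    rw [table_iso_nonneg _ _ e e' m n (by rw [hm]; exact he) (by rw [hn]; exact he'), Cs_iso_iff,
      code_iso hE hE']

end

end Pool.Agent.H38.EndQ
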